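/-
Symbols in rank one: a group with elements `x t`, `y t` (`t` in a commutative ring) satisfying the
relations of the Steinberg group of `SL_2`. If the group of units is cyclic and there are non squares
`s`, `s'` with `s + s' = 1`, then `(x 1 * y (-1) * x 1) ^ 4 = 1`.
-/
import Mathlib

set_option autoImplicit false

namespace Pool.Agent.H.MP_59b15d_al.R1

variable {R S : Type*} [CommRing R] [Group S]

lemma inv_neg_units (u : Rˣ) : (-u)⁻¹ = -u⁻¹ := by
  rw [inv_eq_iff_mul_eq_one, neg_mul_neg, mul_inv_cancel]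

/-- The element `w(u)`. -/
def ww (x y : R → S) (u : Rˣ) : S := x u * y (-↑u⁻¹) * x u

/-- The relations of the Steinberg group of `SL_2`. -/
structure St (x y : R → S) : Prop where
  xa : ∀ s t, x (s + t) = x s * x t
  ya : ∀ s t, y (s + t) = y s * y t
  wx : ∀ (u : Rˣ) t, ww x y u * x t = y (-((↑u⁻¹ : R) ^ 2 * t)) * ww x y u
  wy : ∀ (u : Rˣ) t, ww x y u * y t = x (-((u : R) ^ 2 * t)) * ww x y u

namespace St

variable {x y : R → S} (H : St x y)
include H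

lemma x0 : x 0 = 1 := by
  have h := H.xa 0 0
  rw [add_zero] at h
  exact (mul_eq_left.1 h.symm)

lemma y0 : y 0 = 1 := by
  have h := H.ya 0 0
  rw [add_zero] at h
  exact (mul_eq_left.1 h.symm)

lemma xn (t : R) : x (-t) = (x t)⁻¹ := by
  rw [eq_inv_iff_mul_eq_one, ← H.xa, neg_add_cancel, H.x0]

lemma yn (t : R) : y (-t) = (y t)⁻¹ := by
  rw [eq_inv_iff_mul_eq_one, ← H.ya, neg_add_cancel, H.y0]

lemma ww_alt (u : Rˣ) : ww x y u = y (-↑u⁻¹) * x u * y (-↑u⁻¹) := by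
  have h := H.wx u u
  have e1 : -((↑u⁻¹ : R) ^ 2 * u) = -↑u⁻¹ := by
    rw [pow_two, mul_assoc, Units.inv_mul, mul_one]
  rw [e1] at h
  have h2 : ww x y u * x u = y (-↑u⁻¹) * x u * y (-↑u⁻¹) * x u := by
    rw [h, ww]
    simp only [mul_assoc]
  exact mul_right_cancel h2

lemma ww_neg (u : Rˣ) : ww x y (-u) = (ww x y u)⁻¹ := by
  have e1 : (-u)⁻¹ = -u⁻¹ := inv_neg_units u
  rw [ww, ww, e1, Units.val_neg, Units.val_neg, neg_neg, H.xn, H.yn]
  group

/-- The element `h(u)`. -/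
lemma ww1_x (t : R) : (ww x y 1)⁻¹ * x t = y (-t) * (ww x y 1)⁻¹ := by
  have h := H.wy 1 (-t)
  rw [Units.val_one, one_pow, one_mul, neg_neg] at h
  rw [inv_mul_eq_iff_eq_mul, ← mul_assoc, eq_mul_inv_iff_mul_eq, h]

lemma ww1_y (t : R) : (ww x y 1)⁻¹ * y t = x (-t) * (ww x y 1)⁻¹ := by
  have h := H.wx 1 (-t)
  rw [inv_one, Units.val_one, one_pow, one_mul, neg_neg] at h
  rw [inv_mul_eq_iff_eq_mul, ← mul_assoc, eq_mul_inv_iff_mul_eq, h]

omit H in
/-- The element `h(u)`. -/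
def hh (x y : R → S) (u : Rˣ) : S := ww x y u * (ww x y 1)⁻¹

omit H in
lemma hh_one : hh x y 1 = 1 := mul_inv_cancel _

lemma hx (u : Rˣ) (t : R) : hh x y u * x t = x ((u : R) ^ 2 * t) * hh x y u := by
  rw [hh, mul_assoc, H.ww1_x, ← mul_assoc, H.wy, mul_neg, neg_neg, mul_assoc]

lemma hy (u : Rˣ) (t : R) : hh x y u * y t = y ((↑u⁻¹ : R) ^ 2 * t) * hh x y u := by
  rw [hh, mul_assoc, H.ww1_y, ← mul_assoc, H.wx, mul_neg, neg_neg, mul_assoc]

lemma hw (u v : Rˣ) : hh x y u * ww x y v = ww x y (u ^ 2 * v) * hh x y u := by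
  have e1 : ((u ^ 2 * v : Rˣ) : R) = (u : R) ^ 2 * v := by push_cast; ring
  have e2 : (↑(u ^ 2 * v)⁻¹ : R) = (↑u⁻¹ : R) ^ 2 * ↑v⁻¹ := by
    rw [mul_inv, ← inv_pow]
    push_cast
    ring
  rw [ww, ww, e1, e2]
  calc hh x y u * (x v * y (-↑v⁻¹) * x v) = (hh x y u * x v) * y (-↑v⁻¹) * x v := by
        simp only [mul_assoc]
    _ = x ((u : R) ^ 2 * v) * (hh x y u * y (-↑v⁻¹)) * x v := by
        rw [H.hx]
        simp only [mul_assoc]
    _ = x ((u : R) ^ 2 * v) * y ((↑u⁻¹ : R) ^ 2 * -↑v⁻¹) * (hh x y u * x v) := by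
        rw [H.hy]
        simp only [mul_assoc]
    _ = _ := by
        rw [H.hx, mul_neg]
        simp only [mul_assoc]

/-- `h(u) h(v) = h(u^2 v) h(u^2)^{-1} h(u)`. -/
lemma hh_hh (u v : Rˣ) :
    hh x y u * hh x y v = hh x y (u ^ 2 * v) * (hh x y (u ^ 2))⁻¹ * hh x y u := by
  have h1 : hh x y u * (ww x y 1)⁻¹ = (ww x y (u ^ 2))⁻¹ * hh x y u := by
    rw [mul_inv_eq_iff_eq_mul, mul_assoc, H.hw u 1, mul_one, inv_mul_cancel_left]
  calc hh x y u * hh x y v = (hh x y u * ww x y v) * (ww x y 1)⁻¹ := by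
        rw [hh, hh]
        simp only [mul_assoc]
    _ = ww x y (u ^ 2 * v) * (hh x y u * (ww x y 1)⁻¹) := by
        rw [H.hw, mul_assoc]
    _ = ww x y (u ^ 2 * v) * (ww x y (u ^ 2))⁻¹ * hh x y u := by
        rw [h1, mul_assoc]
    _ = _ := by
        simp only [hh]
        group

omit H in
/-- The element commutes with all `x t` and `y t`. -/
def Cen (x y : R → S) (c : S) : Prop := ∀ t, Commute c (x t) ∧ Commute c (y t)

omit H in
lemma Cen.ww {c : S} (h : Cen x y c) (u : Rˣ) : Commute c (ww x y u) :=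
  ((h _).1.mul_right (h _).2).mul_right (h _).1

omit H in
lemma Cen.hh {c : S} (h : Cen x y c) (u : Rˣ) : Commute c (hh x y u) :=
  (h.ww u).mul_right (h.ww 1).inv_right

/-- The symbol `c(u, v)`. -/
lemma cen_c (u v : Rˣ) : Cen x y (hh x y u * hh x y v * (hh x y (u * v))⁻¹) := by
  intro t
  constructor
  · have h1 : (hh x y (u * v))⁻¹ * x t = x ((↑(u * v)⁻¹ : R) ^ 2 * t) * (hh x y (u * v))⁻¹ := by
      rw [inv_mul_eq_iff_eq_mul, ← mul_assoc, eq_mul_inv_iff_mul_eq, H.hx, ← mul_assoc,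
        ← mul_pow, Units.mul_inv, one_pow, one_mul]
    change _ * _ = _ * _
    rw [mul_assoc, h1, ← mul_assoc, mul_assoc (hh x y u), H.hx, ← mul_assoc, H.hx]
    have e : (u : R) ^ 2 * ((v : R) ^ 2 * ((↑(u * v)⁻¹ : R) ^ 2 * t)) = t := by
      have e0 : (u : R) * (v : R) * (↑(u * v)⁻¹ : R) = 1 := by
        rw [← Units.val_mul, Units.mul_inv]
      have e1 : (u : R) ^ 2 * ((v : R) ^ 2 * ((↑(u * v)⁻¹ : R) ^ 2 * t)) =
          ((u : R) * (v : R) * (↑(u * v)⁻¹ : R)) ^ 2 * t := by ring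
      rw [e1, e0, one_pow, one_mul]
    rw [e]
    simp only [mul_assoc]
  · have h1 : (hh x y (u * v))⁻¹ * y t = y (((u * v : Rˣ) : R) ^ 2 * t) * (hh x y (u * v))⁻¹ := by
      rw [inv_mul_eq_iff_eq_mul, ← mul_assoc, eq_mul_inv_iff_mul_eq, H.hy, ← mul_assoc,
        ← mul_pow, Units.inv_mul, one_pow, one_mul]
    change _ * _ = _ * _
    rw [mul_assoc, h1, ← mul_assoc, mul_assoc (hh x y u), H.hy, ← mul_assoc, H.hy]
    have e : (↑u⁻¹ : R) ^ 2 * ((↑v⁻¹ : R) ^ 2 * (((u * v : Rˣ) : R) ^ 2 * t)) = t := by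
      have e0 : (↑u⁻¹ : R) * (↑v⁻¹ : R) * ((u * v : Rˣ) : R) = 1 := by
        rw [← Units.val_mul, ← Units.val_mul]
        have : u⁻¹ * v⁻¹ * (u * v) = 1 := by
          rw [mul_mul_mul_comm, inv_mul_cancel, inv_mul_cancel, one_mul]
        rw [this, Units.val_one]
      have e1 : (↑u⁻¹ : R) ^ 2 * ((↑v⁻¹ : R) ^ 2 * (((u * v : Rˣ) : R) ^ 2 * t)) =
          ((↑u⁻¹ : R) * (↑v⁻¹ : R) * ((u * v : Rˣ) : R)) ^ 2 * t := by ring
      rw [e1, e0, one_pow, one_mul]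
    rw [e]
    simp only [mul_assoc]

omit H in
/-- An element that commutes with `h(g)` and `h(v)` commutes with `h(v g)`. -/
lemma comm_mul {c : S} {g v : Rˣ} (hg : Commute c (hh x y g)) (hv : Commute c (hh x y v))
    (hc : Commute c (hh x y v * hh x y g * (hh x y (v * g))⁻¹)) : Commute c (hh x y (v * g)) := by
  have e : hh x y (v * g) =
      (hh x y v * hh x y g * (hh x y (v * g))⁻¹)⁻¹ * (hh x y v * hh x y g) := by group
  rw [e]
  exact hc.inv_right.mul_right (hv.mul_right hg)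

/-- If the units are a finite cyclic group then all `h(u)` commute. -/
theorem hh_comm [Finite Rˣ] [IsCyclic Rˣ] (u v : Rˣ) : Commute (hh x y u) (hh x y v) := by
  obtain ⟨g, hg⟩ := IsCyclic.exists_monoid_generator (α := Rˣ)
  have key : ∀ w : Rˣ, Commute (hh x y w) (hh x y g) → ∀ n : ℕ,
      Commute (hh x y w) (hh x y (g ^ n)) := by
    intro w hw n
    induction n with
    | zero => rw [pow_zero, hh_one]; exact Commute.one_right _
    | succ n ih =>
      rw [pow_succ]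
      exact comm_mul hw ih ((H.cen_c _ _).hh w).symm
  have h1 : ∀ n : ℕ, Commute (hh x y g) (hh x y (g ^ n)) := key g (Commute.refl _)
  have h2 : ∀ w : Rˣ, Commute (hh x y w) (hh x y g) := by
    intro w
    obtain ⟨n, hn⟩ := (Submonoid.mem_powers_iff _ _).1 (hg w)
    rw [← hn]
    exact (h1 n).symm
  obtain ⟨n, hn⟩ := (Submonoid.mem_powers_iff _ _).1 (hg v)
  rw [← hn]
  exact key u (h2 u) n

/-- `h(u^2) h(v) = h(u^2 v)` if all `h(u)` commute. -/
lemma hh_sq (hc : ∀ u v : Rˣ, Commute (hh x y u) (hh x y v)) (u v : Rˣ) :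
    hh x y (u ^ 2) * hh x y v = hh x y (u ^ 2 * v) := by
  have h1 := H.hh_hh u v
  rw [(hc u v).eq] at h1
  have h2 := mul_right_cancel h1
  rw [eq_mul_inv_iff_mul_eq, (hc v (u ^ 2)).eq] at h2
  exact h2

/-- `h(u) h(v) = h(u v)` if `u + v = 1`. -/
lemma hh_add (u v : Rˣ) (huv : (u : R) + v = 1) : hh x y u * hh x y v = hh x y (u * v) := by
  have h0 : ww x y (-1) = y 1 * x (-1) * y 1 := by
    rw [H.ww_alt]
    have e : -(↑(-1 : Rˣ)⁻¹ : R) = 1 := by
      rw [inv_neg_units, inv_one, Units.val_neg, Units.val_one, neg_neg]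
    rw [e, Units.val_neg, Units.val_one]
  have h1 : ww x y u * y 1 = x (-(u : R) ^ 2) * ww x y u := by
    have h := H.wy u 1
    rwa [mul_one] at h
  have h2 : y 1 * ww x y v = ww x y v * x (-(v : R) ^ 2) := by
    rw [H.wx v (-(v : R) ^ 2)]
    congr 2
    have e : (↑v⁻¹ : R) * v = 1 := Units.inv_mul v
    linear_combination (-(↑v⁻¹ : R) * v - 1) * e
  have h3 : ww x y u * x (-1) * ww x y v = x u * y (-(↑(u * v)⁻¹ : R)) * x v := by
    have e1 : x (u : R) * x (-1) * x (v : R) = 1 := by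
      rw [← H.xa, ← H.xa]
      have : (u : R) + -1 + v = 0 := by linear_combination huv
      rw [this, H.x0]
    have e2 : -(↑u⁻¹ : R) + -(↑v⁻¹ : R) = -(↑(u * v)⁻¹ : R) := by
      have a1 : (↑(u * v)⁻¹ : R) = ↑u⁻¹ * ↑v⁻¹ := by
        rw [mul_inv, Units.val_mul]
      have a2 : (↑u⁻¹ : R) * u = 1 := Units.inv_mul u
      have a3 : (↑v⁻¹ : R) * v = 1 := Units.inv_mul v
      rw [a1]
      linear_combination (-(↑u⁻¹ : R) * ↑v⁻¹) * huv + (↑v⁻¹ : R) * a2 + (↑u⁻¹ : R) * a3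
    calc ww x y u * x (-1) * ww x y v =
        x u * y (-↑u⁻¹) * (x (u : R) * x (-1) * x (v : R)) * y (-↑v⁻¹) * x v := by
          rw [ww, ww]
          simp only [mul_assoc]
      _ = x u * (y (-↑u⁻¹) * y (-↑v⁻¹)) * x v := by
          rw [e1, mul_one]
          simp only [mul_assoc]
      _ = _ := by rw [← H.ya, e2]
  have h4 : ww x y u * ww x y (-1) * ww x y v = ww x y (u * v) := by
    calc ww x y u * ww x y (-1) * ww x y v =
        (ww x y u * y 1) * x (-1) * (y 1 * ww x y v) := by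
          rw [h0]
          simp only [mul_assoc]
      _ = x (-(u : R) ^ 2) * (ww x y u * x (-1) * ww x y v) * x (-(v : R) ^ 2) := by
          rw [h1, h2]
          simp only [mul_assoc]
      _ = (x (-(u : R) ^ 2) * x u) * y (-(↑(u * v)⁻¹ : R)) * (x v * x (-(v : R) ^ 2)) := by
          rw [h3]
          simp only [mul_assoc]
      _ = _ := by
          rw [← H.xa, ← H.xa, ww, Units.val_mul]
          congr 2
          · congr 1
            congr 1
            linear_combination (-(u : R)) * huv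
          · linear_combination (-(v : R)) * huv
  rw [hh, hh, hh, ← h4, H.ww_neg]
  simp only [mul_assoc]

/-- `w(1)^4 = 1`, abstract form. -/
theorem ww_four (hc : ∀ u v : Rˣ, Commute (hh x y u) (hh x y v))
    (s s' : Rˣ) (hs : (s : R) + s' = 1) (a : Rˣ) (ha : s' = a ^ 2 * s)
    (hm : (∃ b : Rˣ, -1 = b ^ 2) ∨ ∃ b : Rˣ, -1 = b ^ 2 * s) : ww x y 1 ^ 4 = 1 := by
  have h1 : hh x y s * hh x y s = hh x y (s ^ 2) := by
    have e1 := H.hh_add s s' hs
    have e2 : s * s' = a ^ 2 * s ^ 2 := by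
      rw [ha, pow_two s]
      ac_rfl
    rw [e2, ← H.hh_sq hc a (s ^ 2), ha, ← H.hh_sq hc a s, ← mul_assoc, (hc s (a ^ 2)).eq,
      mul_assoc] at e1
    exact mul_left_cancel e1
  have h2 : hh x y (-1) * hh x y (-1) = 1 := by
    rcases hm with ⟨b, hb⟩ | ⟨b, hb⟩
    · have e1 : b ^ 2 * b ^ 2 = 1 := by rw [← hb]; simp
      rw [hb, H.hh_sq hc, e1, hh_one]
    · have e1 : b ^ 2 * (b ^ 2 * s ^ 2) = 1 := by
        have : b ^ 2 * (b ^ 2 * s ^ 2) = (b ^ 2 * s) * (b ^ 2 * s) := by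
          rw [pow_two s]
          ac_rfl
        rw [this, ← hb]
        simp
      calc hh x y (-1) * hh x y (-1) = hh x y (b ^ 2 * s) * hh x y (b ^ 2 * s) := by rw [← hb]
        _ = hh x y (b ^ 2) * (hh x y s * hh x y (b ^ 2)) * hh x y s := by
            rw [← H.hh_sq hc b s]
            simp only [mul_assoc]
        _ = hh x y (b ^ 2) * (hh x y (b ^ 2) * (hh x y s * hh x y s)) := by
            rw [(hc s (b ^ 2)).eq]
            simp only [mul_assoc]
        _ = 1 := by rw [h1, H.hh_sq hc, H.hh_sq hc, e1, hh_one]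
  rw [hh, H.ww_neg] at h2
  have h3 : (ww x y 1 ^ 4)⁻¹ = 1 := by
    rw [← h2]
    group
  rwa [inv_eq_one] at h3

end St

/-- Two non squares of a finite cyclic group differ by a square. -/
lemma nonsq_cyclic {G : Type*} [CommGroup G] [IsCyclic G] {s t : G} (hs : ¬ ∃ a, s = a ^ 2)
    (ht : ¬ ∃ a, t = a ^ 2) : ∃ a, t = a ^ 2 * s := by
  obtain ⟨g, hg⟩ := IsCyclic.exists_generator (α := G)
  obtain ⟨m, hm⟩ := Subgroup.mem_zpowers_iff.1 (hg s)
  obtain ⟨n, hn⟩ := Subgroup.mem_zpowers_iff.1 (hg t)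
  have hodd : ∀ (k : ℤ) (r : G), g ^ k = r → (¬ ∃ a, r = a ^ 2) → ¬ Even k := by
    rintro k r hk hr ⟨l, hl⟩
    apply hr
    refine ⟨g ^ l, ?_⟩
    rw [← hk, hl, zpow_add, pow_two]
  have h1 := Int.not_even_iff_odd.1 (hodd m s hm hs)
  have h2 := Int.not_even_iff_odd.1 (hodd n t hn ht)
  obtain ⟨l, hl⟩ := h2.sub_odd h1
  refine ⟨g ^ l, ?_⟩
  rw [← hm, ← hn, pow_two, ← zpow_add, ← zpow_add]
  congr 1
  omega

/-- **Rank one symbols.** -/
theorem St.ww_four_cyclic {x y : R → S} (H : St x y) [Finite Rˣ] [IsCyclic Rˣ] (s s' : Rˣ)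
    (hs : (s : R) + s' = 1) (h1 : ¬ ∃ a, s = a ^ 2) (h2 : ¬ ∃ a, s' = a ^ 2) :
    ww x y 1 ^ 4 = 1 := by
  obtain ⟨a, ha⟩ := nonsq_cyclic h1 h2
  refine H.ww_four H.hh_comm s s' hs a ha ?_
  by_cases hm : ∃ b : Rˣ, -1 = b ^ 2
  · exact Or.inl hm
  · obtain ⟨b, hb⟩ := nonsq_cyclic h1 hm
    exact Or.inr ⟨b, hb⟩

end Pool.Agent.H.MP_59b15d_al.R1
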