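/-
Non square units `s`, `s'` of `Z / q^j` with `s + s' = 1` (`q` an odd prime).
-/
import Pool.Agent.H.MP_59b15d_al.h11r.Sym

set_option autoImplicit false

namespace Pool.Agent.H.MP_59b15d_al.R1

/-- In a field with a non square there are non squares `t`, `1 - t`, provided the non squares are not
closed under `t ↦ t - 1`. -/
lemma exists_ns (q : ℕ) [Fact q.Prime] (hq : q ≠ 2) :
    ∃ n : ℕ, 1 < n ∧ n < q ∧ (¬ IsSquare (n : ZMod q)) ∧ ¬ IsSquare (1 - (n : ZMod q)) := by
  by_contra hcon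
  push Not at hcon
  have hqp : q.Prime := Fact.out
  -- if `t` is a non square then so is `t - 1`
  have key : ∀ t : ZMod q, ¬ IsSquare t → ¬ IsSquare (t - 1) := by
    intro t ht
    have ht0 : t ≠ 0 := fun h => ht (h ▸ IsSquare.zero)
    have hti : ¬ IsSquare t⁻¹ := by
      intro h
      apply ht
      have := h.inv
      rwa [inv_inv] at this
    have hti0 : t⁻¹ ≠ 1 := by
      intro h
      apply hti
      rw [h]
      exact IsSquare.one
    obtain ⟨n, hn⟩ : ∃ n : ℕ, n = (t⁻¹).val := ⟨_, rfl⟩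
    have hnt : (n : ZMod q) = t⁻¹ := by rw [hn, ZMod.natCast_zmod_val]
    have hn1 : 1 < n := by
      rcases Nat.lt_or_ge 1 n with h | h
      · exact h
      · exfalso
        interval_cases n
        · apply hti
          rw [← hnt]
          simp
        · apply hti0
          rw [← hnt]
          simp
    have hnq : n < q := by rw [hn]; exact ZMod.val_lt _
    have h1 := hcon n hn1 hnq (by rw [hnt]; exact hti)
    rw [hnt] at h1
    intro h2
    apply ht
    have h3 : t = (t - 1) / (1 - t⁻¹) := by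
      have h4 : 1 - t⁻¹ ≠ 0 := sub_ne_zero.2 (Ne.symm hti0)
      rw [eq_div_iff h4, mul_sub, mul_one, mul_inv_cancel₀ ht0]
    rw [h3]
    exact h2.div h1
  obtain ⟨a, ha⟩ : ∃ a : ZMod q, ¬ IsSquare a := by
    have hodd : ringChar (ZMod q) ≠ 2 := by
      rw [ZMod.ringChar_zmod_n]
      exact hq
    exact FiniteField.exists_nonsquare hodd
  have hall : ∀ n : ℕ, ¬ IsSquare (a - n) := by
    intro n
    induction n with
    | zero => simpa using ha
    | succ n ih =>
      have := key _ ih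
      rw [sub_sub] at this
      simpa using this
  apply hall a.val
  rw [ZMod.natCast_zmod_val, sub_self]
  exact IsSquare.zero

/-- Units of `Z / q^j` with the required properties. -/
theorem exists_units (q : ℕ) [Fact q.Prime] (hq : q ≠ 2) {j : ℕ} (hj : j ≠ 0) :
    ∃ s s' : (ZMod (q ^ j))ˣ, (s : ZMod (q ^ j)) + s' = 1 ∧ (¬ ∃ a, s = a ^ 2) ∧
      ¬ ∃ a, s' = a ^ 2 := by
  obtain ⟨n, hn1, hnq, h1, h2⟩ := exists_ns q hq
  have hqp : q.Prime := Fact.out
  have hc : ∀ k : ℕ, 0 < k → k < q → k.Coprime (q ^ j) := by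
    intro k hk hkq
    apply Nat.Coprime.pow_right
    refine (Nat.coprime_comm.1 ((Nat.Prime.coprime_iff_not_dvd hqp).2 ?_))
    intro h
    have := Nat.le_of_dvd hk h
    omega
  have hd : q ∣ q ^ j := dvd_pow_self q hj
  let φ : ZMod (q ^ j) →+* ZMod q := ZMod.castHom hd (ZMod q)
  refine ⟨ZMod.unitOfCoprime n (hc n (by omega) hnq),
    -ZMod.unitOfCoprime (n - 1) (hc (n - 1) (by omega) (by omega)), ?_, ?_, ?_⟩
  · rw [Units.val_neg, ZMod.coe_unitOfCoprime, ZMod.coe_unitOfCoprime,
      Nat.cast_sub (by omega : 1 ≤ n)]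
    push_cast
    ring
  · rintro ⟨a, ha⟩
    apply h1
    have e1 := congrArg (fun u : (ZMod (q ^ j))ˣ => φ (u : ZMod (q ^ j))) ha
    simp only [ZMod.coe_unitOfCoprime, map_natCast, Units.val_pow_eq_pow_val, map_pow] at e1
    rw [e1, pow_two]
    exact ⟨_, rfl⟩
  · rintro ⟨a, ha⟩
    apply h2
    have e1 := congrArg (fun u : (ZMod (q ^ j))ˣ => φ (u : ZMod (q ^ j))) ha
    simp only [Units.val_neg, ZMod.coe_unitOfCoprime, map_neg, map_natCast,
      Units.val_pow_eq_pow_val, map_pow] at e1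
    have e2 : 1 - (n : ZMod q) = -((n - 1 : ℕ) : ZMod q) := by
      rw [Nat.cast_sub (by omega : 1 ≤ n)]
      push_cast
      ring
    rw [e2, e1, pow_two]
    exact ⟨_, rfl⟩

/-- The case of an odd prime power. -/
theorem St.ww_four_odd {S : Type*} [Group S] {q : ℕ} [Fact q.Prime] (hq : q ≠ 2) {j : ℕ}
    {x y : ZMod (q ^ j) → S} (H : St x y) : ww x y 1 ^ 4 = 1 := by
  by_cases hj : j = 0
  · subst hj
    have h1 : ∀ t : ZMod (q ^ 0), t = 0 := by
      intro t
      have : Subsingleton (ZMod (q ^ 0)) := by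
        rw [pow_zero]
        infer_instance
      exact Subsingleton.elim _ _
    have h2 : ww x y 1 = 1 := by
      rw [ww, h1 ((1 : (ZMod (q ^ 0))ˣ) : ZMod (q ^ 0)), h1 (-_), H.x0, H.y0, one_mul, one_mul]
    rw [h2, one_pow]
  · obtain ⟨s, s', h1, h2, h3⟩ := exists_units q hq hj
    have hqp : q.Prime := Fact.out
    have : IsCyclic (ZMod (q ^ j))ˣ := ZMod.isCyclic_units_of_prime_pow q hqp hq j
    have : NeZero (q ^ j) := ⟨pow_ne_zero j hqp.ne_zero⟩
    exact H.ww_four_cyclic s s' h1 h2 h3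

end Pool.Agent.H.MP_59b15d_al.R1
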