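/-
Groups over `SL(2, R)` modulo a central subgroup: the graph, products of rings, the prime two.
-/
import Pool.Agent.H.MP_59b15d_al.h11r.Sym

set_option autoImplicit false

namespace Pool.Agent.H.MP_59b15d_al.R1

open Matrix

/-- Upper elementary matrices. -/
def X {R : Type*} [CommRing R] (t : R) : SpecialLinearGroup (Fin 2) R :=
  ⟨!![1, t; 0, 1], by simp [Matrix.det_fin_two]⟩

/-- Lower elementary matrices. -/
def Y {R : Type*} [CommRing R] (t : R) : SpecialLinearGroup (Fin 2) R :=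
  ⟨!![1, 0; t, 1], by simp [Matrix.det_fin_two]⟩

section

variable {R R' S : Type*} [CommRing R] [CommRing R'] [Group S]

lemma ext2 {A B : SpecialLinearGroup (Fin 2) R} (h00 : A.1 0 0 = B.1 0 0) (h01 : A.1 0 1 = B.1 0 1)
    (h10 : A.1 1 0 = B.1 1 0) (h11 : A.1 1 1 = B.1 1 1) : A = B := by
  apply Subtype.ext
  ext i j
  fin_cases i <;> fin_cases j <;> assumption

lemma mul00 (A B : SpecialLinearGroup (Fin 2) R) :
    (A * B).1 0 0 = A.1 0 0 * B.1 0 0 + A.1 0 1 * B.1 1 0 := by
  change (A.1 * B.1) 0 0 = _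
  rw [Matrix.mul_apply, Fin.sum_univ_two]

lemma mul01 (A B : SpecialLinearGroup (Fin 2) R) :
    (A * B).1 0 1 = A.1 0 0 * B.1 0 1 + A.1 0 1 * B.1 1 1 := by
  change (A.1 * B.1) 0 1 = _
  rw [Matrix.mul_apply, Fin.sum_univ_two]

lemma mul10 (A B : SpecialLinearGroup (Fin 2) R) :
    (A * B).1 1 0 = A.1 1 0 * B.1 0 0 + A.1 1 1 * B.1 1 0 := by
  change (A.1 * B.1) 1 0 = _
  rw [Matrix.mul_apply, Fin.sum_univ_two]

lemma mul11 (A B : SpecialLinearGroup (Fin 2) R) :
    (A * B).1 1 1 = A.1 1 0 * B.1 0 1 + A.1 1 1 * B.1 1 1 := by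
  change (A.1 * B.1) 1 1 = _
  rw [Matrix.mul_apply, Fin.sum_univ_two]

@[simp] lemma X00 (t : R) : (X t).1 0 0 = 1 := rfl
@[simp] lemma X01 (t : R) : (X t).1 0 1 = t := rfl
@[simp] lemma X10 (t : R) : (X t).1 1 0 = 0 := rfl
@[simp] lemma X11 (t : R) : (X t).1 1 1 = 1 := rfl
@[simp] lemma Y00 (t : R) : (Y t).1 0 0 = 1 := rfl
@[simp] lemma Y01 (t : R) : (Y t).1 0 1 = 0 := rfl
@[simp] lemma Y10 (t : R) : (Y t).1 1 0 = t := rfl
@[simp] lemma Y11 (t : R) : (Y t).1 1 1 = 1 := rfl

lemma X_add (s t : R) : X (s + t) = X s * X t := by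
  apply ext2 <;> simp only [mul00, mul01, mul10, mul11, X00, X01, X10, X11] <;> ring

lemma Y_add (s t : R) : Y (s + t) = Y s * Y t := by
  apply ext2 <;> simp only [mul00, mul01, mul10, mul11, Y00, Y01, Y10, Y11] <;> ring

/-- The graph of the correspondence between a group with elements `x t`, `y t` and `SL(2, R)`. -/
def Gr (x y : R → S) : Subgroup (S × SpecialLinearGroup (Fin 2) R) :=
  Subgroup.closure ({p | ∃ t, p = (x t, X t)} ∪ {p | ∃ t, p = (y t, Y t)})

lemma x_mem (x y : R → S) (t : R) : (x t, X t) ∈ Gr x y :=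
  Subgroup.subset_closure (Or.inl ⟨t, rfl⟩)

lemma y_mem (x y : R → S) (t : R) : (y t, Y t) ∈ Gr x y :=
  Subgroup.subset_closure (Or.inr ⟨t, rfl⟩)

/-- A group with Steinberg relations which modulo the central subgroup `Z` is a quotient of the
elementary subgroup of `SL(2, R)`. -/
structure Dat (Z : Subgroup S) (x y : R → S) : Prop extends St x y where
  zx : ∀ z ∈ Z, ∀ t, Commute z (x t)
  zy : ∀ z ∈ Z, ∀ t, Commute z (y t)
  gr : ∀ s, (s, (1 : SpecialLinearGroup (Fin 2) R)) ∈ Gr x y → s ∈ Z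

/-- Change of rings. -/
theorem Dat.map {Z : Subgroup S} {x y : R → S} (D : Dat Z x y) (e : R ≃+* R') :
    Dat Z (fun t => x (e.symm t)) (fun t => y (e.symm t)) := by
  have hw : ∀ u : R'ˣ, ww (fun t => x (e.symm t)) (fun t => y (e.symm t)) u =
      ww x y (Units.map e.symm.toMonoidHom u) := by
    intro u
    rw [ww, ww, map_neg]
    rfl
  refine ⟨⟨?_, ?_, ?_, ?_⟩, ?_, ?_, ?_⟩
  · intro s t
    rw [map_add, D.xa]
  · intro s t
    rw [map_add, D.ya]
  · intro u t
    rw [hw, D.wx, map_neg, map_mul, map_pow]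
    rfl
  · intro u t
    rw [hw, D.wy, map_neg, map_mul, map_pow]
    rfl
  · intro z hz t
    exact D.zx z hz _
  · intro z hz t
    exact D.zy z hz _
  · intro s hs
    let J : SpecialLinearGroup (Fin 2) R' →* SpecialLinearGroup (Fin 2) R :=
      SpecialLinearGroup.map e.symm.toRingHom
    have hle : Gr (fun t => x (e.symm t)) (fun t => y (e.symm t)) ≤
        (Gr x y).comap ((MonoidHom.id S).prodMap J) := by
      rw [Gr, Subgroup.closure_le]
      rintro _ (⟨t, rfl⟩ | ⟨t, rfl⟩)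
      · have e1 : J (X t) = X (e.symm t) := by
          apply ext2
          · exact map_one e.symm
          · rfl
          · exact map_zero e.symm
          · exact map_one e.symm
        change (x (e.symm t), J (X t)) ∈ Gr x y
        rw [e1]
        exact x_mem x y _
      · have e1 : J (Y t) = Y (e.symm t) := by
          apply ext2
          · exact map_one e.symm
          · exact map_zero e.symm
          · rfl
          · exact map_one e.symm
        change (y (e.symm t), J (Y t)) ∈ Gr x y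
        rw [e1]
        exact y_mem x y _
    have h1 := hle hs
    apply D.gr
    have h2 : (s, J 1) ∈ Gr x y := h1
    rwa [map_one] at h2

end

section prod

variable {R₁ R₂ S : Type*} [CommRing R₁] [CommRing R₂] [Group S] {Z : Subgroup S}
  {x y : R₁ × R₂ → S}

/-- Embedding of `SL(2, R₁)` in `SL(2, R₁ × R₂)`. -/
def Jl (R₁ R₂ : Type*) [CommRing R₁] [CommRing R₂] :
    SpecialLinearGroup (Fin 2) R₁ →* SpecialLinearGroup (Fin 2) (R₁ × R₂) where
  toFun g := ⟨Matrix.of fun i j => (g.1 i j, (1 : Matrix (Fin 2) (Fin 2) R₂) i j), by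
    have h := g.2
    rw [Matrix.det_fin_two] at h ⊢
    simp only [Matrix.of_apply]
    refine Prod.ext ?_ ?_
    · exact h
    · simp⟩
  map_one' := by
    apply Subtype.ext
    ext i j
    · fin_cases i <;> fin_cases j <;> simp
    · fin_cases i <;> fin_cases j <;> simp
  map_mul' g h := by
    apply ext2
    · refine Eq.trans ?_ (mul00 _ _).symm
      refine Prod.ext (mul00 g h) ?_
      simp
    · refine Eq.trans ?_ (mul01 _ _).symm
      refine Prod.ext (mul01 g h) ?_
      simp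
    · refine Eq.trans ?_ (mul10 _ _).symm
      refine Prod.ext (mul10 g h) ?_
      simp
    · refine Eq.trans ?_ (mul11 _ _).symm
      refine Prod.ext (mul11 g h) ?_
      simp

/-- The commutators of different components vanish. -/
theorem Dat.comm_xy (D : Dat Z x y) {m n : ℕ} (hmn : m.Coprime n) (hm : (m : R₁) = 0)
    (hn : (n : R₂) = 0) (t : R₁) (s : R₂) : Commute (x (t, 0)) (y (0, s)) := by
  have hZ : ∀ (t : R₁) (s : R₂), x (t, 0) * y (0, s) * (x (t, 0))⁻¹ * (y (0, s))⁻¹ ∈ Z := by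
    intro t s
    apply D.gr
    have h1 := (Gr x y).mul_mem ((Gr x y).mul_mem ((Gr x y).mul_mem (x_mem x y (t, 0))
      (y_mem x y (0, s))) ((Gr x y).inv_mem (x_mem x y (t, 0))))
      ((Gr x y).inv_mem (y_mem x y (0, s)))
    have h2 : X ((t, 0) : R₁ × R₂) * Y (0, s) = Y (0, s) * X (t, 0) := by
      apply ext2
      · simp only [mul00, X00, X01, Y00, Y10, Y01, X10]
        ext <;> simp
      · simp only [mul01, X00, X01, Y01, Y11, Y00, X11]
        ext <;> simp
      · simp only [mul10, X10, X11, Y00, Y10, Y11, X00]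
        ext <;> simp
      · simp only [mul11, X10, X11, Y01, Y11, Y10, X01]
        ext <;> simp
    have h3 : X ((t, 0) : R₁ × R₂) * Y (0, s) * (X (t, 0))⁻¹ * (Y (0, s))⁻¹ = 1 := by
      rw [h2]
      group
    have h4 : (x (t, 0) * y (0, s) * (x (t, 0))⁻¹ * (y (0, s))⁻¹,
        X ((t, 0) : R₁ × R₂) * Y (0, s) * (X (t, 0))⁻¹ * (Y (0, s))⁻¹) ∈ Gr x y := h1
    rwa [h3] at h4
  obtain ⟨κ, hκ⟩ : ∃ κ : R₁ → R₂ → S, ∀ t s, κ t s =
      x (t, 0) * y (0, s) * (x (t, 0))⁻¹ * (y (0, s))⁻¹ := ⟨_, fun _ _ => rfl⟩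
  have hcx : ∀ t s r, Commute (κ t s) (x r) := fun t s r => by
    rw [hκ]
    exact D.zx _ (hZ t s) r
  have hcy : ∀ t s r, Commute (κ t s) (y r) := fun t s r => by
    rw [hκ]
    exact D.zy _ (hZ t s) r
  have hadd1 : ∀ t t' s, κ (t + t') s = κ t s * κ t' s := by
    intro t t' s
    have e1 : ((t + t', 0) : R₁ × R₂) = (t, 0) + (t', 0) := by simp
    have e2 : x (t', 0) * y (0, s) * (x (t', 0))⁻¹ = κ t' s * y (0, s) := by
      rw [hκ, inv_mul_cancel_right]
    rw [hκ (t + t'), e1, D.xa]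
    calc x (t, 0) * x (t', 0) * y (0, s) * (x (t, 0) * x (t', 0))⁻¹ * (y (0, s))⁻¹ =
        x (t, 0) * (x (t', 0) * y (0, s) * (x (t', 0))⁻¹) * (x (t, 0))⁻¹ * (y (0, s))⁻¹ := by
          group
      _ = (x (t, 0) * κ t' s) * y (0, s) * (x (t, 0))⁻¹ * (y (0, s))⁻¹ := by
          rw [e2]
          simp only [mul_assoc]
      _ = κ t' s * κ t s := by
          rw [← (hcx t' s (t, 0)).eq, hκ t s]
          simp only [mul_assoc]
      _ = κ t s * κ t' s := by
          have : Commute (κ t' s) (κ t s) := by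
            rw [hκ t s]
            exact (((hcx _ _ _).mul_right (hcy _ _ _)).mul_right
              (hcx _ _ _).inv_right).mul_right (hcy _ _ _).inv_right
          exact this.eq
  have hadd2 : ∀ t s s', κ t (s + s') = κ t s * κ t s' := by
    intro t s s'
    have e1 : ((0, s + s') : R₁ × R₂) = (0, s) + (0, s') := by simp
    have e2 : x (t, 0) * y (0, s) = κ t s * y (0, s) * x (t, 0) := by
      rw [hκ]
      group
    have e3 : x (t, 0) * y (0, s') * (x (t, 0))⁻¹ = κ t s' * y (0, s') := by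
      rw [hκ, inv_mul_cancel_right]
    rw [hκ t (s + s'), e1, D.ya]
    calc x (t, 0) * (y (0, s) * y (0, s')) * (x (t, 0))⁻¹ * (y (0, s) * y (0, s'))⁻¹ =
        (x (t, 0) * y (0, s)) * y (0, s') * (x (t, 0))⁻¹ * (y (0, s'))⁻¹ * (y (0, s))⁻¹ := by
          group
      _ = κ t s * y (0, s) * (x (t, 0) * y (0, s') * (x (t, 0))⁻¹) * (y (0, s'))⁻¹ *
            (y (0, s))⁻¹ := by
          rw [e2]
          simp only [mul_assoc]
      _ = κ t s * (y (0, s) * κ t s') * (y (0, s))⁻¹ := by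
          rw [e3]
          group
      _ = κ t s * κ t s' := by
          rw [← (hcy t s' (0, s)).eq]
          group
  have hz1 : ∀ s, κ 0 s = 1 := by
    intro s
    have h := hadd1 0 0 s
    rw [add_zero] at h
    exact mul_eq_left.1 h.symm
  have hz2 : ∀ t, κ t 0 = 1 := by
    intro t
    have h := hadd2 t 0 0
    rw [add_zero] at h
    exact mul_eq_left.1 h.symm
  have hp1 : ∀ k : ℕ, κ (k * t) s = κ t s ^ k := by
    intro k
    induction k with
    | zero => rw [Nat.cast_zero, zero_mul, hz1, pow_zero]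
    | succ k ih => rw [Nat.cast_succ, add_mul, one_mul, hadd1, ih, pow_succ]
  have hp2 : ∀ k : ℕ, κ t (k * s) = κ t s ^ k := by
    intro k
    induction k with
    | zero => rw [Nat.cast_zero, zero_mul, hz2, pow_zero]
    | succ k ih => rw [Nat.cast_succ, add_mul, one_mul, hadd2, ih, pow_succ]
  have h1 : κ t s ^ m = 1 := by rw [← hp1, hm, zero_mul, hz1]
  have h2 : κ t s ^ n = 1 := by rw [← hp2, hn, zero_mul, hz2]
  have h3 : κ t s = 1 := by
    have := (pow_gcd_eq_one (a := κ t s) (m := m) (n := n)).2 ⟨h1, h2⟩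
    rwa [hmn.gcd_eq_one, pow_one] at this
  rw [hκ] at h3
  have h4 : x (t, 0) * y (0, s) = y (0, s) * x (t, 0) := by
    have : x (t, 0) * y (0, s) =
        (x (t, 0) * y (0, s) * (x (t, 0))⁻¹ * (y (0, s))⁻¹) * (y (0, s) * x (t, 0)) := by group
    rw [this, h3, one_mul]
  exact h4

lemma Dat.comm_yx (D : Dat Z x y) {m n : ℕ} (hmn : m.Coprime n) (hm : (m : R₁) = 0)
    (hn : (n : R₂) = 0) (t : R₁) (s : R₂) : Commute (y (t, 0)) (x (0, s)) := by
  have h := (D.map (RingEquiv.prodComm (R := R₁) (S := R₂))).comm_xy hmn.symm hn hm s t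
  exact h.symm

end prod

end Pool.Agent.H.MP_59b15d_al.R1
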