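/-
Decomposition over the prime powers dividing the level; the prime two; the theorem `w(1)^4 = 1`.
-/
import Pool.Agent.H.MP_59b15d_al.h11r.Gr

set_option autoImplicit false

namespace Pool.Agent.H.MP_59b15d_al.R1

open Matrix

section prod

variable {R₁ R₂ S : Type*} [CommRing R₁] [CommRing R₂] [Group S] {Z : Subgroup S}
  {x y : R₁ × R₂ → S}

/-- A unit of the first factor as a unit of the product. -/
def ul (R₂ : Type*) [CommRing R₂] (u : R₁ˣ) : (R₁ × R₂)ˣ := MulEquiv.prodUnits.symm (u, 1)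

lemma ul_val (u : R₁ˣ) : ((ul R₂ u : (R₁ × R₂)ˣ) : R₁ × R₂) = (↑u, 1) := rfl

lemma ul_inv (u : R₁ˣ) : (↑(ul R₂ u)⁻¹ : R₁ × R₂) = (↑u⁻¹, 1) := by
  have h : (ul R₂ u)⁻¹ = ul R₂ u⁻¹ := by
    rw [inv_eq_iff_mul_eq_one]
    apply Units.ext
    rw [Units.val_mul, ul_val, ul_val, Units.val_one]
    refine Prod.ext ?_ ?_
    · exact Units.mul_inv u
    · exact mul_one 1
  rw [h, ul_val]

/-- The decomposition of `w(u, 1)`. -/
theorem Dat.ww_ul (D : Dat Z x y) {m n : ℕ} (hmn : m.Coprime n) (hm : (m : R₁) = 0)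
    (hn : (n : R₂) = 0) (u : R₁ˣ) :
    ww x y (ul R₂ u) = ww (fun t => x (t, 0)) (fun t => y (t, 0)) u *
      ww (fun t => x (0, t)) (fun t => y (0, t)) 1 := by
  have e1 : (((u : R₁), (1 : R₂)) : R₁ × R₂) = ((u : R₁), (0 : R₂)) + ((0 : R₁), (1 : R₂)) := by
    simp
  have e2 : -(((↑u⁻¹ : R₁), (1 : R₂)) : R₁ × R₂) =
      ((-↑u⁻¹ : R₁), (0 : R₂)) + ((0 : R₁), (-1 : R₂)) := by simp
  have e3 : x ((u : R₁), (1 : R₂)) = x ((u : R₁), (0 : R₂)) * x ((0 : R₁), (1 : R₂)) := by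
    rw [← D.xa, ← e1]
  have e4 : y (-((↑u⁻¹ : R₁), (1 : R₂))) =
      y ((-↑u⁻¹ : R₁), (0 : R₂)) * y ((0 : R₁), (-1 : R₂)) := by rw [← D.ya, ← e2]
  have cxx : Commute (x ((↑u : R₁), (0 : R₂))) (x (0, 1)) := by
    change _ * _ = _ * _
    rw [← D.xa, ← D.xa, add_comm]
  have cyy : Commute (y ((-↑u⁻¹ : R₁), (0 : R₂))) (y (0, -1)) := by
    change _ * _ = _ * _
    rw [← D.ya, ← D.ya, add_comm]
  have cxy : Commute (x ((↑u : R₁), (0 : R₂))) (y (0, -1)) := D.comm_xy hmn hm hn _ _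
  have cyx : Commute (y ((-↑u⁻¹ : R₁), (0 : R₂))) (x (0, 1)) := D.comm_yx hmn hm hn _ _
  unfold ww
  rw [ul_val, ul_inv, e3, e4]
  simp only [inv_one, Units.val_one]
  generalize x ((↑u : R₁), (0 : R₂)) = a at *
  generalize x ((0 : R₁), (1 : R₂)) = b at *
  generalize y ((-↑u⁻¹ : R₁), (0 : R₂)) = c at *
  generalize y ((0 : R₁), (-1 : R₂)) = d at *
  calc a * b * (c * d) * (a * b) = a * (b * c) * (d * a) * b := by simp only [mul_assoc]
    _ = a * c * (b * a) * d * b := by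
        rw [← cyx.eq, ← cxy.eq]
        simp only [mul_assoc]
    _ = a * c * a * (b * d * b) := by
        rw [← cxx.eq]
        simp only [mul_assoc]

/-- The first factor. -/
theorem Dat.left (D : Dat Z x y) {m n : ℕ} (hmn : m.Coprime n) (hm : (m : R₁) = 0)
    (hn : (n : R₂) = 0) : Dat Z (fun t : R₁ => x (t, 0)) (fun t => y (t, 0)) := by
  have hcx : ∀ t : R₁, Commute (ww (fun t => x (0, t)) (fun t => y (0, t)) (1 : R₂ˣ))
      (x (t, 0)) := by
    intro t
    have c1 : ∀ s : R₂, Commute (x (0, s)) (x (t, 0)) := by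
      intro s
      change _ * _ = _ * _
      rw [← D.xa, ← D.xa, add_comm]
    have c2 : ∀ s : R₂, Commute (y (0, s)) (x (t, 0)) := fun s => (D.comm_xy hmn hm hn t s).symm
    exact ((c1 _).mul_left (c2 _)).mul_left (c1 _)
  have hcy : ∀ t : R₁, Commute (ww (fun t => x (0, t)) (fun t => y (0, t)) (1 : R₂ˣ))
      (y (t, 0)) := by
    intro t
    have c1 : ∀ s : R₂, Commute (y (0, s)) (y (t, 0)) := by
      intro s
      change _ * _ = _ * _
      rw [← D.ya, ← D.ya, add_comm]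
    have c2 : ∀ s : R₂, Commute (x (0, s)) (y (t, 0)) := fun s => (D.comm_yx hmn hm hn t s).symm
    exact ((c2 _).mul_left (c1 _)).mul_left (c2 _)
  refine ⟨⟨?_, ?_, ?_, ?_⟩, ?_, ?_, ?_⟩
  · intro s t
    rw [← D.xa]
    congr 1
    simp
  · intro s t
    rw [← D.ya]
    congr 1
    simp
  · intro u t
    have h1 := D.wx (ul R₂ u) (t, 0)
    rw [D.ww_ul hmn hm hn u, mul_assoc, (hcx t).eq, ul_inv] at h1
    have e : -(((↑u⁻¹, 1) : R₁ × R₂) ^ 2 * (t, 0)) = (-((↑u⁻¹ : R₁) ^ 2 * t), 0) := by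
      ext <;> simp
    rw [e, ← mul_assoc, ← mul_assoc] at h1
    exact mul_right_cancel h1
  · intro u t
    have h1 := D.wy (ul R₂ u) (t, 0)
    rw [D.ww_ul hmn hm hn u, mul_assoc, (hcy t).eq, ul_val] at h1
    have e : -(((↑u, 1) : R₁ × R₂) ^ 2 * (t, 0)) = (-((↑u : R₁) ^ 2 * t), 0) := by
      ext <;> simp
    rw [e, ← mul_assoc, ← mul_assoc] at h1
    exact mul_right_cancel h1
  · intro z hz t
    exact D.zx z hz _
  · intro z hz t
    exact D.zy z hz _
  · intro s hs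
    have hle : Gr (fun t : R₁ => x (t, 0)) (fun t => y (t, 0)) ≤
        (Gr x y).comap ((MonoidHom.id S).prodMap (Jl R₁ R₂)) := by
      rw [Gr, Subgroup.closure_le]
      rintro _ (⟨t, rfl⟩ | ⟨t, rfl⟩)
      · have e1 : Jl R₁ R₂ (X t) = X (t, 0) := by
          apply ext2 <;> rfl
        change (x (t, 0), Jl R₁ R₂ (X t)) ∈ Gr x y
        rw [e1]
        exact x_mem x y _
      · have e1 : Jl R₁ R₂ (Y t) = Y (t, 0) := by
          apply ext2 <;> rfl
        change (y (t, 0), Jl R₁ R₂ (Y t)) ∈ Gr x y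
        rw [e1]
        exact y_mem x y _
    have h1 := hle hs
    apply D.gr
    have h2 : (s, Jl R₁ R₂ 1) ∈ Gr x y := h1
    rwa [map_one] at h2

theorem Dat.right (D : Dat Z x y) {m n : ℕ} (hmn : m.Coprime n) (hm : (m : R₁) = 0)
    (hn : (n : R₂) = 0) : Dat Z (fun t : R₂ => x (0, t)) (fun t => y (0, t)) :=
  (D.map (RingEquiv.prodComm (R := R₁) (S := R₂))).left hmn.symm hn hm

/-- The product formula. -/
theorem Dat.ww_prod (D : Dat Z x y) {m n N : ℕ} (hmn : m.Coprime n) (hm : (m : R₁) = 0)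
    (hn : (n : R₂) = 0)
    (h1 : ww (fun t : R₁ => x (t, 0)) (fun t => y (t, 0)) 1 ^ N = 1)
    (h2 : ww (fun t : R₂ => x (0, t)) (fun t => y (0, t)) 1 ^ N = 1) : ww x y 1 ^ N = 1 := by
  have e : (1 : (R₁ × R₂)ˣ) = ul R₂ 1 := by
    apply Units.ext
    rw [ul_val]
    rfl
  have hc : Commute (ww (fun t : R₁ => x (t, 0)) (fun t => y (t, 0)) 1)
      (ww (fun t : R₂ => x (0, t)) (fun t => y (0, t)) 1) := by
    have cxx : ∀ (t : R₁) (s : R₂), Commute (x (t, 0)) (x (0, s)) := by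
      intro t s
      change _ * _ = _ * _
      rw [← D.xa, ← D.xa, add_comm]
    have cyy : ∀ (t : R₁) (s : R₂), Commute (y (t, 0)) (y (0, s)) := by
      intro t s
      change _ * _ = _ * _
      rw [← D.ya, ← D.ya, add_comm]
    have cxy := fun t s => D.comm_xy hmn hm hn t s
    have cyx := fun t s => D.comm_yx hmn hm hn t s
    have c1 : ∀ t : R₁, Commute (x (t, 0)) (ww (fun t : R₂ => x (0, t)) (fun t => y (0, t)) 1) :=
      fun t => ((cxx _ _).mul_right (cxy _ _)).mul_right (cxx _ _)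
    have c2 : ∀ t : R₁, Commute (y (t, 0)) (ww (fun t : R₂ => x (0, t)) (fun t => y (0, t)) 1) :=
      fun t => ((cyx _ _).mul_right (cyy _ _)).mul_right (cyx _ _)
    exact ((c1 _).mul_left (c2 _)).mul_left (c1 _)
  rw [e, D.ww_ul hmn hm hn 1, hc.mul_pow, h1, h2, mul_one]

end prod

section two

variable {S : Type*} [Group S] {Z : Subgroup S}

/-- The exponent of `SL(2, Z / 2^j)`. -/
lemma exp_two (j : ℕ) (A : SpecialLinearGroup (Fin 2) (ZMod (2 ^ j))) : A ^ (6 * 2 ^ j) = 1 := by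
  rcases Nat.eq_zero_or_pos j with hj | hj
  · subst hj
    have : Subsingleton (ZMod (2 ^ 0)) := by
      rw [pow_zero]
      infer_instance
    apply ext2 <;> exact Subsingleton.elim _ _
  have hd : 2 ∣ 2 ^ j := dvd_pow_self 2 hj.ne'
  let φ : ZMod (2 ^ j) →+* ZMod 2 := ZMod.castHom hd (ZMod 2)
  have hker : ∀ r : ZMod (2 ^ j), φ r = 0 → ∃ s, r = 2 * s := by
    intro r hr
    have h1 : (r.val : ZMod 2) = 0 := by
      have : φ ((r.val : ℕ) : ZMod (2 ^ j)) = 0 := by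
        rw [ZMod.natCast_zmod_val]
        exact hr
      rwa [map_natCast] at this
    rw [ZMod.natCast_eq_zero_iff] at h1
    obtain ⟨k, hk⟩ := h1
    refine ⟨(k : ZMod (2 ^ j)), ?_⟩
    rw [← ZMod.natCast_zmod_val r, hk]
    push_cast
    ring
  have hsix : ∀ B : SpecialLinearGroup (Fin 2) (ZMod 2), B ^ 6 = 1 := by
    decide +revert
  have h6 : SpecialLinearGroup.map φ (A ^ 6) = 1 := by
    rw [map_pow]
    exact hsix _
  -- congruence modulo `2^(i+1)`
  have key : ∀ i : ℕ, ∃ N : Matrix (Fin 2) (Fin 2) (ZMod (2 ^ j)),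
      ((A ^ 6) ^ 2 ^ i).1 = 1 + (2 : ZMod (2 ^ j)) ^ (i + 1) • N := by
    intro i
    induction i with
    | zero =>
      have h7 : ∀ a b : Fin 2, ∃ s : ZMod (2 ^ j), (A ^ 6).1 a b =
          (1 : Matrix (Fin 2) (Fin 2) (ZMod (2 ^ j))) a b + 2 * s := by
        intro a b
        have h8 : φ ((A ^ 6).1 a b) = (1 : Matrix (Fin 2) (Fin 2) (ZMod 2)) a b := by
          have := congrArg (fun B : SpecialLinearGroup (Fin 2) (ZMod 2) => B.1 a b) h6
          exact this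
        have h9 : φ ((A ^ 6).1 a b - (1 : Matrix (Fin 2) (Fin 2) (ZMod (2 ^ j))) a b) = 0 := by
          rw [map_sub, h8, sub_eq_zero, Matrix.one_apply, Matrix.one_apply]
          split_ifs
          · rw [map_one]
          · rw [map_zero]
        obtain ⟨s, hs⟩ := hker _ h9
        exact ⟨s, by rw [← hs]; ring⟩
      choose N hN using h7
      refine ⟨Matrix.of N, ?_⟩
      ext a b
      rw [pow_zero, pow_one, hN a b, Matrix.add_apply, Matrix.smul_apply, zero_add, pow_one]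
      rfl
    | succ i ih =>
      obtain ⟨N, hN⟩ := ih
      refine ⟨N + (2 : ZMod (2 ^ j)) ^ i • (N * N), ?_⟩
      have e : ((A ^ 6) ^ 2 ^ (i + 1)).1 = ((A ^ 6) ^ 2 ^ i).1 * ((A ^ 6) ^ 2 ^ i).1 := by
        have : (A ^ 6) ^ 2 ^ (i + 1) = (A ^ 6) ^ 2 ^ i * (A ^ 6) ^ 2 ^ i := by
          rw [← pow_add]
          congr 1
          ring
        rw [this]
        rfl
      rw [e, hN]
      simp only [mul_add, add_mul, one_mul, mul_one, smul_mul_assoc, mul_smul_comm, smul_add,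
        smul_smul]
      have e1 : (2 : ZMod (2 ^ j)) ^ (i + 1 + 1) * 2 ^ i = 2 ^ (i + 1) * 2 ^ (i + 1) := by ring
      have e2 : (2 : ZMod (2 ^ j)) ^ (i + 1 + 1) = 2 ^ (i + 1) + 2 ^ (i + 1) := by ring
      rw [e1, e2, add_smul]
      abel
  obtain ⟨N, hN⟩ := key j
  rw [pow_mul]
  apply Subtype.ext
  rw [hN]
  have h0 : (2 : ZMod (2 ^ j)) ^ j = 0 := by
    have := ZMod.natCast_self (2 ^ j)
    push_cast at this
    exact this
  rw [pow_succ, h0, zero_mul, zero_smul, add_zero]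
  rfl

end two

end Pool.Agent.H.MP_59b15d_al.R1
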