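/-
The prime two by transfer, and the theorem `w(1)^4 = 1` for every level.
-/
import Pool.Agent.H.MP_59b15d_al.h11r.Ns
import Pool.Agent.H.MP_59b15d_al.h11r.Two

set_option autoImplicit false

namespace Pool.Agent.H.MP_59b15d_al.R1

open Matrix

section

variable {S : Type*} [Group S] {Z : Subgroup S} {p : ℕ}

/-- A power of `p` and a number prime to `p`. -/
lemma eq_one_of_pow (hp : p.Prime) {z : S} (h1 : ∃ k, z ^ p ^ k = 1) {m : ℕ} (h2 : z ^ m = 1)
    (hm : ¬ p ∣ m) : z = 1 := by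
  obtain ⟨k, hk⟩ := h1
  have h3 := (pow_gcd_eq_one (a := z) (m := p ^ k) (n := m)).2 ⟨hk, h2⟩
  have h4 : (p ^ k).gcd m = 1 := Nat.Coprime.pow_left k ((Nat.Prime.coprime_iff_not_dvd hp).2 hm)
  rwa [h4, pow_one] at h3

/-- The elements of the graph in the group generated by the `x t`, `y t`. -/
theorem Dat.two {j : ℕ} {x y : ZMod (2 ^ j) → S} (D : Dat Z x y) (hp : p.Prime) (hp5 : 5 ≤ p)
    (hZ : ∀ z ∈ Z, ∃ k, z ^ p ^ k = 1) : ww x y 1 ^ 4 = 1 := by
  classical
  have hne : NeZero (2 ^ j) := ⟨pow_ne_zero j two_ne_zero⟩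
  have hpN : ¬ p ∣ 6 * 2 ^ j := by
    intro h
    rcases (Nat.Prime.dvd_mul hp).1 h with h | h
    · have h6 : p ≤ 6 := Nat.le_of_dvd (by norm_num) h
      interval_cases p
      · omega
      · exact absurd hp (by decide)
    · have := hp.dvd_of_dvd_pow h
      have := Nat.le_of_dvd (by norm_num) this
      omega
  let T : Subgroup S := (Gr x y).map (MonoidHom.fst S _)
  let π : Gr x y →* T := (MonoidHom.fst S (SpecialLinearGroup (Fin 2) (ZMod (2 ^ j)))).subgroupMap
    (Gr x y)
  have hπ : Function.Surjective π := MonoidHom.subgroupMap_surjective _ _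
  let ρ : Gr x y →* SpecialLinearGroup (Fin 2) (ZMod (2 ^ j)) :=
    (MonoidHom.snd S _).comp (Gr x y).subtype
  -- elements of `Z` in `T` are central
  have hcen : ∀ s : T, (s : S) ∈ Z → s ∈ Subgroup.center T := by
    intro s hs
    rw [Subgroup.mem_center_iff]
    intro t
    apply Subtype.ext
    obtain ⟨g, hg, hgt⟩ := Subgroup.mem_map.1 t.2
    have h1 : ∀ g ∈ Gr x y, Commute (s : S) g.1 := by
      intro g hg
      have hle : Gr x y ≤ (Subgroup.centralizer {(s : S)}).comap (MonoidHom.fst S _) := by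
        rw [Gr, Subgroup.closure_le]
        rintro _ (⟨r, rfl⟩ | ⟨r, rfl⟩)
        · exact Subgroup.mem_centralizer_singleton_iff.2 (D.zx _ hs r).symm.eq
        · exact Subgroup.mem_centralizer_singleton_iff.2 (D.zy _ hs r).symm.eq
      exact (Subgroup.mem_centralizer_singleton_iff.1 (hle hg)).symm
    have h2 := (h1 g hg).eq
    have h3 : g.1 = (t : S) := hgt
    rw [h3] at h2
    exact h2.symm
  have hker : (ρ.ker).map π ≤ Subgroup.center T := by
    rintro _ ⟨g, hg, rfl⟩
    apply hcen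
    have h1 : (g : S × SpecialLinearGroup (Fin 2) (ZMod (2 ^ j))).2 = 1 := hg
    apply D.gr
    have h2 := g.2
    have h3 : (g : S × SpecialLinearGroup (Fin 2) (ZMod (2 ^ j))) =
        ((g : S × SpecialLinearGroup (Fin 2) (ZMod (2 ^ j))).1, 1) := Prod.ext rfl h1
    rw [h3] at h2
    exact h2
  have hfin : (Subgroup.center T).FiniteIndex := by
    have h1 : ρ.ker.FiniteIndex := Subgroup.finiteIndex_ker ρ
    have h2 : ((ρ.ker).map π).FiniteIndex := by
      refine ⟨?_⟩
      intro h0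
      have h3 := Subgroup.index_map_dvd (H := ρ.ker) hπ
      rw [h0] at h3
      exact h1.index_ne_zero (Nat.eq_zero_of_zero_dvd h3)
    exact Subgroup.finiteIndex_of_le hker
  -- `p` does not divide the index
  have hind : ¬ p ∣ (Subgroup.center T).index := by
    intro hdvd
    have hpf : Fact p.Prime := ⟨hp⟩
    rw [Subgroup.index, ] at hdvd
    obtain ⟨q, hq⟩ := exists_prime_orderOf_dvd_card' (G := T ⧸ Subgroup.center T) p hdvd
    obtain ⟨t, rfl⟩ := QuotientGroup.mk_surjective q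
    obtain ⟨g, rfl⟩ := hπ t
    have h1 : (π g) ^ (6 * 2 ^ j) ∈ Subgroup.center T := by
      apply hker
      refine ⟨g ^ (6 * 2 ^ j), ?_, map_pow π g _⟩
      change ρ (g ^ (6 * 2 ^ j)) = 1
      rw [map_pow]
      exact exp_two j _
    have h2 : ((π g : T) : T ⧸ Subgroup.center T) ^ (6 * 2 ^ j) = 1 := by
      rw [← QuotientGroup.mk_pow]
      exact (QuotientGroup.eq_one_iff _).2 h1
    have h3 := orderOf_dvd_of_pow_eq_one h2
    rw [hq] at h3
    exact hpN h3
  -- the elements
  obtain ⟨a, ha⟩ : ∃ a : T, (a : S) = x 1 := ⟨π ⟨_, x_mem x y 1⟩, rfl⟩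
  obtain ⟨b, hb⟩ : ∃ b : T, (b : S) = y (-1) := ⟨π ⟨_, y_mem x y (-1)⟩, rfl⟩
  have hw : ((a * b * a : T) : S) = ww x y 1 := by
    rw [ww, inv_one, Units.val_one, Subgroup.coe_mul, Subgroup.coe_mul, ha, hb]
  have hbr : a * b * a = b * a * b := by
    apply Subtype.ext
    rw [hw, D.ww_alt, inv_one, Units.val_one, Subgroup.coe_mul, Subgroup.coe_mul, ha, hb]
  obtain ⟨w, hwd⟩ : ∃ w : T, w = a * b * a := ⟨_, rfl⟩
  let V := MonoidHom.transferCenterPow T
  have hcomm : ∀ u v : Subgroup.center T, u * v = v * u := fun u v =>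
    Subtype.ext ((Subgroup.mem_center_iff.1 v.2 u.1))
  have hVab : V a = V b := by
    have h1 : V a * V b * V a = V b * V a * V b := by
      have h0 := congrArg V hbr
      rwa [map_mul, map_mul, map_mul, map_mul] at h0
    have h2 : V b * V a * V b = V a * V b * V b := by rw [hcomm (V b) (V a)]
    rw [h2] at h1
    exact mul_left_cancel h1
  have hVw : V (w ^ 4) = V a ^ 12 := by
    have h0 : V a * V a * V a = V a ^ 3 := by rw [pow_succ, pow_succ, pow_one]
    rw [map_pow, hwd, map_mul, map_mul, ← hVab, h0, ← pow_mul]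
  have ha0 : a ^ 2 ^ j = 1 := by
    apply Subtype.ext
    have h1 : ∀ k : ℕ, x (k : ZMod (2 ^ j)) = x 1 ^ k := by
      intro k
      induction k with
      | zero => rw [Nat.cast_zero, D.x0, pow_zero]
      | succ k ih => rw [Nat.cast_succ, D.xa, ih, pow_succ]
    have h2 := h1 (2 ^ j)
    rw [ZMod.natCast_self, D.x0] at h2
    rw [Subgroup.coe_pow, ha, ← h2]
    rfl
  have hw4 : ((w ^ 4 : T) : S) ∈ Z := by
    apply D.gr
    have h1 : (((w ^ 4 : T) : S), (X 1 * Y (-1) * X 1 : SpecialLinearGroup (Fin 2)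
        (ZMod (2 ^ j))) ^ 4) ∈ Gr x y := by
      have h2 := (Gr x y).pow_mem ((Gr x y).mul_mem ((Gr x y).mul_mem (x_mem x y 1)
        (y_mem x y (-1))) (x_mem x y 1)) 4
      rw [Subgroup.coe_pow, hwd, Subgroup.coe_mul, Subgroup.coe_mul, ha, hb]
      exact h2
    have h3 : (X 1 * Y (-1) * X 1 : SpecialLinearGroup (Fin 2) (ZMod (2 ^ j))) ^ 4 = 1 := by
      have h4 : (X 1 * Y (-1) * X 1 : SpecialLinearGroup (Fin 2) (ZMod (2 ^ j))) ^ 2 = -1 := by
        rw [pow_two]
        apply ext2 <;>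
        simp only [mul00, mul01, mul10, mul11, X00, X01, X10, X11, Y00, Y01, Y10, Y11,
          SpecialLinearGroup.coe_neg, Matrix.neg_apply] <;> norm_num
      have h5 : (X 1 * Y (-1) * X 1 : SpecialLinearGroup (Fin 2) (ZMod (2 ^ j))) ^ 4 =
          ((X 1 * Y (-1) * X 1 : SpecialLinearGroup (Fin 2) (ZMod (2 ^ j))) ^ 2) ^ 2 := by
        rw [← pow_mul]
      rw [h5, h4]
      simp
    rw [h3] at h1
    exact h1
  have hfinal : (w ^ 4 : T) ^ ((Subgroup.center T).index * 2 ^ j) = 1 := by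
    have h1 : ((V (w ^ 4) : Subgroup.center T) : T) = (w ^ 4) ^ (Subgroup.center T).index :=
      MonoidHom.transferCenterPow_apply _
    have h2 : ((V a : Subgroup.center T) : T) = a ^ (Subgroup.center T).index :=
      MonoidHom.transferCenterPow_apply _
    rw [pow_mul, ← h1, hVw, Subgroup.coe_pow, h2, ← pow_mul, ← pow_mul]
    have e : (Subgroup.center T).index * (12 * 2 ^ j) =
        2 ^ j * ((Subgroup.center T).index * 12) := by
      ring
    rw [e, pow_mul, ha0, one_pow]
  have h1 : ((w ^ 4 : T) : S) = 1 := by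
    refine eq_one_of_pow hp (hZ _ hw4) (m := (Subgroup.center T).index * 2 ^ j) ?_ ?_
    · have := congrArg Subtype.val hfinal
      exact this
    · intro h
      rcases (Nat.Prime.dvd_mul hp).1 h with h | h
      · exact hind h
      · exact hpN (h.mul_left 6)
  have h2 : ((w ^ 4 : T) : S) = ww x y 1 ^ 4 := by
    rw [Subgroup.coe_pow, hwd, hw]
  rw [← h2, h1]

/-- **The theorem for every level.** -/
theorem Dat.ww_four (hp : p.Prime) (hp5 : 5 ≤ p) (hZ : ∀ z ∈ Z, ∃ k, z ^ p ^ k = 1) :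
    ∀ (M : ℕ), M ≠ 0 → ∀ (x y : ZMod M → S), Dat Z x y → ww x y 1 ^ 4 = 1 := by
  intro M
  induction M using Nat.recOnPrimeCoprime with
  | zero => exact fun h => absurd rfl h
  | prime_pow q j hq =>
    intro _ x y D
    by_cases h2 : q = 2
    · subst h2
      exact D.two hp hp5 hZ
    · have : Fact q.Prime := ⟨hq⟩
      exact St.ww_four_odd h2 D.toSt
  | coprime m n hm hn hmn ih1 ih2 =>
    intro _ x y D
    let e : ZMod (m * n) ≃+* ZMod m × ZMod n := ZMod.chineseRemainder hmn
    have D' := D.map e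
    have hm0 : ((m : ℕ) : ZMod m) = 0 := ZMod.natCast_self m
    have hn0 : ((n : ℕ) : ZMod n) = 0 := ZMod.natCast_self n
    have h1 := ih1 (by omega) _ _ (D'.left hmn hm0 hn0)
    have h2 := ih2 (by omega) _ _ (D'.right hmn hm0 hn0)
    have h3 := D'.ww_prod hmn hm0 hn0 h1 h2
    have h4 : ww (fun t => x (e.symm t)) (fun t => y (e.symm t)) 1 = ww x y 1 := by
      rw [ww, ww, inv_one, inv_one, Units.val_one, Units.val_one, map_neg, map_one]
    rwa [h4] at h3

end

end Pool.Agent.H.MP_59b15d_al.R1
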