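/-
Rank one: two elements `A`, `B` with the braid relation and `(A * B) ^ 6 = 1`, such that every word
in `A`, `B` with trivial value in `SL(2, ZMod M)` lies in a subgroup `Z` commuting with `A` and `B`
whose elements have order a power of a prime `p ≥ 5`. Then `A ^ M = 1`, and a word with value
`diag(u, u⁻¹)` conjugates `A` to the power `A ^ (u ^ 2)` exactly.
-/
import Pool.Agent.H.MP_59b15d_al.h11r.Tr

set_option autoImplicit false
set_option linter.unusedSimpArgs false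

namespace Pool.Agent.H.MP_59b15d_al.R1

open Matrix

section mat

variable {R : Type*} [CommRing R]

/-- Diagonal matrices. -/
def Dg (u : Rˣ) : SpecialLinearGroup (Fin 2) R :=
  ⟨!![(u : R), 0; 0, (↑u⁻¹ : R)], by simp [Matrix.det_fin_two]⟩

@[simp] lemma Dg00 (u : Rˣ) : (Dg u).1 0 0 = (u : R) := rfl
@[simp] lemma Dg01 (u : Rˣ) : (Dg u).1 0 1 = (0 : R) := rfl
@[simp] lemma Dg10 (u : Rˣ) : (Dg u).1 1 0 = (0 : R) := rfl
@[simp] lemma Dg11 (u : Rˣ) : (Dg u).1 1 1 = (↑u⁻¹ : R) := rfl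

lemma X_zero : X (0 : R) = 1 := by
  apply ext2 <;> simp [X]

lemma Y_zero : Y (0 : R) = 1 := by
  apply ext2 <;> simp [Y]

lemma X_pow (n : ℕ) : X (1 : R) ^ n = X (n : R) := by
  induction n with
  | zero => rw [pow_zero, Nat.cast_zero, X_zero]
  | succ n ih => rw [pow_succ, ih, Nat.cast_succ, X_add]

lemma Y_pow (n : ℕ) : Y (-1 : R) ^ n = Y (-(n : R)) := by
  induction n with
  | zero => rw [pow_zero, Nat.cast_zero, neg_zero, Y_zero]
  | succ n ih => rw [pow_succ, ih, Nat.cast_succ, neg_add, Y_add]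

/-- The matrix of `w(u)`. -/
def Wm (u : Rˣ) : SpecialLinearGroup (Fin 2) R := X (u : R) * Y (-(↑u⁻¹ : R)) * X (u : R)

lemma Wm_left (u : Rˣ) : Wm u = Dg u * Wm 1 := by
  have h : (u : R) * ↑u⁻¹ = 1 := Units.mul_inv u
  apply ext2
  · simp only [Wm, mul00, mul01, mul10, mul11, X00, X01, X10, X11, Y00, Y01, Y10, Y11, Dg00, Dg01,
      Dg10, Dg11, Units.val_one, inv_one]
    linear_combination (-1 : R) * h
  · simp only [Wm, mul00, mul01, mul10, mul11, X00, X01, X10, X11, Y00, Y01, Y10, Y11, Dg00, Dg01,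
      Dg10, Dg11, Units.val_one, inv_one]
    linear_combination (-u : R) * h
  · simp only [Wm, mul00, mul01, mul10, mul11, X00, X01, X10, X11, Y00, Y01, Y10, Y11, Dg00, Dg01,
      Dg10, Dg11, Units.val_one, inv_one]
    ring
  · simp only [Wm, mul00, mul01, mul10, mul11, X00, X01, X10, X11, Y00, Y01, Y10, Y11, Dg00, Dg01,
      Dg10, Dg11, Units.val_one, inv_one]
    linear_combination (-1 : R) * h

lemma Wm_right (u : Rˣ) : Wm u = Wm 1 * Dg u⁻¹ := by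
  have h : (u : R) * ↑u⁻¹ = 1 := Units.mul_inv u
  apply ext2
  · simp only [Wm, mul00, mul01, mul10, mul11, X00, X01, X10, X11, Y00, Y01, Y10, Y11, Dg00, Dg01,
      Dg10, Dg11, Units.val_one, inv_one, inv_inv]
    linear_combination (-1 : R) * h
  · simp only [Wm, mul00, mul01, mul10, mul11, X00, X01, X10, X11, Y00, Y01, Y10, Y11, Dg00, Dg01,
      Dg10, Dg11, Units.val_one, inv_one, inv_inv]
    linear_combination (-u : R) * h
  · simp only [Wm, mul00, mul01, mul10, mul11, X00, X01, X10, X11, Y00, Y01, Y10, Y11, Dg00, Dg01,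
      Dg10, Dg11, Units.val_one, inv_one, inv_inv]
    ring
  · simp only [Wm, mul00, mul01, mul10, mul11, X00, X01, X10, X11, Y00, Y01, Y10, Y11, Dg00, Dg01,
      Dg10, Dg11, Units.val_one, inv_one, inv_inv]
    linear_combination (-1 : R) * h

lemma Dg_comm (u v : Rˣ) : Dg u * Dg v = Dg v * Dg u := by
  apply ext2 <;> simp only [mul00, mul01, mul10, mul11, Dg00, Dg01, Dg10, Dg11] <;> ring

lemma Dg_X (u : Rˣ) (t : R) : Dg u * X t = X ((u : R) ^ 2 * t) * Dg u := by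
  have h : (u : R) * ↑u⁻¹ = 1 := Units.mul_inv u
  apply ext2
  · simp only [mul00, mul01, mul10, mul11, Dg00, Dg01, Dg10, Dg11, X00, X01, X10, X11]
    ring
  · simp only [mul00, mul01, mul10, mul11, Dg00, Dg01, Dg10, Dg11, X00, X01, X10, X11]
    linear_combination (-(u : R) * t) * h
  · simp only [mul00, mul01, mul10, mul11, Dg00, Dg01, Dg10, Dg11, X00, X01, X10, X11]
    ring
  · simp only [mul00, mul01, mul10, mul11, Dg00, Dg01, Dg10, Dg11, X00, X01, X10, X11]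
    ring

lemma Dg_Y (u : Rˣ) (t : R) : Dg u * Y t = Y ((↑u⁻¹ : R) ^ 2 * t) * Dg u := by
  have h : (u : R) * ↑u⁻¹ = 1 := Units.mul_inv u
  apply ext2
  · simp only [mul00, mul01, mul10, mul11, Dg00, Dg01, Dg10, Dg11, Y00, Y01, Y10, Y11]
    ring
  · simp only [mul00, mul01, mul10, mul11, Dg00, Dg01, Dg10, Dg11, Y00, Y01, Y10, Y11]
    ring
  · simp only [mul00, mul01, mul10, mul11, Dg00, Dg01, Dg10, Dg11, Y00, Y01, Y10, Y11]
    linear_combination (-(↑u⁻¹ : R) * t) * h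
  · simp only [mul00, mul01, mul10, mul11, Dg00, Dg01, Dg10, Dg11, Y00, Y01, Y10, Y11]
    ring

end mat

section

variable {S : Type*} [Group S] {Z : Subgroup S} {M p : ℕ}
  {G : Subgroup (S × SpecialLinearGroup (Fin 2) (ZMod M))} {A B : S}

/-- A correspondence between a group and `SL(2, ZMod M)` with a central subgroup as kernel. -/
structure Gd (Z : Subgroup S) (G : Subgroup (S × SpecialLinearGroup (Fin 2) (ZMod M))) (A B : S) :
    Prop where
  ker : ∀ s, (s, (1 : SpecialLinearGroup (Fin 2) (ZMod M))) ∈ G → s ∈ Z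
  inc : ∀ z ∈ Z, (z, (1 : SpecialLinearGroup (Fin 2) (ZMod M))) ∈ G
  com : ∀ z ∈ Z, ∀ g ∈ G, Commute z g.1
  hA : (A, X 1) ∈ G
  hB : (B, Y (-1)) ∈ G
  br : A * B * A = B * A * B

namespace Gd

lemma eq_mul (H : Gd Z G A B) {s s' : S} {W W' : SpecialLinearGroup (Fin 2) (ZMod M)}
    (h : (s, W) ∈ G) (h' : (s', W') ∈ G) (hW : W = W') : ∃ z ∈ Z, s = z * s' := by
  subst hW
  refine ⟨s * s'⁻¹, H.ker _ ?_, by group⟩
  have h1 := G.mul_mem h (G.inv_mem h')
  have h2 : (s * s'⁻¹, W * W⁻¹) ∈ G := h1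
  rwa [mul_inv_cancel] at h2

lemma powA (H : Gd Z G A B) (n : ℕ) : (A ^ n, X (n : ZMod M)) ∈ G := by
  have h := G.pow_mem H.hA n
  have h2 : (A ^ n, X (1 : ZMod M) ^ n) ∈ G := h
  rwa [X_pow] at h2

lemma powB (H : Gd Z G A B) (n : ℕ) : (B ^ n, Y (-(n : ZMod M))) ∈ G := by
  have h := G.pow_mem H.hB n
  have h2 : (B ^ n, Y (-1 : ZMod M) ^ n) ∈ G := h
  rwa [Y_pow] at h2

lemma xA (H : Gd Z G A B) [NeZero M] (t : ZMod M) : (A ^ t.val, X t) ∈ G := by
  have h := H.powA t.val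
  rwa [ZMod.natCast_zmod_val] at h

lemma yB (H : Gd Z G A B) [NeZero M] (t : ZMod M) : (B ^ (-t).val, Y t) ∈ G := by
  have h := H.powB (-t).val
  rwa [ZMod.natCast_zmod_val, neg_neg] at h

lemma wG (H : Gd Z G A B) [NeZero M] (u : (ZMod M)ˣ) :
    (ww (fun t : ZMod M => A ^ t.val) (fun t : ZMod M => B ^ (-t).val) u, Wm u) ∈ G :=
  G.mul_mem (G.mul_mem (H.xA (u : ZMod M)) (H.yB (-(↑u⁻¹ : ZMod M)))) (H.xA (u : ZMod M))

lemma exists_torus (H : Gd Z G A B) [NeZero M] (u : (ZMod M)ˣ) : ∃ h, (h, Dg u) ∈ G := by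
  refine ⟨ww (fun t : ZMod M => A ^ t.val) (fun t : ZMod M => B ^ (-t).val) u *
    (ww (fun t : ZMod M => A ^ t.val) (fun t : ZMod M => B ^ (-t).val) 1)⁻¹, ?_⟩
  have h1 := G.mul_mem (H.wG u) (G.inv_mem (H.wG 1))
  have h2 : (ww (fun t : ZMod M => A ^ t.val) (fun t : ZMod M => B ^ (-t).val) u *
    (ww (fun t : ZMod M => A ^ t.val) (fun t : ZMod M => B ^ (-t).val) 1)⁻¹,
    Wm u * (Wm (1 : (ZMod M)ˣ))⁻¹) ∈ G := h1
  rwa [Wm_left u, mul_inv_cancel_right] at h2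

/-- A torus element multiplies `A` to a power up to `Z`. -/
lemma torusA (H : Gd Z G A B) {g : S} {u : (ZMod M)ˣ} (hg : (g, Dg u) ∈ G) {k : ℕ}
    (hk : (k : ZMod M) = (u : ZMod M) ^ 2) : ∃ z ∈ Z, g * A * g⁻¹ = z * A ^ k := by
  have h1 : (g * A * g⁻¹, Dg u * X 1 * (Dg u)⁻¹) ∈ G :=
    G.mul_mem (G.mul_mem hg H.hA) (G.inv_mem hg)
  refine H.eq_mul h1 (H.powA k) ?_
  rw [Dg_X, mul_inv_cancel_right, mul_one, hk]

/-- Exactness of the power relation for all torus elements from one of them. -/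
theorem torus_exact (H : Gd Z G A B) (hp : p.Prime) (hZ : ∀ z ∈ Z, ∃ k, z ^ p ^ k = 1) {L : ℕ}
    (hL : 1 ≤ L) (hpL : ¬ p ∣ L ^ 2 - 1) {l : (ZMod M)ˣ} {h : S} (hh : (h, Dg l) ∈ G)
    (hA : h * A * h⁻¹ = A ^ (L ^ 2)) {g : S} {u : (ZMod M)ˣ} (hg : (g, Dg u) ∈ G) {k : ℕ}
    (hk : (k : ZMod M) = (u : ZMod M) ^ 2) : g * A * g⁻¹ = A ^ k := by
  obtain ⟨ζ, hζ, h1⟩ := H.torusA hg hk
  obtain ⟨c, hc, h2⟩ := H.eq_mul (G.mul_mem hg hh) (G.mul_mem hh hg) (Dg_comm u l)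
  have hc1 : ∀ s W, (s, W) ∈ G → Commute c s := fun s W hs => H.com c hc _ hs
  have hζ1 : ∀ s W, (s, W) ∈ G → Commute ζ s := fun s W hs => H.com ζ hζ _ hs
  have e1 : h * (g * A * g⁻¹) * h⁻¹ = ζ * A ^ (L ^ 2 * k) := by
    rw [h1, pow_mul, ← hA]
    rw [← mul_assoc, ← (hζ1 _ _ hh).eq, conj_pow]
    simp only [mul_assoc]
  have e2 : h * (g * A * g⁻¹) * h⁻¹ = ζ ^ (L ^ 2) * A ^ (L ^ 2 * k) := by
    have e3 : h * (g * A * g⁻¹) * h⁻¹ = g * (h * A * h⁻¹) * g⁻¹ := by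
      have e4 : h * g = c⁻¹ * (g * h) := by
        change g * h = c * (h * g) at h2
        rw [h2, inv_mul_cancel_left]
      have e5 : Commute c (g * h * A * (g * h)⁻¹) := by
        refine hc1 _ (Dg u * Dg l * X 1 * (Dg u * Dg l)⁻¹) ?_
        exact G.mul_mem (G.mul_mem (G.mul_mem hg hh) H.hA) (G.inv_mem (G.mul_mem hg hh))
      calc h * (g * A * g⁻¹) * h⁻¹ = (h * g) * A * (h * g)⁻¹ := by group
        _ = c⁻¹ * (g * h * A * (g * h)⁻¹) * c := by
          rw [e4]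
          group
        _ = g * h * A * (g * h)⁻¹ := by
          rw [mul_assoc, ← e5.eq, inv_mul_cancel_left]
        _ = _ := by group
    rw [e3, hA, ← conj_pow, h1, (hζ1 _ _ (H.powA k)).mul_pow, ← pow_mul, mul_comm k]
  have e3 : ζ ^ (L ^ 2) = ζ := mul_right_cancel (e2.symm.trans e1)
  have e4 : ζ ^ (L ^ 2 - 1) = 1 := by
    have h3 : L ^ 2 = (L ^ 2 - 1) + 1 := (Nat.sub_add_cancel (Nat.one_le_pow _ _ hL)).symm
    rw [h3, pow_succ] at e3
    exact mul_eq_right.1 e3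
  have e5 : ζ = 1 := eq_one_of_pow hp (hZ ζ hζ) e4 hpL
  rw [h1, e5, one_mul]

/-- The order of `A` from one torus element. -/
theorem pow_exact (H : Gd Z G A B) (hp : p.Prime) (hZ : ∀ z ∈ Z, ∃ k, z ^ p ^ k = 1) {L : ℕ}
    (hL : 1 ≤ L) (hpL : ¬ p ∣ L ^ 2 - 1) {l : (ZMod M)ˣ} {h : S} (hh : (h, Dg l) ∈ G)
    (hA : h * A * h⁻¹ = A ^ (L ^ 2)) : A ^ M = 1 := by
  have hζ : A ^ M ∈ Z := by
    apply H.ker
    have h1 := H.powA M
    rwa [ZMod.natCast_self, X_zero] at h1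
  have h1 : h * A ^ M * h⁻¹ = A ^ M := by
    have h2 : Commute (A ^ M) h := H.com _ hζ _ hh
    rw [← h2.eq, mul_inv_cancel_right]
  rw [← conj_pow, hA, ← pow_mul, mul_comm, pow_mul] at h1
  have e4 : (A ^ M) ^ (L ^ 2 - 1) = 1 := by
    have h3 : L ^ 2 = (L ^ 2 - 1) + 1 := (Nat.sub_add_cancel (Nat.one_le_pow _ _ hL)).symm
    rw [h3, pow_succ] at h1
    exact mul_eq_right.1 h1
  exact eq_one_of_pow hp (hZ _ hζ) e4 hpL

lemma swap1 (H : Gd Z G A B) : (A * B * A) * A = B * (A * B * A) := by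
  rw [H.br]
  simp only [mul_assoc]
  have h := H.br
  simp only [mul_assoc] at h
  rw [h]

lemma swap2 (H : Gd Z G A B) : (A * B * A) * B = A * (A * B * A) := by
  have h := H.br
  simp only [mul_assoc] at h ⊢
  rw [h]

lemma pow_val {A : S} (hAM : A ^ M = 1) (n : ℕ) : A ^ ((n : ZMod M)).val = A ^ n := by
  rw [ZMod.val_natCast]
  conv_rhs => rw [← Nat.mod_add_div n M, pow_add, pow_mul, hAM, one_pow, mul_one]

lemma ww_one (hAM : A ^ M = 1) (hBM : B ^ M = 1) :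
    ww (fun t : ZMod M => A ^ t.val) (fun t : ZMod M => B ^ (-t).val) 1 = A * B * A := by
  have h1 := pow_val hAM 1
  have h2 := pow_val hBM 1
  rw [pow_one, Nat.cast_one] at h1 h2
  rw [ww, inv_one, Units.val_one, neg_neg, h1, h2]

lemma powB_exact (H : Gd Z G A B) (hAM : A ^ M = 1) : B ^ M = 1 := by
  have h1 : B = (A * B * A) * A * (A * B * A)⁻¹ := by rw [H.swap1, mul_inv_cancel_right]
  rw [h1, conj_pow, hAM, mul_one, mul_inv_cancel]

/-- The Steinberg relations. -/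
theorem dat (H : Gd Z G A B) (hM : M ≠ 0) (hAM : A ^ M = 1)
    (hT : ∀ (g : S) (u : (ZMod M)ˣ) (k : ℕ), (g, Dg u) ∈ G → (k : ZMod M) = (u : ZMod M) ^ 2 →
      g * A * g⁻¹ = A ^ k) :
    Dat Z (fun t : ZMod M => A ^ t.val) (fun t : ZMod M => B ^ (-t).val) := by
  have : NeZero M := ⟨hM⟩
  have hBM : B ^ M = 1 := H.powB_exact hAM
  have hx : ∀ n : ℕ, A ^ n = A ^ ((n : ZMod M)).val := fun n => (pow_val hAM n).symm
  have hy : ∀ n : ℕ, B ^ n = B ^ ((n : ZMod M)).val := fun n => (pow_val hBM n).symm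
  have hw1 : ww (fun t : ZMod M => A ^ t.val) (fun t : ZMod M => B ^ (-t).val) 1 = A * B * A :=
    ww_one hAM hBM
  have hW1 : (A * B * A, Wm (1 : (ZMod M)ˣ)) ∈ G := by
    rw [← hw1]
    exact H.wG 1
  refine ⟨⟨?_, ?_, ?_, ?_⟩, ?_, ?_, ?_⟩
  · intro s t
    rw [← pow_add, hx (s.val + t.val), Nat.cast_add, ZMod.natCast_zmod_val, ZMod.natCast_zmod_val]
  · intro s t
    rw [← pow_add, hy ((-s).val + (-t).val), Nat.cast_add, ZMod.natCast_zmod_val,
      ZMod.natCast_zmod_val, neg_add]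
  · intro u t
    obtain ⟨g, hg⟩ : ∃ g, ww (fun t : ZMod M => A ^ t.val) (fun t : ZMod M => B ^ (-t).val) u =
        A * B * A * g := ⟨(A * B * A)⁻¹ * ww (fun t : ZMod M => A ^ t.val)
          (fun t : ZMod M => B ^ (-t).val) u, by rw [mul_inv_cancel_left]⟩
    have hgG : (g, Dg u⁻¹) ∈ G := by
      have h1 := G.mul_mem (G.inv_mem hW1) (H.wG u)
      have h2 : ((A * B * A)⁻¹ * ww (fun t : ZMod M => A ^ t.val)
          (fun t : ZMod M => B ^ (-t).val) u, (Wm (1 : (ZMod M)ˣ))⁻¹ * Wm u) ∈ G := h1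
      rwa [hg, inv_mul_cancel_left, Wm_right u, inv_mul_cancel_left] at h2
    have h3 := hT g u⁻¹ ((↑u⁻¹ : ZMod M) ^ 2).val hgG (ZMod.natCast_zmod_val _)
    change _ * A ^ t.val = B ^ (- -((↑u⁻¹ : ZMod M) ^ 2 * t)).val * _
    rw [hg, neg_neg]
    have h4 : g * A ^ t.val = A ^ (((↑u⁻¹ : ZMod M) ^ 2).val * t.val) * g := by
      rw [pow_mul, ← h3, conj_pow, inv_mul_cancel_right]
    have h5 : ∀ n : ℕ, A * B * A * A ^ n = B ^ n * (A * B * A) := by
      intro n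
      induction n with
      | zero => rw [pow_zero, pow_zero, mul_one, one_mul]
      | succ n ih => rw [pow_succ, ← mul_assoc, ih, mul_assoc, H.swap1, ← mul_assoc, ← pow_succ]
    rw [mul_assoc, h4, ← mul_assoc, h5, hy, Nat.cast_mul, ZMod.natCast_zmod_val,
      ZMod.natCast_zmod_val]
    simp only [mul_assoc]
  · intro u t
    obtain ⟨g, hg⟩ : ∃ g, ww (fun t : ZMod M => A ^ t.val) (fun t : ZMod M => B ^ (-t).val) u =
        g * (A * B * A) := ⟨ww (fun t : ZMod M => A ^ t.val)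
          (fun t : ZMod M => B ^ (-t).val) u * (A * B * A)⁻¹, by rw [inv_mul_cancel_right]⟩
    have hgG : (g, Dg u) ∈ G := by
      have h1 := G.mul_mem (H.wG u) (G.inv_mem hW1)
      have h2 : (ww (fun t : ZMod M => A ^ t.val)
          (fun t : ZMod M => B ^ (-t).val) u * (A * B * A)⁻¹,
          Wm u * (Wm (1 : (ZMod M)ˣ))⁻¹) ∈ G := h1
      rwa [hg, mul_inv_cancel_right, Wm_left u, mul_inv_cancel_right] at h2
    have h3 := hT g u ((u : ZMod M) ^ 2).val hgG (ZMod.natCast_zmod_val _)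
    change _ * B ^ (-t).val = A ^ (-((u : ZMod M) ^ 2 * t)).val * _
    have h4 : g * A ^ (-t).val = A ^ (((u : ZMod M) ^ 2).val * (-t).val) * g := by
      rw [pow_mul, ← h3, conj_pow, inv_mul_cancel_right]
    have h5 : ∀ n : ℕ, A * B * A * B ^ n = A ^ n * (A * B * A) := by
      intro n
      induction n with
      | zero => rw [pow_zero, pow_zero, mul_one, one_mul]
      | succ n ih => rw [pow_succ, ← mul_assoc, ih, mul_assoc, H.swap2, ← mul_assoc, ← pow_succ]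
    rw [hg, mul_assoc, h5, ← mul_assoc, h4, hx, Nat.cast_mul, ZMod.natCast_zmod_val,
      ZMod.natCast_zmod_val, mul_neg]
    simp only [mul_assoc]
  · intro z hz t
    exact H.com z hz _ (H.xA t)
  · intro z hz t
    exact H.com z hz _ (H.yB t)
  · intro s hs
    apply H.ker
    have hle : Gr (fun t : ZMod M => A ^ t.val) (fun t : ZMod M => B ^ (-t).val) ≤ G := by
      rw [Gr, Subgroup.closure_le]
      rintro _ (⟨t, rfl⟩ | ⟨t, rfl⟩)
      · exact H.xA t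
      · exact H.yB t
    exact hle hs

end Gd

/-- A number prime to `M` whose square is not one modulo `p`. -/
lemma exists_L (hp : p.Prime) (hp5 : 5 ≤ p) (hM : M ≠ 0) :
    ∃ L : ℕ, L.Coprime M ∧ 1 ≤ L ∧ ¬ p ∣ L ^ 2 - 1 := by
  obtain ⟨e, N, hN, hMN⟩ := Nat.exists_eq_pow_mul_and_not_dvd hM p hp.ne_one
  have hc : p.Coprime N := (Nat.Prime.coprime_iff_not_dvd hp).2 hN
  obtain ⟨L, hL1, hL2⟩ := Nat.chineseRemainder hc 2 1
  have hpL : ¬ p ∣ L := by
    intro h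
    have h1 : 2 ≡ 0 [MOD p] := hL1.symm.trans ((Nat.modEq_zero_iff_dvd).2 h)
    have h2 := Nat.le_of_dvd (by norm_num) ((Nat.modEq_zero_iff_dvd).1 h1)
    omega
  have hL0 : 1 ≤ L := by
    rcases Nat.eq_zero_or_pos L with h | h
    · exact absurd (h ▸ dvd_zero p) hpL
    · exact h
  refine ⟨L, ?_, hL0, ?_⟩
  · rw [hMN]
    refine Nat.Coprime.mul_right (Nat.Coprime.pow_right e ?_) ?_
    · exact ((Nat.Prime.coprime_iff_not_dvd hp).2 hpL).symm
    · have h1 : L.gcd N = Nat.gcd 1 N := hL2.gcd_eq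
      rw [Nat.coprime_iff_gcd_eq_one, h1, Nat.gcd_one_left]
  · intro h
    have h1 : L ^ 2 ≡ 1 [MOD p] :=
      ((Nat.modEq_iff_dvd' (Nat.one_le_pow 2 L hL0)).2 h).symm
    have h2 : L ^ 2 ≡ 4 [MOD p] := hL1.pow 2
    have h3 : 1 ≡ 4 [MOD p] := h1.symm.trans h2
    have h4 : p ∣ 4 - 1 := (Nat.modEq_iff_dvd' (by norm_num)).1 h3
    have h5 := Nat.le_of_dvd (by norm_num) h4
    omega

lemma cub {a A B : S} (hA : Commute a A) (hB : Commute a B) :
    a * A * (a * B) * (a * A) = a ^ 3 * (A * B * A) := by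
  calc a * A * (a * B) * (a * A) = a * (A * a) * (B * a) * A := by simp only [mul_assoc]
    _ = a * (a * A) * (a * B) * A := by rw [← hA.eq, ← hB.eq]
    _ = a * a * (A * a) * (B * A) := by simp only [mul_assoc]
    _ = a * a * (a * A) * (B * A) := by rw [← hA.eq]
    _ = a ^ 3 * (A * B * A) := by
      rw [pow_succ, pow_succ, pow_one]
      simp only [mul_assoc]

lemma braid_four {A B : S} (hbr : A * B * A = B * A * B) : (A * B * A) ^ 4 = (A * B) ^ 6 := by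
  have h2 : (A * B * A) ^ 2 = (A * B) ^ 3 := by
    rw [pow_two, pow_succ, pow_succ, pow_one]
    calc A * B * A * (A * B * A) = A * B * A * (B * A * B) := by rw [← hbr]
      _ = A * B * (A * B) * (A * B) := by simp only [mul_assoc]
  calc (A * B * A) ^ 4 = ((A * B * A) ^ 2) ^ 2 := by rw [← pow_mul]
    _ = (A * B) ^ 6 := by rw [h2, ← pow_mul]

/-- **Rank one, in the language of correspondences.** -/
theorem Gd.main (H : Gd Z G A B) (hp : p.Prime) (hp5 : 5 ≤ p) (hM : M ≠ 0)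
    (hZ : ∀ z ∈ Z, ∃ k, z ^ p ^ k = 1) (h6 : (A * B) ^ 6 = 1) :
    A ^ M = 1 ∧ ∀ (g : S) (u : (ZMod M)ˣ), (g, Dg u) ∈ G → ∀ k : ℕ,
      (k : ZMod M) = (u : ZMod M) ^ 2 → g * A * g⁻¹ = A ^ k := by
  have : NeZero M := ⟨hM⟩
  obtain ⟨L, hLM, hL1, hpL⟩ := exists_L hp hp5 hM
  obtain ⟨l, hl⟩ : ∃ l : (ZMod M)ˣ, (l : ZMod M) = L :=
    ⟨ZMod.unitOfCoprime L hLM, ZMod.coe_unitOfCoprime L hLM⟩
  obtain ⟨h, hh⟩ := H.exists_torus l
  have hlk : ((L ^ 2 : ℕ) : ZMod M) = (l : ZMod M) ^ 2 := by rw [Nat.cast_pow, hl]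
  obtain ⟨z, hz, h1⟩ := H.torusA hh hlk
  obtain ⟨k, hk⟩ := hZ z hz
  -- the exponent
  obtain ⟨r, hr⟩ : ∃ r : ℕ, (z ^ r) ^ (L ^ 2 - 1) = z := by
    have hc : (L ^ 2 - 1).Coprime (p ^ k) :=
      (Nat.Coprime.pow_left k ((Nat.Prime.coprime_iff_not_dvd hp).2 hpL)).symm
    obtain ⟨r, hr⟩ := Nat.exists_mul_mod_eq_of_coprime 1 hc (pow_ne_zero _ hp.ne_zero)
    refine ⟨r, ?_⟩
    have h2 : (L ^ 2 - 1) * r ≡ 1 [MOD p ^ k] := hr.2
    have h3 : (L ^ 2 - 1) * r ≡ 1 [MOD orderOf z] :=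
      h2.of_dvd (orderOf_dvd_of_pow_eq_one hk)
    rw [← pow_mul, mul_comm r, ← pow_one z, ← pow_mul, one_mul]
    exact pow_eq_pow_iff_modEq.2 h3
  obtain ⟨a, ha⟩ : ∃ a, a = z ^ r := ⟨_, rfl⟩
  rw [← ha] at hr
  have haZ : a ∈ Z := ha ▸ Z.pow_mem hz r
  have haA : Commute a A := H.com a haZ _ H.hA
  have haB : Commute a B := H.com a haZ _ H.hB
  have hah : Commute a h := H.com a haZ _ hh
  have haz : Commute a z := by
    rw [ha]
    exact (Commute.refl z).pow_left r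
  have H' : Gd Z G (a * A) (a * B) := by
    refine ⟨H.ker, H.inc, H.com, ?_, ?_, ?_⟩
    · have h2 := G.mul_mem (H.inc a haZ) H.hA
      have h3 : (a * A, 1 * X 1) ∈ G := h2
      rwa [one_mul] at h3
    · have h2 := G.mul_mem (H.inc a haZ) H.hB
      have h3 : (a * B, 1 * Y (-1)) ∈ G := h2
      rwa [one_mul] at h3
    · rw [cub haA haB, cub haB haA, H.br]
  have hA' : h * (a * A) * h⁻¹ = (a * A) ^ (L ^ 2) := by
    rw [haA.mul_pow]
    calc h * (a * A) * h⁻¹ = (h * a) * A * h⁻¹ := by simp only [mul_assoc]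
      _ = a * (h * A * h⁻¹) := by
        rw [← hah.eq]
        simp only [mul_assoc]
      _ = a * (a ^ (L ^ 2 - 1) * A ^ (L ^ 2)) := by rw [h1, hr]
      _ = a ^ (L ^ 2) * A ^ (L ^ 2) := by
        rw [← mul_assoc, ← pow_succ', Nat.sub_add_cancel (Nat.one_le_pow _ _ hL1)]
  have hAM := H'.pow_exact hp hZ hL1 hpL hh hA'
  have hT : ∀ (g : S) (u : (ZMod M)ˣ) (k : ℕ), (g, Dg u) ∈ G →
      (k : ZMod M) = (u : ZMod M) ^ 2 → g * (a * A) * g⁻¹ = (a * A) ^ k :=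
    fun g u k hg hk => H'.torus_exact hp hZ hL1 hpL hh hA' hg hk
  have D := H'.dat hM hAM hT
  have h4 : ww (fun t : ZMod M => (a * A) ^ t.val) (fun t : ZMod M => (a * B) ^ (-t).val) 1 ^ 4 =
    1 := Dat.ww_four hp hp5 hZ M hM _ _ D
  rw [ww_one hAM (H'.powB_exact hAM), cub haA haB] at h4
  have haw : Commute (a ^ 3) (A * B * A) := ((haA.mul_right haB).mul_right haA).pow_left 3
  rw [haw.mul_pow, braid_four H.br, h6, mul_one, ← pow_mul] at h4
  have ha1 : a = 1 := by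
    refine eq_one_of_pow hp (hZ a haZ) h4 ?_
    intro hd
    have h5 := Nat.le_of_dvd (by norm_num) hd
    interval_cases p
    all_goals first | omega | exact absurd hp (by norm_num)
  rw [ha1, one_mul] at hAM hT
  exact ⟨hAM, fun g u hg k hk => hT g u k hg hk⟩

end

section

variable {S : Type*} [Group S] {Z : Subgroup S} {M p : ℕ} {A B : S}

/-- The group of pairs generated by `(A, X 1)` and `(B, Y (-1))`. -/
def G0 (M : ℕ) (A B : S) : Subgroup (S × SpecialLinearGroup (Fin 2) (ZMod M)) :=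
  Subgroup.closure {(A, X 1), (B, Y (-1))}

lemma G0_fst {g : S × SpecialLinearGroup (Fin 2) (ZMod M)} (hg : g ∈ G0 M A B) :
    g.1 ∈ Subgroup.closure {A, B} := by
  have hle : G0 M A B ≤ (Subgroup.closure {A, B}).comap (MonoidHom.fst S _) := by
    rw [G0, Subgroup.closure_le]
    rintro _ (rfl | rfl)
    · exact Subgroup.subset_closure (Or.inl rfl)
    · exact Subgroup.subset_closure (Or.inr rfl)
  exact hle hg

lemma comm_closure {z : S} (hA : Commute z A) (hB : Commute z B) {g : S}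
    (hg : g ∈ Subgroup.closure {A, B}) : Commute z g := by
  have hle : Subgroup.closure {A, B} ≤ Subgroup.centralizer {z} := by
    rw [Subgroup.closure_le]
    rintro _ (rfl | rfl)
    · exact Subgroup.mem_centralizer_singleton_iff.2 hA.symm.eq
    · exact Subgroup.mem_centralizer_singleton_iff.2 hB.symm.eq
  exact (Subgroup.mem_centralizer_singleton_iff.1 (hle hg)).symm

/-- The group of pairs extended by a central subgroup. -/
def G1 (M : ℕ) (A B : S) (Z : Subgroup S) (hz : ∀ z ∈ Z, Commute z A ∧ Commute z B) :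
    Subgroup (S × SpecialLinearGroup (Fin 2) (ZMod M)) where
  carrier := {q | ∃ z ∈ Z, ∃ g ∈ G0 M A B, q = (z * g.1, g.2)}
  one_mem' := ⟨1, Z.one_mem, 1, Subgroup.one_mem _, Prod.ext (mul_one (1 : S)).symm rfl⟩
  mul_mem' := by
    rintro _ _ ⟨z, hz1, g, hg, rfl⟩ ⟨z', hz1', g', hg', rfl⟩
    refine ⟨z * z', Z.mul_mem hz1 hz1', g * g', Subgroup.mul_mem _ hg hg', ?_⟩
    have h : Commute z' g.1 := comm_closure (hz z' hz1').1 (hz z' hz1').2 (G0_fst hg)
    refine Prod.ext ?_ rfl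
    change z * g.1 * (z' * g'.1) = z * z' * (g.1 * g'.1)
    rw [mul_assoc, ← mul_assoc g.1, ← h.eq]
    simp only [mul_assoc]
  inv_mem' := by
    rintro _ ⟨z, hz1, g, hg, rfl⟩
    refine ⟨z⁻¹, Z.inv_mem hz1, g⁻¹, Subgroup.inv_mem _ hg, ?_⟩
    have h : Commute z g.1 := comm_closure (hz z hz1).1 (hz z hz1).2 (G0_fst hg)
    refine Prod.ext ?_ rfl
    change (z * g.1)⁻¹ = z⁻¹ * (g.1)⁻¹
    rw [h.eq, _root_.mul_inv_rev]

/-- **Rank one.** Two elements `A`, `B` with the braid relation and `(A * B) ^ 6 = 1`; every pair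
`(s, 1)` in the group generated by `(A, X 1)` and `(B, Y (-1))` in `S × SL(2, ZMod M)` has `s ∈ Z`;
`Z` commutes with `A` and `B` and its elements have order a power of the prime `p ≥ 5`. Then
`A ^ M = 1`, and elements over diagonal matrices act exactly by powers. -/
theorem rank_one (hp : p.Prime) (hp5 : 5 ≤ p) (hM : M ≠ 0) (hZ : ∀ z ∈ Z, ∃ k, z ^ p ^ k = 1)
    (hZA : ∀ z ∈ Z, Commute z A) (hZB : ∀ z ∈ Z, Commute z B) (hbr : A * B * A = B * A * B)
    (h6 : (A * B) ^ 6 = 1)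
    (hW : ∀ s, (s, (1 : SpecialLinearGroup (Fin 2) (ZMod M))) ∈ G0 M A B → s ∈ Z) :
    A ^ M = 1 ∧ ∀ (g : S) (u : (ZMod M)ˣ), (g, Dg u) ∈ G0 M A B →
      (∀ k : ℤ, (k : ZMod M) = (u : ZMod M) ^ 2 → g * A * g⁻¹ = A ^ k) ∧
      (∀ k : ℤ, (k : ZMod M) = (↑u⁻¹ : ZMod M) ^ 2 → g * B * g⁻¹ = B ^ k) := by
  have : NeZero M := ⟨hM⟩
  obtain ⟨Z', hZ'⟩ : ∃ Z' : Subgroup S, Z' = Z ⊓ Subgroup.closure {A, B} := ⟨_, rfl⟩
  have hc : ∀ z ∈ Z', Commute z A ∧ Commute z B := by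
    intro z hz
    rw [hZ'] at hz
    exact ⟨hZA z hz.1, hZB z hz.1⟩
  have hle : G0 M A B ≤ G1 M A B Z' hc := by
    intro g hg
    exact ⟨1, Z'.one_mem, g, hg, by rw [one_mul]⟩
  have H : Gd Z' (G1 M A B Z' hc) A B := by
    refine ⟨?_, ?_, ?_, ?_, ?_, hbr⟩
    · rintro s ⟨z, hz, g, hg, h⟩
      have h1 : s = z * g.1 := congrArg Prod.fst h
      have h2 : (1 : SpecialLinearGroup (Fin 2) (ZMod M)) = g.2 := congrArg Prod.snd h
      have h3 : (g.1, (1 : SpecialLinearGroup (Fin 2) (ZMod M))) ∈ G0 M A B := by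
        rw [h2]
        exact hg
      rw [h1]
      refine Z'.mul_mem hz ?_
      rw [hZ']
      exact ⟨hW _ h3, G0_fst hg⟩
    · intro z hz
      exact ⟨z, hz, 1, Subgroup.one_mem _, by simp⟩
    · rintro z hz _ ⟨z', hz', g, hg, rfl⟩
      have h1 : Commute z z' := by
        rw [hZ'] at hz'
        exact comm_closure (hc z hz).1 (hc z hz).2 hz'.2
      exact h1.mul_right (comm_closure (hc z hz).1 (hc z hz).2 (G0_fst hg))
    · exact hle (Subgroup.subset_closure (Or.inl rfl))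
    · exact hle (Subgroup.subset_closure (Or.inr rfl))
  have hZp : ∀ z ∈ Z', ∃ k, z ^ p ^ k = 1 := by
    intro z hz
    rw [hZ'] at hz
    exact hZ z hz.1
  obtain ⟨hAM, hT⟩ := H.main hp hp5 hM hZp h6
  have hint : ∀ {C : S}, C ^ M = 1 → ∀ k : ℤ, C ^ k = C ^ ((k : ZMod M)).val := by
    intro C hC k
    have h1 : (((k : ZMod M)).val : ℤ) = k % M := by
      rw [ZMod.val_intCast]
    have h2 : k = k % M + M * (k / M) := (Int.emod_add_mul_ediv k M).symm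
    rw [← zpow_natCast, h1]
    conv_lhs => rw [h2, _root_.zpow_add, _root_.zpow_mul, zpow_natCast, hC, _root_.one_zpow,
      mul_one]
  have hA : ∀ (g : S) (u : (ZMod M)ˣ), (g, Dg u) ∈ G1 M A B Z' hc →
      (∀ k : ℤ, (k : ZMod M) = (u : ZMod M) ^ 2 → g * A * g⁻¹ = A ^ k) := by
    intro g u hg k hk
    rw [hint hAM]
    exact hT g u hg _ (by rw [ZMod.natCast_zmod_val, hk])
  refine ⟨hAM, fun g u hg => ⟨hA g u (hle hg), ?_⟩⟩
  intro k hk
  obtain ⟨w, hw⟩ : ∃ w, w = A * B * A := ⟨_, rfl⟩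
  have hwA : w * A = B * w := by rw [hw, H.swap1]
  have hwm : (w, Wm (1 : (ZMod M)ˣ)) ∈ G1 M A B Z' hc := by
    have h1 := H.wG 1
    rw [Gd.ww_one hAM (H.powB_exact hAM)] at h1
    rwa [hw]
  have h1 : (w⁻¹ * g * w, (Wm (1 : (ZMod M)ˣ))⁻¹ * Dg u * Wm (1 : (ZMod M)ˣ)) ∈
      G1 M A B Z' hc :=
    Subgroup.mul_mem _ (Subgroup.mul_mem _ (Subgroup.inv_mem _ hwm) (hle hg)) hwm
  have h2 : (Wm (1 : (ZMod M)ˣ))⁻¹ * Dg u * Wm (1 : (ZMod M)ˣ) = Dg u⁻¹ := by
    rw [mul_assoc, ← Wm_left, Wm_right u, inv_mul_cancel_left]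
  rw [h2] at h1
  have h3 := hA _ _ h1 k hk
  have h4 : B = w * A * w⁻¹ := by rw [hwA, mul_inv_cancel_right]
  rw [h4, conj_zpow, ← h3]
  group

/-- **Rank one, with words.** -/
theorem rank_one_words (hp : p.Prime) (hp5 : 5 ≤ p) (hM : M ≠ 0)
    (hZ : ∀ z ∈ Z, ∃ k, z ^ p ^ k = 1)
    (hZA : ∀ z ∈ Z, Commute z A) (hZB : ∀ z ∈ Z, Commute z B) (hbr : A * B * A = B * A * B)
    (h6 : (A * B) ^ 6 = 1)
    (hW : ∀ w : FreeGroup (Fin 2), FreeGroup.lift ![X (1 : ZMod M), Y (-1)] w = 1 →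
      FreeGroup.lift ![A, B] w ∈ Z) :
    A ^ M = 1 ∧ ∀ (w : FreeGroup (Fin 2)) (u : (ZMod M)ˣ),
      FreeGroup.lift ![X (1 : ZMod M), Y (-1)] w = Dg u →
      (∀ k : ℤ, (k : ZMod M) = (u : ZMod M) ^ 2 →
        FreeGroup.lift ![A, B] w * A * (FreeGroup.lift ![A, B] w)⁻¹ = A ^ k) ∧
      (∀ k : ℤ, (k : ZMod M) = (↑u⁻¹ : ZMod M) ^ 2 →
        FreeGroup.lift ![A, B] w * B * (FreeGroup.lift ![A, B] w)⁻¹ = B ^ k) := by
  have hr : G0 M A B = ((FreeGroup.lift ![A, B]).prod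
      (FreeGroup.lift ![X (1 : ZMod M), Y (-1)])).range := by
    apply le_antisymm
    · rw [G0, Subgroup.closure_le]
      rintro _ (rfl | rfl)
      · exact ⟨FreeGroup.of 0, by simp⟩
      · exact ⟨FreeGroup.of 1, by simp⟩
    · rintro _ ⟨w, rfl⟩
      induction w using FreeGroup.induction_on with
      | C1 => simp only [map_one]; exact Subgroup.one_mem _
      | of i =>
        fin_cases i
        · simp only [MonoidHom.prod_apply, FreeGroup.lift_apply_of]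
          exact Subgroup.subset_closure (Or.inl rfl)
        · simp only [MonoidHom.prod_apply, FreeGroup.lift_apply_of]
          exact Subgroup.subset_closure (Or.inr rfl)
      | inv_of i ih =>
        rw [map_inv]
        exact Subgroup.inv_mem _ ih
      | mul v w hv hw =>
        rw [map_mul]
        exact Subgroup.mul_mem _ hv hw
  have hm : ∀ w : FreeGroup (Fin 2), (FreeGroup.lift ![A, B] w,
      FreeGroup.lift ![X (1 : ZMod M), Y (-1)] w) ∈ G0 M A B := by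
    intro w
    rw [hr]
    exact ⟨w, rfl⟩
  obtain ⟨h1, h2⟩ := rank_one hp hp5 hM hZ hZA hZB hbr h6 (by
    intro s hs
    rw [hr] at hs
    obtain ⟨w, hw⟩ := hs
    have e1 : FreeGroup.lift ![A, B] w = s := congrArg Prod.fst hw
    have e2 : FreeGroup.lift ![X (1 : ZMod M), Y (-1)] w = 1 := congrArg Prod.snd hw
    rw [← e1]
    exact hW w e2)
  refine ⟨h1, fun w u hw => ?_⟩
  have h3 := hm w
  rw [hw] at h3
  exact h2 _ u h3

end

end Pool.Agent.H.MP_59b15d_al.R1
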