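/-
Three elements `a`, `b`, `c` with the relations of a 3-chain; the pushes `D = c a⁻¹`,
`D' = w⁻¹ D w`, `w = a b a`, and the action of the group generated by `a`, `b` on them.
-/
import Pool.Agent.H.MP_59b15d_al.h11r.Canon

set_option autoImplicit false

namespace Pool.Agent.H.MP_59b15d_al.R1

open Matrix (SpecialLinearGroup)

section zp

variable {Q : Type*} [Group Q]

/-- Powers of a product of two elements with central commutator. -/
lemma mul_zpow_t {X Y t : Q} (h : Y * X = X * Y * t) (hX : Commute t X) (hY : Commute t Y) :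
    ∀ n l : ℤ, 2 * l = n * (n - 1) → (X * Y) ^ n = X ^ n * Y ^ n * t ^ l := by
  have hYX : ∀ n : ℤ, Y ^ n * X = X * Y ^ n * t ^ n := by
    intro n
    have h1 : X⁻¹ * Y * X = Y * t := by
      rw [mul_assoc, h]
      group
    have h2 : X⁻¹ * Y ^ n * X = Y ^ n * t ^ n := by
      have h3 := congrArg (fun q => q ^ n) h1
      have h4 : (X⁻¹ * Y * X) ^ n = X⁻¹ * Y ^ n * X := by
        have := conj_zpow (i := n) (a := X⁻¹) (b := Y)
        rwa [inv_inv] at this
      have h5 : (Y * t) ^ n = Y ^ n * t ^ n := hY.symm.mul_zpow n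
      rw [← h4, ← h5]
      exact h3
    calc Y ^ n * X = X * (X⁻¹ * Y ^ n * X) := by group
      _ = _ := by rw [h2, mul_assoc]
  have step : ∀ n l : ℤ, X ^ (n + 1) * Y ^ (n + 1) * t ^ (l + n) =
      X ^ n * Y ^ n * t ^ l * (X * Y) := by
    intro n l
    have h1 : t ^ l * (X * Y) = X * Y * t ^ l := ((hX.mul_right hY).zpow_left l).eq
    calc X ^ (n + 1) * Y ^ (n + 1) * t ^ (l + n) =
        X ^ n * (X * Y ^ n * t ^ n) * Y * t ^ l := by
          have h2 : t ^ n * Y = Y * t ^ n := (hY.zpow_left n).eq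
          rw [zpow_add_one, zpow_add_one, add_comm l n, _root_.zpow_add]
          calc X ^ n * X * (Y ^ n * Y) * (t ^ n * t ^ l) =
              X ^ n * (X * Y ^ n * (Y * t ^ n)) * t ^ l := by simp only [mul_assoc]
            _ = _ := by
              rw [← h2]
              simp only [mul_assoc]
      _ = X ^ n * Y ^ n * (X * Y * t ^ l) := by
          rw [← hYX]
          simp only [mul_assoc]
      _ = _ := by
          rw [← h1]
          simp only [mul_assoc]
  intro n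
  induction n using Int.induction_on with
  | zero =>
    intro l hl
    have : l = 0 := by omega
    rw [this, zpow_zero, zpow_zero, zpow_zero, zpow_zero, mul_one, mul_one]
  | succ n ih =>
    intro l hl
    have h1 := ih (l - n) (by ring_nf at hl ⊢; omega)
    have h2 := step n (l - n)
    rw [sub_add_cancel] at h2
    rw [zpow_add_one, h1, h2]
  | pred n ih =>
    intro l hl
    have h1 := ih (l + (-n - 1)) (by ring_nf at hl ⊢; omega)
    have h2 := step (-n - 1) l
    rw [sub_add_cancel] at h2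
    rw [h2] at h1
    have h3 : (X * Y) ^ (-(n : ℤ)) = (X * Y) ^ (-(n : ℤ) - 1) * (X * Y) := by
      rw [← zpow_add_one, sub_add_cancel]
    rw [h3] at h1
    exact mul_right_cancel h1

/-- Iterated conjugation of an element on which `Y` acts quadratically. -/
lemma conj_zpow_t {Y X z s : Q} (h1 : Y * X * Y⁻¹ = z * X) (h2 : Y * z * Y⁻¹ = z * s)
    (hsY : Commute s Y) (hsz : Commute s z) (hsX : Commute s X) :
    ∀ n l : ℤ, 2 * l = n * (n - 1) → Y ^ n * X * (Y ^ n)⁻¹ = z ^ n * X * s ^ l := by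
  have step : ∀ n l : ℤ, Y * (z ^ n * X * s ^ l) * Y⁻¹ = z ^ (n + 1) * X * s ^ (l + n) := by
    intro n l
    have e1 : Y * z ^ n * Y⁻¹ = z ^ n * s ^ n := by
      rw [← conj_zpow, h2, hsz.symm.mul_zpow]
    have e2 : Y * s ^ l * Y⁻¹ = s ^ l := by
      rw [← (hsY.zpow_left l).eq, mul_inv_cancel_right]
    calc Y * (z ^ n * X * s ^ l) * Y⁻¹ = (Y * z ^ n * Y⁻¹) * (Y * X * Y⁻¹) * (Y * s ^ l * Y⁻¹) := by
          group
      _ = z ^ n * (s ^ n * (z * X)) * s ^ l := by
          rw [e1, h1, e2]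
          simp only [mul_assoc]
      _ = z ^ n * (z * X * s ^ n) * s ^ l := by
          rw [((hsz.mul_right hsX).zpow_left n).eq]
      _ = _ := by
          rw [zpow_add_one, add_comm l n, _root_.zpow_add]
          simp only [mul_assoc]
  intro n
  induction n using Int.induction_on with
  | zero =>
    intro l hl
    have : l = 0 := by omega
    rw [this, zpow_zero, zpow_zero, zpow_zero, inv_one, mul_one]
  | succ n ih =>
    intro l hl
    have h3 := ih (l - n) (by ring_nf at hl ⊢; omega)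
    have h4 := step n (l - n)
    rw [sub_add_cancel, ← h3] at h4
    rw [← h4, add_comm (n : ℤ) 1, zpow_one_add]
    group
  | pred n ih =>
    intro l hl
    have h3 := ih (l + (-n - 1)) (by ring_nf at hl ⊢; omega)
    have h4 := step (-n - 1) l
    rw [sub_add_cancel, ← h3] at h4
    have h5 : Y * (Y ^ (-(n : ℤ) - 1) * X * (Y ^ (-(n : ℤ) - 1))⁻¹) * Y⁻¹ =
        Y ^ (-(n : ℤ)) * X * (Y ^ (-(n : ℤ)))⁻¹ := by
      have e : -(n : ℤ) = 1 + (-(n : ℤ) - 1) := by ring
      conv_rhs => rw [e, zpow_one_add]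
      group
    rw [← h5] at h4
    exact (mul_left_cancel (mul_right_cancel h4)).symm

end zp

section br

variable {Q : Type*} [Group Q]

/-- The relations of a 3-chain `a`, `b`, `c` with `(a b a)^4 = 1`. -/
structure Br3 (a b c : Q) : Prop where
  ab : a * b * a = b * a * b
  cb : c * b * c = b * c * b
  ac : Commute a c
  w4 : (a * b * a) ^ 4 = 1

namespace Br3

variable {a b c : Q} (H : Br3 a b c)
include H

lemma aD : Commute a (c * a⁻¹) := H.ac.mul_right (Commute.refl a).inv_right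

lemma wb : (a * b * a) * b = a * (a * b * a) := by
  calc (a * b * a) * b = a * (b * a * b) := by simp only [mul_assoc]
    _ = _ := by rw [← H.ab]

lemma wa : (a * b * a) * a = b * (a * b * a) := by
  calc (a * b * a) * a = (b * a * b) * a := by rw [H.ab]
    _ = _ := by simp only [mul_assoc]

omit H in
/-- `D'` in terms of the generators. -/
lemma D'_eq : (a * b * a)⁻¹ * (c * a⁻¹) * (a * b * a) = a⁻¹ * b⁻¹ * a⁻¹ * c * b * a := by
  group

lemma aD' : a * ((a * b * a)⁻¹ * (c * a⁻¹) * (a * b * a)) =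
    ((a * b * a)⁻¹ * (c * a⁻¹) * (a * b * a)) * c := by
  have h1 : b⁻¹ * a⁻¹ = a⁻¹ * b⁻¹ * a⁻¹ * b := by
    have h2 : (a * b * a) * (b⁻¹ * a⁻¹) = (a * b * a) * (a⁻¹ * b⁻¹ * a⁻¹ * b) := by
      have e1 : (a * b * a) * (b⁻¹ * a⁻¹) = b := by
        rw [H.ab]
        group
      have e2 : (a * b * a) * (a⁻¹ * b⁻¹ * a⁻¹ * b) = b := by group
      rw [e1, e2]
    exact mul_left_cancel h2
  rw [D'_eq]
  calc a * (a⁻¹ * b⁻¹ * a⁻¹ * c * b * a) = (b⁻¹ * a⁻¹) * (c * b * a) := by group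
    _ = a⁻¹ * b⁻¹ * a⁻¹ * (b * c * b) * a := by
      rw [h1]
      simp only [mul_assoc]
    _ = a⁻¹ * b⁻¹ * a⁻¹ * c * b * (c * a) := by
      rw [← H.cb]
      simp only [mul_assoc]
    _ = _ := by
      rw [← H.ac.eq]
      simp only [mul_assoc]

end Br3

/-- The first push. -/
def pD (a c : Q) : Q := c * a⁻¹

/-- The second push. -/
def pD' (a b c : Q) : Q := (a * b * a)⁻¹ * (c * a⁻¹) * (a * b * a)

/-- The boundary. -/
def pt (a b c : Q) : Q := (c * b * a) ^ 4

namespace Br3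

variable {a b c : Q} (H : Br3 a b c)
include H

/-- `a D' a⁻¹ = D' D`. -/
lemma conj_a_D' : a * pD' a b c * a⁻¹ = pD' a b c * pD a c := by
  rw [pD', H.aD', pD]
  simp only [mul_assoc]

lemma conj_a_D : a * pD a c * a⁻¹ = pD a c := by
  rw [pD, H.aD.eq, mul_inv_cancel_right]

lemma conj_b_D' : b * pD' a b c * b⁻¹ = pD' a b c := by
  have h1 : b = (a * b * a)⁻¹ * a * (a * b * a) := by
    rw [mul_assoc, ← H.wb, inv_mul_cancel_left]
  have h2 : Commute b (pD' a b c) := by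
    have h3 : Commute ((a * b * a)⁻¹ * a * (a * b * a))
        ((a * b * a)⁻¹ * (c * a⁻¹) * (a * b * a)) := by
      change _ * _ = _ * _
      have h4 := H.aD.eq
      calc (a * b * a)⁻¹ * a * (a * b * a) * ((a * b * a)⁻¹ * (c * a⁻¹) * (a * b * a)) =
          (a * b * a)⁻¹ * (a * (c * a⁻¹)) * (a * b * a) := by group
        _ = _ := by
          rw [h4]
          group
    rw [← h1] at h3
    exact h3
  rw [h2.eq, mul_inv_cancel_right]

/-- `b⁻¹ D b = D' D`. -/
lemma conj_b_D_inv : b⁻¹ * pD a c * b = pD' a b c * pD a c := by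
  rw [← H.conj_a_D', pD', D'_eq, pD, ← (H.ac.inv_left).eq]
  group

/-- `b D b⁻¹ = D'⁻¹ D`. -/
lemma conj_b_D : b * pD a c * b⁻¹ = (pD' a b c)⁻¹ * pD a c := by
  have h1 := H.conj_b_D_inv
  have h2 : pD a c = (b * pD' a b c * b⁻¹) * (b * pD a c * b⁻¹) := by
    calc pD a c = b * (b⁻¹ * pD a c * b) * b⁻¹ := by group
      _ = _ := by
        rw [h1]
        group
  rw [H.conj_b_D'] at h2
  rw [eq_inv_mul_iff_mul_eq, ← h2]

/-- `w D w⁻¹`. -/
lemma conj_w_D : (a * b * a) * pD a c * (a * b * a)⁻¹ =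
    (pD a c)⁻¹ * (pD' a b c)⁻¹ * pD a c := by
  have e : b * (a * pD a c * a⁻¹) * b⁻¹ = (pD' a b c)⁻¹ * pD a c := by
    rw [H.conj_a_D, H.conj_b_D]
  calc (a * b * a) * pD a c * (a * b * a)⁻¹ =
      a * (b * (a * pD a c * a⁻¹) * b⁻¹) * a⁻¹ := by group
    _ = (a * pD' a b c * a⁻¹)⁻¹ * (a * pD a c * a⁻¹) := by
      rw [e]
      group
    _ = _ := by
      rw [H.conj_a_D', H.conj_a_D]
      group

omit H in
lemma conj_w_D' : (a * b * a) * pD' a b c * (a * b * a)⁻¹ = pD a c := by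
  rw [pD', pD]
  group

/-- The commutator `t` in terms of the pushes. -/
lemma t_eq : pt a b c = pD' a b c * (pD a c)⁻¹ * (pD' a b c)⁻¹ * pD a c := by
  obtain ⟨w, hw⟩ : ∃ w, w = a * b * a := ⟨_, rfl⟩
  obtain ⟨D, hD⟩ : ∃ D, D = pD a c := ⟨_, rfl⟩
  obtain ⟨E, hE⟩ : ∃ E, E = pD' a b c := ⟨_, rfl⟩
  have h1 : w * D = D⁻¹ * E⁻¹ * D * w := by
    have := H.conj_w_D
    rw [← hw, ← hD, ← hE] at this
    exact mul_inv_eq_iff_eq_mul.1 this
  have h2 : w * E = D * w := by
    have := conj_w_D' (a := a) (b := b) (c := c)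
    rw [← hw, ← hD, ← hE] at this
    exact mul_inv_eq_iff_eq_mul.1 this
  have h3 : c * b * a = D * w := by
    rw [hD, hw, pD]
    group
  have h4 : w ^ 4 = 1 := by rw [hw]; exact H.w4
  have h5 : w * E⁻¹ = D⁻¹ * w := by
    rw [mul_inv_eq_iff_eq_mul, mul_assoc, h2, inv_mul_cancel_left]
  have h6 : w * D⁻¹ = D⁻¹ * E * D * w := by
    rw [mul_inv_eq_iff_eq_mul, mul_assoc, h1]
    group
  have h7 : (D * w) * (D * w) = E⁻¹ * D * (w * w) := by
    calc (D * w) * (D * w) = D * (w * D) * w := by simp only [mul_assoc]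
      _ = _ := by
        rw [h1]
        group
  have h8 : w * w * (E⁻¹ * D) = D⁻¹ * E * E * D⁻¹ * E⁻¹ * D * (w * w) := by
    calc w * w * (E⁻¹ * D) = w * (w * E⁻¹) * D := by simp only [mul_assoc]
      _ = (w * D⁻¹) * (w * D) := by
        rw [h5]
        simp only [mul_assoc]
      _ = D⁻¹ * E * D * ((w * D⁻¹) * E⁻¹ * D) * w := by
        rw [h6, h1]
        simp only [mul_assoc]
        rw [← mul_assoc w D⁻¹, h6]
        simp only [mul_assoc]
      _ = D⁻¹ * E * D * (D⁻¹ * E * D * (w * E⁻¹) * D) * w := by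
        rw [h6]
        simp only [mul_assoc]
      _ = D⁻¹ * E * D * (D⁻¹ * E * D * D⁻¹ * (w * D)) * w := by
        rw [h5]
        simp only [mul_assoc]
      _ = _ := by
        rw [h1]
        group
  have h4' : w * w * (w * w) = 1 := by
    rw [← h4, ← pow_two, ← pow_two, ← pow_mul]
  have h9 : (D * w) ^ 4 = E * D⁻¹ * E⁻¹ * D * (w * w * (w * w)) := by
    calc (D * w) ^ 4 = ((D * w) * (D * w)) * ((D * w) * (D * w)) := by
          rw [← pow_two, ← pow_two, ← pow_mul]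
      _ = E⁻¹ * D * (w * w * (E⁻¹ * D)) * (w * w) := by
        rw [h7]
        simp only [mul_assoc]
      _ = _ := by
        rw [h8]
        group
  rw [← hD, ← hE, pt, h3, h9, h4', mul_one]

lemma t_a : Commute (pt a b c) a := by
  have h : a * pt a b c * a⁻¹ = pt a b c := by
    rw [H.t_eq]
    calc a * (pD' a b c * (pD a c)⁻¹ * (pD' a b c)⁻¹ * pD a c) * a⁻¹ =
        (a * pD' a b c * a⁻¹) * (a * pD a c * a⁻¹)⁻¹ * (a * pD' a b c * a⁻¹)⁻¹ *
          (a * pD a c * a⁻¹) := by group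
      _ = _ := by
        rw [H.conj_a_D', H.conj_a_D]
        group
  exact (mul_inv_eq_iff_eq_mul.1 h).symm

lemma t_b : Commute (pt a b c) b := by
  have h : b * pt a b c * b⁻¹ = pt a b c := by
    rw [H.t_eq]
    calc b * (pD' a b c * (pD a c)⁻¹ * (pD' a b c)⁻¹ * pD a c) * b⁻¹ =
        (b * pD' a b c * b⁻¹) * (b * pD a c * b⁻¹)⁻¹ * (b * pD' a b c * b⁻¹)⁻¹ *
          (b * pD a c * b⁻¹) := by group
      _ = _ := by
        rw [H.conj_b_D', H.conj_b_D]
        group
  exact (mul_inv_eq_iff_eq_mul.1 h).symm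

lemma t_w : Commute (pt a b c) (a * b * a) := (H.t_a.mul_right H.t_b).mul_right H.t_a

lemma t_D : Commute (pt a b c) (pD a c) := by
  obtain ⟨w, hw⟩ : ∃ w, w = a * b * a := ⟨_, rfl⟩
  have ht := H.t_w
  rw [← hw] at ht
  have h1 := H.conj_w_D
  rw [← hw] at h1
  have h0 := H.t_eq
  -- `w² D w⁻² = D⁻¹ t`
  have h2 : w * (w * pD a c * w⁻¹) * w⁻¹ = (pD a c)⁻¹ * pt a b c := by
    have h3 := conj_w_D' (a := a) (b := b) (c := c)
    rw [← hw] at h3
    calc w * (w * pD a c * w⁻¹) * w⁻¹ =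
        (w * pD a c * w⁻¹)⁻¹ * (w * pD' a b c * w⁻¹)⁻¹ * (w * pD a c * w⁻¹) := by
          conv_lhs => rw [h1]
          group
      _ = _ := by
        rw [h3, h1, h0]
        group
  have h4 : ∀ q, w * (w * (w * (w * q * w⁻¹) * w⁻¹) * w⁻¹) * w⁻¹ = q := by
    intro q
    have h5 : w * w * (w * w) = 1 := by
      rw [← pow_two, ← pow_two, ← pow_mul, hw]
      exact H.w4
    calc w * (w * (w * (w * q * w⁻¹) * w⁻¹) * w⁻¹) * w⁻¹ =
        w * w * (w * w) * q * (w * w * (w * w))⁻¹ := by group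
      _ = q := by rw [h5, one_mul, inv_one, mul_one]
  have h5 : w * (w * ((pD a c)⁻¹ * pt a b c) * w⁻¹) * w⁻¹ = pD a c := by
    rw [← h2]
    exact h4 _
  have h6 : w * (w * ((pD a c)⁻¹ * pt a b c) * w⁻¹) * w⁻¹ =
      ((pD a c)⁻¹ * pt a b c)⁻¹ * pt a b c := by
    have e1 : w * pt a b c * w⁻¹ = pt a b c := by rw [← ht.eq, mul_inv_cancel_right]
    calc w * (w * ((pD a c)⁻¹ * pt a b c) * w⁻¹) * w⁻¹ =
        (w * (w * pD a c * w⁻¹) * w⁻¹)⁻¹ * (w * (w * pt a b c * w⁻¹) * w⁻¹) := by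
          simp only [mul_inv_rev, inv_inv, mul_assoc, inv_mul_cancel_left]
      _ = _ := by rw [h2, e1, e1]
  rw [h6] at h5
  have h7 : (pt a b c)⁻¹ * pD a c * pt a b c = pD a c := by
    calc (pt a b c)⁻¹ * pD a c * pt a b c = ((pD a c)⁻¹ * pt a b c)⁻¹ * pt a b c := by group
      _ = _ := h5
  change _ * _ = _ * _
  calc pt a b c * pD a c = pt a b c * ((pt a b c)⁻¹ * pD a c * pt a b c) := by rw [h7]
    _ = _ := by group

omit H in
lemma X_inv' {R : Type*} [CommRing R] (t : R) : (X t)⁻¹ = X (-t) := by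
  rw [inv_eq_iff_mul_eq_one, ← X_add, add_neg_cancel, X_zero]

omit H in
lemma Y_inv' {R : Type*} [CommRing R] (t : R) : (Y t)⁻¹ = Y (-t) := by
  rw [inv_eq_iff_mul_eq_one, ← Y_add, add_neg_cancel, Y_zero]

lemma t_D' : Commute (pt a b c) (pD' a b c) := by
  have h : pD' a b c = (a * b * a)⁻¹ * pD a c * (a * b * a) := rfl
  rw [h]
  exact (H.t_w.inv_right.mul_right H.t_D).mul_right H.t_w

lemma t_c : Commute (pt a b c) c := by
  have h : c = pD a c * a := by rw [pD, inv_mul_cancel_right]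
  have h1 := H.t_D.mul_right H.t_a
  rwa [← h] at h1

lemma DD' : pD a c * pD' a b c = pD' a b c * pD a c * pt a b c := by
  have h1 : pD' a b c * (pD a c)⁻¹ * (pD' a b c)⁻¹ * pD a c =
      pD a c * pD' a b c * (pD a c)⁻¹ * (pD' a b c)⁻¹ := by
    have h2 := H.t_D.eq
    rw [H.t_eq] at h2
    have h3 : (pD' a b c * (pD a c)⁻¹ * (pD' a b c)⁻¹ * pD a c) * pD a c =
        (pD a c * pD' a b c * (pD a c)⁻¹ * (pD' a b c)⁻¹) * pD a c := by
      rw [h2]
      simp only [mul_assoc]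
    exact mul_right_cancel h3
  rw [← (H.t_D'.mul_right H.t_D).eq, H.t_eq, h1]
  group

/-- Conjugation by a word in `a`, `b`. -/
theorem act {M : ℕ} {q : Q × SpecialLinearGroup (Fin 2) (ZMod M)} (hq : q ∈ G0 M a b) :
    ∃ α β k : ℤ, 2 * k = (1 - α) * (1 - β) ∧ (α : ZMod M) = q.2.1 0 0 ∧
      (β : ZMod M) = q.2.1 1 0 ∧
      q.1 * pD a c * q.1⁻¹ = pD' a b c ^ β * pD a c ^ α * pt a b c ^ k := by
  obtain ⟨D, hD⟩ : ∃ D, D = pD a c := ⟨_, rfl⟩
  obtain ⟨E, hE⟩ : ∃ E, E = pD' a b c := ⟨_, rfl⟩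
  obtain ⟨t, ht⟩ : ∃ t, t = pt a b c := ⟨_, rfl⟩
  have hDE : D * E = E * D * t := by rw [hD, hE, ht]; exact H.DD'
  have htD : Commute t D := by rw [hD, ht]; exact H.t_D
  have htE : Commute t E := by rw [hE, ht]; exact H.t_D'
  have hta : Commute t a := by rw [ht]; exact H.t_a
  have htb : Commute t b := by rw [ht]; exact H.t_b
  have haD : a * D * a⁻¹ = D := by rw [hD]; exact H.conj_a_D
  have haE : a * E * a⁻¹ = E * D := by rw [hD, hE]; exact H.conj_a_D'
  have hbE : b * E * b⁻¹ = E := by rw [hE]; exact H.conj_b_D'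
  have hbD : b * D * b⁻¹ = E⁻¹ * D := by rw [hD, hE]; exact H.conj_b_D
  have hDE' : D⁻¹ * E = E * D⁻¹ * t⁻¹ := by
    have h1 : D⁻¹ * (D * E) * (D⁻¹ * t⁻¹) = D⁻¹ * (E * D * t) * (D⁻¹ * t⁻¹) := by rw [hDE]
    have h2 : D⁻¹ * (D * E) * (D⁻¹ * t⁻¹) = E * D⁻¹ * t⁻¹ := by group
    have h3 : D⁻¹ * (E * D * t) * (D⁻¹ * t⁻¹) = D⁻¹ * E := by
      calc D⁻¹ * (E * D * t) * (D⁻¹ * t⁻¹) = D⁻¹ * (E * D) * (t * D⁻¹ * t⁻¹) := by
            simp only [mul_assoc]
        _ = _ := by
            rw [htD.inv_right.eq]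
            group
    rw [← h3, ← h1, h2]
  have hED : D * E⁻¹ = E⁻¹ * D * t⁻¹ := by
    have h1 : E⁻¹ * (D * E) * (E⁻¹ * t⁻¹) = E⁻¹ * (E * D * t) * (E⁻¹ * t⁻¹) := by rw [hDE]
    have h2 : E⁻¹ * (D * E) * (E⁻¹ * t⁻¹) = E⁻¹ * D * t⁻¹ := by group
    have h3 : E⁻¹ * (E * D * t) * (E⁻¹ * t⁻¹) = D * E⁻¹ := by
      calc E⁻¹ * (E * D * t) * (E⁻¹ * t⁻¹) = D * (t * E⁻¹ * t⁻¹) := by group
        _ = _ := by
            rw [htE.inv_right.eq]
            group
    rw [← h3, ← h1, h2]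
  have tri : ∀ n : ℤ, ∃ l : ℤ, 2 * l = n * (n - 1) := by
    intro n
    obtain ⟨l, hl⟩ := Int.even_mul_pred_self n
    exact ⟨l, by rw [hl]; ring⟩
  rw [← hD, ← hE, ← ht]
  unfold G0 at hq
  induction hq using Subgroup.closure_induction_left with
  | one =>
    refine ⟨1, 0, 0, by ring, ?_, ?_, ?_⟩
    · rw [Int.cast_one]; rfl
    · rw [Int.cast_zero]; rfl
    · simp
  | mul_left p hp q _ ih =>
    obtain ⟨α, β, k, hk, hα, hβ, h⟩ := ih
    rcases hp with rfl | rfl
    · obtain ⟨l, hl⟩ := tri β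
      refine ⟨α + β, β, k + l, ?_, ?_, ?_, ?_⟩
      · linear_combination hk + hl
      · rw [Int.cast_add, hα, hβ]
        change _ = (X 1 * q.2).1 0 0
        rw [mul00, X00, X01]
        ring
      · rw [hβ]
        change _ = (X 1 * q.2).1 1 0
        rw [mul10, X10, X11]
        ring
      · change a * q.1 * D * (a * q.1)⁻¹ = _
        have e1 : a * E ^ β * a⁻¹ = E ^ β * D ^ β * t ^ l := by
          rw [← conj_zpow, haE, mul_zpow_t hDE htE htD β l hl]
        have e2 : a * D ^ α * a⁻¹ = D ^ α := by rw [← conj_zpow, haD]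
        have e3 : a * t ^ k * a⁻¹ = t ^ k := by
          rw [← (hta.zpow_left k).eq, mul_inv_cancel_right]
        calc a * q.1 * D * (a * q.1)⁻¹ = a * (q.1 * D * q.1⁻¹) * a⁻¹ := by group
          _ = (a * E ^ β * a⁻¹) * (a * D ^ α * a⁻¹) * (a * t ^ k * a⁻¹) := by
            rw [h]
            group
          _ = E ^ β * D ^ β * (t ^ l * D ^ α) * t ^ k := by
            rw [e1, e2, e3]
            simp only [mul_assoc]
          _ = _ := by
            rw [((htD.zpow_left l).zpow_right α).eq, add_comm α β, _root_.zpow_add D,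
              add_comm k l, _root_.zpow_add t]
            simp only [mul_assoc]
    · obtain ⟨l, hl⟩ := tri α
      refine ⟨α, β - α, k - l, ?_, ?_, ?_, ?_⟩
      · linear_combination hk - hl
      · rw [hα]
        change _ = (Y (-1) * q.2).1 0 0
        rw [mul00, Y00, Y01]
        ring
      · rw [Int.cast_sub, hα, hβ]
        change _ = (Y (-1) * q.2).1 1 0
        rw [mul10, Y10, Y11]
        ring
      · change b * q.1 * D * (b * q.1)⁻¹ = _
        have e1 : b * E ^ β * b⁻¹ = E ^ β := by rw [← conj_zpow, hbE]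
        have e2 : b * D ^ α * b⁻¹ = (E⁻¹) ^ α * D ^ α * (t⁻¹) ^ l := by
          rw [← conj_zpow, hbD, mul_zpow_t hED htE.inv_left.inv_right htD.inv_left α l hl]
        have e3 : b * t ^ k * b⁻¹ = t ^ k := by
          rw [← (htb.zpow_left k).eq, mul_inv_cancel_right]
        calc b * q.1 * D * (b * q.1)⁻¹ = b * (q.1 * D * q.1⁻¹) * b⁻¹ := by group
          _ = (b * E ^ β * b⁻¹) * (b * D ^ α * b⁻¹) * (b * t ^ k * b⁻¹) := by
            rw [h]
            group
          _ = (E ^ β * (E⁻¹) ^ α) * D ^ α * ((t⁻¹) ^ l * t ^ k) := by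
            rw [e1, e2, e3]
            simp only [mul_assoc]
          _ = _ := by
            rw [inv_zpow', inv_zpow', ← _root_.zpow_add, ← _root_.zpow_add, ← sub_eq_add_neg,
              neg_add_eq_sub]
  | inv_mul_cancel p hp q _ ih =>
    obtain ⟨α, β, k, hk, hα, hβ, h⟩ := ih
    have ha' : a⁻¹ * E * a = E * D⁻¹ := by
      have h1 : a⁻¹ * (a * E * a⁻¹) * a = (a⁻¹ * E * a) * (a⁻¹ * (a * D * a⁻¹) * a) := by
        rw [haE, haD]
        group
      have h2 : a⁻¹ * (a * E * a⁻¹) * a = E := by group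
      have h3 : a⁻¹ * (a * D * a⁻¹) * a = D := by group
      rw [h2, h3] at h1
      rw [eq_mul_inv_iff_mul_eq, ← h1]
    have haD' : a⁻¹ * D * a = D := by
      have h3 : a⁻¹ * (a * D * a⁻¹) * a = D := by group
      rwa [haD] at h3
    have hbE' : b⁻¹ * E * b = E := by
      have h3 : b⁻¹ * (b * E * b⁻¹) * b = E := by group
      rwa [hbE] at h3
    have hb' : b⁻¹ * D * b = E * D := by
      have h1 : b⁻¹ * (b * D * b⁻¹) * b = (b⁻¹ * E * b)⁻¹ * (b⁻¹ * D * b) := by
        rw [hbD]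
        group
      have h2 : b⁻¹ * (b * D * b⁻¹) * b = D := by group
      rw [h2, hbE', eq_inv_mul_iff_mul_eq] at h1
      exact h1.symm
    rcases hp with rfl | rfl
    · obtain ⟨l, hl⟩ := tri β
      refine ⟨α - β, β, k - l, ?_, ?_, ?_, ?_⟩
      · linear_combination hk - hl
      · rw [Int.cast_sub, hα, hβ]
        change _ = ((X 1)⁻¹ * q.2).1 0 0
        rw [X_inv', mul00, X00, X01]
        ring
      · rw [hβ]
        change _ = ((X 1)⁻¹ * q.2).1 1 0
        rw [X_inv', mul10, X10, X11]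
        ring
      · change a⁻¹ * q.1 * D * (a⁻¹ * q.1)⁻¹ = _
        have e1 : a⁻¹ * E ^ β * a = E ^ β * (D⁻¹) ^ β * (t⁻¹) ^ l := by
          have e0 := conj_zpow (i := β) (a := a⁻¹) (b := E)
          rw [inv_inv] at e0
          rw [← e0, ha', mul_zpow_t hDE' htE.inv_left htD.inv_left.inv_right β l hl]
        have e2 : a⁻¹ * D ^ α * a = D ^ α := by
          have e0 := conj_zpow (i := α) (a := a⁻¹) (b := D)
          rw [inv_inv] at e0
          rw [← e0, haD']
        have e3 : a⁻¹ * t ^ k * a = t ^ k := by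
          rw [mul_assoc, (hta.zpow_left k).eq, inv_mul_cancel_left]
        calc a⁻¹ * q.1 * D * (a⁻¹ * q.1)⁻¹ = a⁻¹ * (q.1 * D * q.1⁻¹) * a := by group
          _ = (a⁻¹ * E ^ β * a) * (a⁻¹ * D ^ α * a) * (a⁻¹ * t ^ k * a) := by
            rw [h]
            group
          _ = E ^ β * (D⁻¹) ^ β * ((t⁻¹) ^ l * D ^ α) * t ^ k := by
            rw [e1, e2, e3]
            simp only [mul_assoc]
          _ = E ^ β * ((D⁻¹) ^ β * D ^ α) * ((t⁻¹) ^ l * t ^ k) := by
            rw [((htD.inv_left.zpow_left l).zpow_right α).eq]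
            simp only [mul_assoc]
          _ = _ := by
            rw [inv_zpow', inv_zpow', ← _root_.zpow_add, ← _root_.zpow_add, neg_add_eq_sub,
              neg_add_eq_sub]
    · obtain ⟨l, hl⟩ := tri α
      refine ⟨α, β + α, k + l, ?_, ?_, ?_, ?_⟩
      · linear_combination hk + hl
      · rw [hα]
        change _ = ((Y (-1))⁻¹ * q.2).1 0 0
        rw [Y_inv', mul00, Y00, Y01]
        ring
      · rw [Int.cast_add, hα, hβ]
        change _ = ((Y (-1))⁻¹ * q.2).1 1 0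
        rw [Y_inv', mul10, Y10, Y11]
        ring
      · change b⁻¹ * q.1 * D * (b⁻¹ * q.1)⁻¹ = _
        have e1 : b⁻¹ * E ^ β * b = E ^ β := by
          have e0 := conj_zpow (i := β) (a := b⁻¹) (b := E)
          rw [inv_inv] at e0
          rw [← e0, hbE']
        have e2 : b⁻¹ * D ^ α * b = E ^ α * D ^ α * t ^ l := by
          have e0 := conj_zpow (i := α) (a := b⁻¹) (b := D)
          rw [inv_inv] at e0
          rw [← e0, hb', mul_zpow_t hDE htE htD α l hl]
        have e3 : b⁻¹ * t ^ k * b = t ^ k := by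
          rw [mul_assoc, (htb.zpow_left k).eq, inv_mul_cancel_left]
        calc b⁻¹ * q.1 * D * (b⁻¹ * q.1)⁻¹ = b⁻¹ * (q.1 * D * q.1⁻¹) * b := by group
          _ = (b⁻¹ * E ^ β * b) * (b⁻¹ * D ^ α * b) * (b⁻¹ * t ^ k * b) := by
            rw [h]
            group
          _ = (E ^ β * E ^ α) * D ^ α * (t ^ l * t ^ k) := by
            rw [e1, e2, e3]
            simp only [mul_assoc]
          _ = _ := by
            rw [← _root_.zpow_add, ← _root_.zpow_add, add_comm k l]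

/-- Conjugation by an element of the torus, when the exponent is known. -/
theorem torus {e : ℕ} (he : ∀ q : Q, q ^ e = 1) {g : Q} {u : (ZMod (8 * e))ˣ}
    (hg : (g, Dg u) ∈ G0 (8 * e) a b) {l m : ℤ} (hl : (l : ZMod (8 * e)) = u)
    (hm : 2 * m = 1 - l) :
    g * pD a c * g⁻¹ = pD a c ^ l * pt a b c ^ m := by
  obtain ⟨α, β, k, hk, hα, hβ, h⟩ := H.act hg
  have hz : ∀ (q : Q) (n n' : ℤ), (e : ℤ) ∣ n - n' → q ^ n = q ^ n' := by
    rintro q n n' ⟨j, hj⟩
    have h1 : n = (e : ℤ) * j + n' := by omega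
    rw [h1, _root_.zpow_add, zpow_mul, zpow_natCast, he, one_zpow, one_mul]
  have h1 : ((8 * e : ℕ) : ℤ) ∣ α - l := by
    rw [← ZMod.intCast_eq_intCast_iff_dvd_sub, hl]
    exact hα.symm
  have h2 : ((8 * e : ℕ) : ℤ) ∣ β := by
    rw [← ZMod.intCast_zmod_eq_zero_iff_dvd, hβ]
    rfl
  obtain ⟨i, hi⟩ := h1
  obtain ⟨j, hj⟩ := h2
  push_cast at hi hj
  have h3 : g * pD a c * g⁻¹ = pD' a b c ^ β * pD a c ^ α * pt a b c ^ k := h
  rw [h3, hz (pD' a b c) β 0 ⟨8 * j, by rw [hj]; ring⟩, hz (pD a c) α l ⟨8 * i, by rw [hi]; ring⟩,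
    hz (pt a b c) k m ?_, zpow_zero, one_mul]
  refine ⟨-(4 * i) - 8 * j * m + 32 * e * i * j, ?_⟩
  have h4 : α = l + 8 * e * i := by linarith
  have h5 : 2 * k = 2 * m - 8 * e * i - 8 * e * j * (2 * m) + 64 * e * e * i * j := by
    rw [hk, h4, hj, hm]
    ring
  linarith

end Br3

end br

end Pool.Agent.H.MP_59b15d_al.R1
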