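/-
Symbols in rank one over `Z / 2^k`: `w(1)^8 = 1`. With the odd prime powers: `w(1)^8 = 1` for every
level, without any hypothesis on the orders of the elements of the central subgroup.
-/
import Pool.Agent.H.MP_59b15d_al.h11r.Sym

set_option autoImplicit false

namespace Pool.Agent.H.MP_59b15d_al.R1

section

variable {R S : Type*} [CommRing R] [Group S]

namespace St

/-- A torus element over `diag(u, u⁻¹)`. -/
def Hb (x y : R → S) (u b : Rˣ) : S := hh x y (u * b⁻¹) * (hh x y b⁻¹)⁻¹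

variable {x y : R → S} (H : St x y)
include H

lemma ww_inv (u : Rˣ) : ww x y 1 * ww x y u⁻¹ = ww x y u * ww x y 1 := by
  have h1 : ∀ t, ww x y 1 * x t = y (-t) * ww x y 1 := by
    intro t
    have h := H.wx 1 t
    rwa [inv_one, Units.val_one, one_pow, one_mul] at h
  have h2 : ∀ t, ww x y 1 * y t = x (-t) * ww x y 1 := by
    intro t
    have h := H.wy 1 t
    rwa [Units.val_one, one_pow, one_mul] at h
  calc ww x y 1 * ww x y u⁻¹ = (ww x y 1 * x ↑u⁻¹) * y (-↑(u⁻¹)⁻¹) * x ↑u⁻¹ := by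
        rw [ww, ww]
        simp only [mul_assoc]
    _ = y (-↑u⁻¹) * (ww x y 1 * y (-↑(u⁻¹)⁻¹)) * x ↑u⁻¹ := by
        rw [h1]
        simp only [mul_assoc]
    _ = y (-↑u⁻¹) * x (- -↑(u⁻¹)⁻¹) * (ww x y 1 * x ↑u⁻¹) := by
        rw [h2]
        simp only [mul_assoc]
    _ = y (-↑u⁻¹) * x ↑u * y (-↑u⁻¹) * ww x y 1 := by
        rw [h1, neg_neg, inv_inv]
        simp only [mul_assoc]
    _ = _ := by rw [← H.ww_alt]

lemma hh_neg (u : Rˣ) : hh x y (-u) = (hh x y u⁻¹)⁻¹ * hh x y (-1) := by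
  have h1 := H.ww_inv u
  have h2 : (ww x y u)⁻¹ = ww x y 1 * (ww x y u⁻¹)⁻¹ * (ww x y 1)⁻¹ := by
    rw [← inv_inj, inv_inv]
    have : (ww x y 1 * (ww x y u⁻¹)⁻¹ * (ww x y 1)⁻¹)⁻¹ =
        ww x y 1 * ww x y u⁻¹ * (ww x y 1)⁻¹ := by group
    rw [this, h1, mul_inv_cancel_right]
  rw [hh, hh, hh, H.ww_neg, H.ww_neg, h2]
  group

lemma Hb_y (u b : Rˣ) (t : R) : Hb x y u b * y t = y ((↑u⁻¹ : R) ^ 2 * t) * Hb x y u b := by
  have h1 : (hh x y b⁻¹)⁻¹ * y t = y ((↑b⁻¹ : R) ^ 2 * t) * (hh x y b⁻¹)⁻¹ := by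
    rw [inv_mul_eq_iff_eq_mul, ← mul_assoc, eq_mul_inv_iff_mul_eq, H.hy, inv_inv, ← mul_assoc,
      ← mul_pow, Units.mul_inv, one_pow, one_mul]
  rw [Hb, mul_assoc, h1, ← mul_assoc, H.hy]
  have e : (↑(u * b⁻¹)⁻¹ : R) ^ 2 * ((↑b⁻¹ : R) ^ 2 * t) = (↑u⁻¹ : R) ^ 2 * t := by
    have e1 : (↑(u * b⁻¹)⁻¹ : R) * ↑b⁻¹ = ↑u⁻¹ := by
      rw [← Units.val_mul, mul_inv, inv_inv, mul_assoc, mul_inv_cancel, mul_one]
    rw [← mul_assoc, ← mul_pow, e1]
  rw [e]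
  simp only [mul_assoc]

lemma E1 (a : R) (b u : Rˣ) (hu : (u : R) = 1 + a * b) :
    x a * y b = y ((b : R) * ↑u⁻¹) * Hb x y u b * x (a * ↑u⁻¹) := by
  have hub : (u : R) * ↑u⁻¹ = 1 := Units.mul_inv u
  have hbb : (b : R) * ↑b⁻¹ = 1 := Units.mul_inv b
  -- `y c` in terms of `w`
  have hyw : ∀ c : Rˣ, y (c : R) = x ↑c⁻¹ * (ww x y c⁻¹)⁻¹ * x ↑c⁻¹ := by
    intro c
    have h : ww x y (-c⁻¹) = x (-↑c⁻¹) * y ↑c * x (-↑c⁻¹) := by
      rw [ww, inv_neg_units, inv_inv, Units.val_neg, Units.val_neg, neg_neg]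
    rw [← H.ww_neg, h, H.xn]
    group
  have hv1 : ∀ (v : Rˣ) (t : R), (ww x y v)⁻¹ * x (-((v : R) ^ 2 * t)) = y t * (ww x y v)⁻¹ := by
    intro v t
    rw [inv_mul_eq_iff_eq_mul, ← mul_assoc, eq_mul_inv_iff_mul_eq, H.wy]
  obtain ⟨v, hv⟩ : ∃ v : Rˣ, v = u * b⁻¹ := ⟨_, rfl⟩
  have hvR : (v : R) = a + ↑b⁻¹ := by
    rw [hv, Units.val_mul]
    linear_combination (↑b⁻¹ : R) * hu + a * hbb
  have hvi : (↑v⁻¹ : R) = (b : R) * ↑u⁻¹ := by
    rw [hv, mul_inv, inv_inv, Units.val_mul, mul_comm]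
  have e1 : y ((b : R) * ↑u⁻¹) = x ↑v * (ww x y v)⁻¹ * x ↑v := by
    have h := hyw v⁻¹
    rwa [inv_inv, hvi] at h
  have e2 : (ww x y v)⁻¹ * x ↑v = y (-↑v⁻¹) * (ww x y v)⁻¹ := by
    rw [← hv1]
    congr 2
    have : (v : R) * ↑v⁻¹ = 1 := Units.mul_inv v
    linear_combination (-(v : R)) * this
  have e3 : Hb x y u b = ww x y v * (ww x y b⁻¹)⁻¹ := by
    rw [Hb, hh, hh, ← hv]
    group
  have e4 : (ww x y b⁻¹)⁻¹ * x ↑b⁻¹ = y (-↑v⁻¹) * (ww x y b⁻¹)⁻¹ * x (a * ↑u⁻¹) := by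
    rw [← hv1, mul_assoc, ← H.xa]
    congr 2
    rw [hvi]
    linear_combination (-(↑b⁻¹ : R)) * hub + (↑b⁻¹ : R) * (↑u⁻¹ : R) * hu +
      (a * (↑u⁻¹ : R) - (↑b⁻¹ : R) * (↑u⁻¹ : R)) * hbb
  calc x a * y b = (x a * x ↑b⁻¹) * ((ww x y b⁻¹)⁻¹ * x ↑b⁻¹) := by
        rw [hyw b]
        simp only [mul_assoc]
    _ = x v * (y (-↑v⁻¹) * (ww x y b⁻¹)⁻¹ * x (a * ↑u⁻¹)) := by
        rw [← H.xa, ← hvR, e4]
    _ = x v * ((y (-↑v⁻¹) * (ww x y v)⁻¹) * (ww x y v * (ww x y b⁻¹)⁻¹)) * x (a * ↑u⁻¹) := by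
        group
    _ = _ := by
        rw [← e2, e1, e3]
        simp only [mul_assoc]

lemma E2 (a : R) (b c u U : Rˣ) (hu : (u : R) = 1 + a * b) (hU : (U : R) = 1 + a * (b + c)) :
    x a * y ((b : R) + c) =
      y (((b : R) + c) * ↑U⁻¹) * (Hb x y u b * Hb x y (U * u⁻¹) c) * x (a * ↑U⁻¹) := by
  have huu : (u : R) * ↑u⁻¹ = 1 := Units.mul_inv u
  have hUU : (U : R) * ↑U⁻¹ = 1 := Units.mul_inv U
  have h1 := H.E1 a b u hu
  have h2 := H.E1 (a * ↑u⁻¹) c (U * u⁻¹) (by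
    rw [Units.val_mul]
    linear_combination (↑u⁻¹ : R) * hU - (↑u⁻¹ : R) * hu + huu)
  have e0 : (↑(U * u⁻¹)⁻¹ : R) = (u : R) * ↑U⁻¹ := by
    rw [mul_inv, inv_inv, Units.val_mul, mul_comm]
  rw [e0] at h2
  have e1 : a * ↑u⁻¹ * ((u : R) * ↑U⁻¹) = a * ↑U⁻¹ := by
    linear_combination (a * (↑U⁻¹ : R)) * huu
  rw [e1] at h2
  have e2 : (b : R) * ↑u⁻¹ + (↑u⁻¹ : R) ^ 2 * ((c : R) * ((u : R) * ↑U⁻¹)) =
      ((b : R) + c) * ↑U⁻¹ := by
    linear_combination (↑u⁻¹ : R) * (↑U⁻¹ : R) * (b : R) * hU - (b : R) * (↑u⁻¹ : R) * hUU +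
      ((↑u⁻¹ : R) * (↑U⁻¹ : R) * (c : R) + (↑U⁻¹ : R) * ((b : R) + c)) * huu -
      (↑u⁻¹ : R) * (↑U⁻¹ : R) * ((b : R) + c) * hu
  rw [H.ya, ← mul_assoc, h1, mul_assoc _ (x (a * ↑u⁻¹)), h2]
  calc y (↑b * ↑u⁻¹) * Hb x y u b * (y (↑c * (↑u * ↑U⁻¹)) * Hb x y (U * u⁻¹) c * x (a * ↑U⁻¹)) =
      y (↑b * ↑u⁻¹) * (Hb x y u b * y (↑c * (↑u * ↑U⁻¹))) * Hb x y (U * u⁻¹) c * x (a * ↑U⁻¹) := by
        simp only [mul_assoc]
    _ = y (↑b * ↑u⁻¹) * (y ((↑u⁻¹ : R) ^ 2 * (↑c * (↑u * ↑U⁻¹))) * Hb x y u b) *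
        Hb x y (U * u⁻¹) c * x (a * ↑U⁻¹) := by rw [H.Hb_y]
    _ = _ := by
        rw [← e2, H.ya]
        simp only [mul_assoc]

/-- The basic relation. -/
lemma rel (a : R) (b c u b' c' u' U : Rˣ) (hb : (b : R) + c = b' + c')
    (hu : (u : R) = 1 + a * b) (hu' : (u' : R) = 1 + a * b') (hU : (U : R) = 1 + a * (b + c)) :
    Hb x y u b * Hb x y (U * u⁻¹) c = Hb x y u' b' * Hb x y (U * u'⁻¹) c' := by
  have h1 := H.E2 a b c u U hu hU
  have h2 := H.E2 a b' c' u' U hu' (by rw [hU, hb])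
  rw [← hb, h1] at h2
  exact mul_left_cancel (mul_right_cancel h2)

/-- The symbol theorem for the prime two, abstract form. -/
theorem ww_eight_aux (hc : ∀ u v : Rˣ, Commute (hh x y u) (hh x y v)) (th fi t : Rˣ)
    (h3 : (th : R) = 3) (h5 : (fi : R) = 5) (ht : th = -t ^ 2 ∨ th = -(t ^ 2 * fi)) :
    ww x y 1 ^ 8 = 1 := by
  have hm1 : (-1 : Rˣ)⁻¹ = -1 := by rw [inv_neg_units, inv_one]
  have hH1 : ∀ u : Rˣ, Hb x y u 1 = hh x y u := by
    intro u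
    rw [Hb, inv_one, mul_one, hh_one, inv_one, mul_one]
  -- first relation
  have r1 : (hh x y th * hh x y th⁻¹) ^ 2 = 1 := by
    have h := H.rel (-2) 1 1 (-1) (-1) th th (-th) (by
        rw [Units.val_neg, Units.val_one, h3]; norm_num) (by
        rw [Units.val_neg, Units.val_one]; norm_num) (by
        rw [Units.val_neg, Units.val_one, h3]; norm_num) (by
        rw [Units.val_neg, Units.val_one, h3]; norm_num)
    have e1 : -th * (-1 : Rˣ)⁻¹ = th := by rw [hm1, neg_mul_neg, mul_one]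
    have e2 : -th * th⁻¹ = -1 := by rw [neg_mul, mul_inv_cancel]
    have e3 : th * (-1 : Rˣ)⁻¹ = -th := by rw [hm1, mul_neg, mul_one]
    have e4 : (-1 : Rˣ) * th⁻¹ = -th⁻¹ := by rw [neg_mul, one_mul]
    rw [e1, e2, hH1, hH1, Hb, Hb, e3, e4, hm1, H.hh_neg th, H.hh_neg th⁻¹, inv_inv] at h
    have h' : hh x y (-1) * hh x y th =
        (hh x y th⁻¹)⁻¹ * (hh x y th)⁻¹ * hh x y (-1) * (hh x y th⁻¹)⁻¹ := by
      rw [h]
      group
    rw [mul_assoc _ (hh x y (-1)) (hh x y th⁻¹)⁻¹, ((hc (-1) th⁻¹).inv_right).eq,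
      ← mul_assoc] at h'
    have h'' : hh x y th * hh x y (-1) =
        (hh x y th⁻¹)⁻¹ * (hh x y th)⁻¹ * (hh x y th⁻¹)⁻¹ * hh x y (-1) := by
      rw [← h', (hc th (-1)).eq]
    have h3 := mul_right_cancel h''
    rw [pow_two]
    nth_rewrite 1 [h3]
    group
  -- second relation
  have r2 : hh x y fi * hh x y fi⁻¹ = 1 := by
    have h := H.rel 4 1 1 fi (-1) th (-th) (th ^ 2) (by
        rw [Units.val_neg, Units.val_one, h3]; norm_num) (by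
        rw [Units.val_one, h5]; norm_num) (by
        rw [Units.val_neg, Units.val_neg, Units.val_one, h3]; norm_num) (by
        rw [Units.val_pow_eq_pow_val, Units.val_one, h3]; norm_num)
    have e1 : -th * (-1 : Rˣ)⁻¹ = th := by rw [hm1, neg_mul_neg, mul_one]
    have e2 : th ^ 2 * (-th)⁻¹ = -th := by
      rw [inv_neg_units, mul_neg, pow_two, mul_inv_cancel_right]
    have e3 : -th * th⁻¹ = -1 := by rw [neg_mul, mul_inv_cancel]
    rw [hH1, hH1, Hb, e1, e2, Hb, e3, hm1, ← H.hh_sq hc th fi⁻¹] at h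
    have h4 : hh x y th = hh x y (th ^ 2) * hh x y th⁻¹ := by
      rw [H.hh_sq hc]
      congr 1
      rw [pow_two, mul_inv_cancel_right]
    have h5 : hh x y th * (hh x y (-1))⁻¹ * (hh x y (-1) * (hh x y th⁻¹)⁻¹) = hh x y (th ^ 2) := by
      rw [mul_assoc, inv_mul_cancel_left, h4, mul_inv_cancel_right]
    rw [h5, ← mul_assoc, (hc fi (th ^ 2)).eq, mul_assoc] at h
    exact mul_eq_left.1 h
  have hsq : ∀ s : Rˣ, hh x y (s ^ 2) * hh x y (s ^ 2)⁻¹ = 1 := by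
    intro s
    rw [H.hh_sq hc, mul_inv_cancel, hh_one]
  -- negatives
  have hneg : ∀ v : Rˣ, hh x y v * hh x y v⁻¹ = 1 →
      hh x y (-v) * hh x y (-v)⁻¹ = hh x y (-1) * hh x y (-1) := by
    intro v hv
    rw [inv_neg_units, H.hh_neg v, H.hh_neg v⁻¹, inv_inv]
    have h1 : (hh x y v⁻¹)⁻¹ = hh x y v := by
      rw [inv_eq_iff_mul_eq_one, (hc v⁻¹ v).eq, hv]
    rw [h1, (hc v (-1)).eq, mul_assoc, mul_inv_cancel_left]
  have r3 : hh x y th * hh x y th⁻¹ = hh x y (-1) * hh x y (-1) := by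
    rcases ht with h | h
    · rw [h]
      exact hneg _ (hsq t)
    · rw [h]
      apply hneg
      have e1 : (t ^ 2 * fi)⁻¹ = (t⁻¹) ^ 2 * fi⁻¹ := by rw [mul_inv, inv_pow]
      rw [e1, ← H.hh_sq hc, ← H.hh_sq hc]
      have h1 := hsq t
      rw [← inv_pow] at h1
      calc hh x y (t ^ 2) * hh x y fi * (hh x y (t⁻¹ ^ 2) * hh x y fi⁻¹) =
          hh x y (t ^ 2) * (hh x y fi * hh x y (t⁻¹ ^ 2)) * hh x y fi⁻¹ := by
            simp only [mul_assoc]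
        _ = (hh x y (t ^ 2) * hh x y (t⁻¹ ^ 2)) * (hh x y fi * hh x y fi⁻¹) := by
            rw [(hc fi (t⁻¹ ^ 2)).eq]
            simp only [mul_assoc]
        _ = 1 := by rw [h1, r2, mul_one]
  rw [r3] at r1
  have h4 : hh x y (-1) = (ww x y 1)⁻¹ * (ww x y 1)⁻¹ := by rw [hh, H.ww_neg]
  rw [h4] at r1
  have h6 : (ww x y 1 ^ 8)⁻¹ = 1 := by
    rw [← r1]
    group
  rwa [inv_eq_one] at h6

/-- If every unit is plus or minus a power of one unit then all `h(u)` commute. -/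
theorem hh_comm_neg (g : Rˣ) (hg : ∀ u : Rˣ, ∃ n : ℕ, u = g ^ n ∨ u = -g ^ n) (u v : Rˣ) :
    Commute (hh x y u) (hh x y v) := by
  have hm : ∀ v : Rˣ, Commute (hh x y (-1)) (hh x y v) := by
    intro v
    have h := H.hh_hh (-1) v
    rwa [neg_one_sq, one_mul, hh_one, inv_one, mul_one] at h
  have key : ∀ w : Rˣ, Commute (hh x y w) (hh x y g) → ∀ n : ℕ,
      Commute (hh x y w) (hh x y (g ^ n)) := by
    intro w hw n
    induction n with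
    | zero => rw [pow_zero, hh_one]; exact Commute.one_right _
    | succ n ih =>
      rw [pow_succ]
      exact comm_mul hw ih ((H.cen_c _ _).hh w).symm
  have key2 : ∀ w : Rˣ, Commute (hh x y w) (hh x y g) → ∀ v, Commute (hh x y w) (hh x y v) := by
    intro w hw v
    obtain ⟨n, rfl | rfl⟩ := hg v
    · exact key w hw n
    · have e : -g ^ n = (-1) * g ^ n := by rw [neg_mul, one_mul]
      rw [e]
      exact comm_mul (key w hw n) (hm w).symm ((H.cen_c _ _).hh w).symm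
  have h1 := key2 g (Commute.refl _)
  exact key2 u (h1 u).symm v

end St

/-- The units of `Z / 2^k`. -/
lemma units_two (k : ℕ) : ∃ th fi t : (ZMod (2 ^ k))ˣ, (th : ZMod (2 ^ k)) = 3 ∧
    (fi : ZMod (2 ^ k)) = 5 ∧ (th = -t ^ 2 ∨ th = -(t ^ 2 * fi)) ∧
    ∀ u : (ZMod (2 ^ k))ˣ, ∃ n : ℕ, u = fi ^ n ∨ u = -fi ^ n := by
  obtain ⟨th, h3⟩ : ∃ th : (ZMod (2 ^ k))ˣ, (th : ZMod (2 ^ k)) = 3 :=
    ⟨ZMod.unitOfCoprime 3 (Nat.Coprime.pow_right k (by norm_num)),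
      (ZMod.coe_unitOfCoprime 3 _).trans (by norm_num)⟩
  obtain ⟨fi, h5⟩ : ∃ fi : (ZMod (2 ^ k))ˣ, (fi : ZMod (2 ^ k)) = 5 :=
    ⟨ZMod.unitOfCoprime 5 (Nat.Coprime.pow_right k (by norm_num)),
      (ZMod.coe_unitOfCoprime 5 _).trans (by norm_num)⟩
  match k, th, fi, h3, h5 with
  | 0, th, fi, h3, h5 =>
    have : Subsingleton (ZMod (2 ^ 0)) := by
      rw [pow_zero]
      infer_instance
    exact ⟨th, fi, 1, h3, h5, Or.inl (Subsingleton.elim _ _),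
      fun u => ⟨0, Or.inl (Subsingleton.elim _ _)⟩⟩
  | 1, th, fi, h3, h5 =>
    have : Subsingleton (ZMod (2 ^ 1))ˣ := by
      rw [pow_one]
      exact ⟨by decide⟩
    exact ⟨th, fi, 1, h3, h5, Or.inl (Subsingleton.elim _ _),
      fun u => ⟨0, Or.inl (Subsingleton.elim _ _)⟩⟩
  | n + 2, th, fi, h3, h5 =>
    have hne : NeZero (2 ^ (n + 2)) := ⟨pow_ne_zero _ two_ne_zero⟩
    have hd : 4 ∣ 2 ^ (n + 2) := by
      rw [pow_add]
      exact Dvd.intro_left _ rfl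
    let φ : ZMod (2 ^ (n + 2)) →+* ZMod 4 := ZMod.castHom hd (ZMod 4)
    have hφ5 : φ (fi : ZMod (2 ^ (n + 2))) = 1 := by
      rw [h5, map_ofNat]
      decide
    have hφ3 : φ (th : ZMod (2 ^ (n + 2))) = 3 := by
      rw [h3, map_ofNat]
    have hφp : ∀ m : ℕ, φ ((fi ^ m : (ZMod (2 ^ (n + 2)))ˣ) : ZMod (2 ^ (n + 2))) = 1 := by
      intro m
      rw [Units.val_pow_eq_pow_val, map_pow, hφ5, one_pow]
    have ho : orderOf fi = 2 ^ n := by
      rw [← orderOf_units, h5]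
      exact ZMod.orderOf_five n
    have hmem : ∀ u ∈ Subgroup.zpowers fi, ∃ m : ℕ, u = fi ^ m := by
      intro u hu
      obtain ⟨m, hm⟩ := (Submonoid.mem_powers_iff _ _).1
        ((mem_powers_iff_mem_zpowers).2 hu)
      exact ⟨m, hm.symm⟩
    have hm1 : (-1 : (ZMod (2 ^ (n + 2)))ˣ) ∉ Subgroup.zpowers fi := by
      intro h
      obtain ⟨m, hm⟩ := hmem _ h
      have h1 := hφp m
      rw [← hm, Units.val_neg, Units.val_one, map_neg, map_one] at h1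
      exact absurd h1 (by decide)
    have hidx : (Subgroup.zpowers fi).index = 2 := by
      have h1 := Subgroup.card_mul_index (Subgroup.zpowers fi)
      rw [Nat.card_zpowers, ho, Nat.card_eq_fintype_card, ZMod.card_units_eq_totient,
        Nat.totient_prime_pow_succ Nat.prime_two] at h1
      have h2 : 2 ^ (n + 1) * (2 - 1) = 2 ^ n * 2 := by ring
      rw [h2] at h1
      exact Nat.eq_of_mul_eq_mul_left (pow_pos two_pos n) h1
    have hgen : ∀ u : (ZMod (2 ^ (n + 2)))ˣ, ∃ m : ℕ, u = fi ^ m ∨ u = -fi ^ m := by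
      intro u
      by_cases hu : u ∈ Subgroup.zpowers fi
      · obtain ⟨m, hm⟩ := hmem u hu
        exact ⟨m, Or.inl hm⟩
      · have h1 : -1 * u ∈ Subgroup.zpowers fi := by
          rw [Subgroup.mul_mem_iff_of_index_two hidx]
          exact iff_of_false hm1 hu
        obtain ⟨m, hm⟩ := hmem _ h1
        refine ⟨m, Or.inr ?_⟩
        rw [← hm, neg_mul, one_mul, neg_neg]
    refine ⟨th, fi, ?_⟩
    obtain ⟨m, hm | hm⟩ := hgen th
    · exfalso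
      have h1 := hφp m
      rw [← hm, hφ3] at h1
      exact absurd h1 (by decide)
    · rcases Nat.even_or_odd' m with ⟨j, rfl | rfl⟩
      · refine ⟨fi ^ j, h3, h5, Or.inl ?_, hgen⟩
        rw [hm, ← pow_mul, mul_comm j 2]
      · refine ⟨fi ^ j, h3, h5, Or.inr ?_, hgen⟩
        rw [hm, ← pow_mul, mul_comm j 2, ← pow_succ]

/-- **The symbol theorem for the prime two.** -/
theorem St.ww_eight {S : Type*} [Group S] {k : ℕ} {x y : ZMod (2 ^ k) → S} (H : St x y) :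
    ww x y 1 ^ 8 = 1 := by
  obtain ⟨th, fi, t, h3, h5, ht, hg⟩ := units_two k
  exact H.ww_eight_aux (H.hh_comm_neg fi hg) th fi t h3 h5 ht

end

end Pool.Agent.H.MP_59b15d_al.R1
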