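/-
Rank one, enlarged centre: an element `σ` with `h(u) A h(u)⁻¹ = A ^ (u^2) σ ^ (-(u^2 - 1) / 8)`
satisfies `σ ^ 3 = 1`.
-/
import Pool.Agent.H.MP_59b15d_al.h11r.Even
import Pool.Agent.H.MP_59b15d_al.h11r.Canon

set_option autoImplicit false

namespace Pool.Agent.H.MP_59b15d_al.R1

open Matrix

section

variable {S : Type*} [Group S] {Z : Subgroup S}

/-- **The symbol theorem for every level**, no hypothesis on the orders of the central elements. -/
theorem Dat.ww_eight : ∀ (M : ℕ), M ≠ 0 → ∀ (x y : ZMod M → S), Dat Z x y → ww x y 1 ^ 8 = 1 := by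
  intro M
  induction M using Nat.recOnPrimeCoprime with
  | zero => exact fun h => absurd rfl h
  | prime_pow q j hq =>
    intro _ x y D
    by_cases h2 : q = 2
    · subst h2
      exact D.toSt.ww_eight
    · have : Fact q.Prime := ⟨hq⟩
      have h4 := St.ww_four_odd h2 D.toSt
      have e : ww x y 1 ^ 8 = (ww x y 1 ^ 4) ^ 2 := by rw [← pow_mul]
      rw [e, h4, one_pow]
  | coprime m n hm hn hmn ih1 ih2 =>
    intro _ x y D
    let e : ZMod (m * n) ≃+* ZMod m × ZMod n := ZMod.chineseRemainder hmn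
    have D' := D.map e
    have hm0 : ((m : ℕ) : ZMod m) = 0 := ZMod.natCast_self m
    have hn0 : ((n : ℕ) : ZMod n) = 0 := ZMod.natCast_self n
    have h1 := ih1 (by omega) _ _ (D'.left hmn hm0 hn0)
    have h2 := ih2 (by omega) _ _ (D'.right hmn hm0 hn0)
    have h3 := D'.ww_prod hmn hm0 hn0 h1 h2
    have h4 : ww (fun t => x (e.symm t)) (fun t => y (e.symm t)) 1 = ww x y 1 := by
      rw [ww, ww, inv_one, inv_one, Units.val_one, Units.val_one, map_neg, map_one]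
    rwa [h4] at h3

end

section

variable {S : Type*} [Group S] {A B σ : S} {M : ℕ}

/-- **Rank one with the enlarged centre.** -/
theorem sigma_cube (hM : M ≠ 0) (h8 : 8 ∣ M) (hσA : Commute σ A) (hσB : Commute σ B)
    (hbr : A * B * A = B * A * B) (h6 : (A * B) ^ 6 = 1) (hAM : A ^ M = σ ^ (M / 8))
    (hW : ∀ s, (s, (1 : SpecialLinearGroup (Fin 2) (ZMod M))) ∈ G0 M A B →
      Commute s A ∧ Commute s B)
    (hT : ∀ u : (ZMod M)ˣ, ∃ g, (g, Dg u) ∈ G0 M A B ∧ ∃ k : ℕ, 1 ≤ k ∧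
      (k : ZMod M) = (u : ZMod M) ^ 2 ∧ g * A * g⁻¹ = A ^ k * (σ ^ ((k - 1) / 8))⁻¹) :
    σ ^ 3 = 1 := by
  have hne : NeZero M := ⟨hM⟩
  have hsq8 : ∀ v : (ZMod 8)ˣ, (v : ZMod 8) ^ 2 = 1 := by decide
  have hmod8 : ∀ (u : (ZMod M)ˣ) (k : ℕ), (k : ZMod M) = (u : ZMod M) ^ 2 → 1 ≤ k →
      k = 8 * ((k - 1) / 8) + 1 := by
    intro u k hk hk1
    have h1 := hsq8 (Units.map (ZMod.castHom h8 (ZMod 8)).toMonoidHom u)
    have h2 : ((k : ℕ) : ZMod 8) = 1 := by
      rw [← map_natCast (ZMod.castHom h8 (ZMod 8)) k, hk, map_pow]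
      exact h1
    have h3 : (k : ZMod 8) = ((1 : ℕ) : ZMod 8) := by rw [h2, Nat.cast_one]
    rw [ZMod.natCast_eq_natCast_iff'] at h3
    omega
  -- the group `T` and its central extension
  obtain ⟨T, hTd⟩ : ∃ T : Subgroup S, T = Subgroup.closure {A, B, σ} := ⟨_, rfl⟩
  have hAT : A ∈ T := hTd ▸ Subgroup.subset_closure (by simp)
  have hBT : B ∈ T := hTd ▸ Subgroup.subset_closure (by simp)
  have hσT : σ ∈ T := hTd ▸ Subgroup.subset_closure (by simp)
  have hcT : ∀ t ∈ T, Commute σ t := by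
    have hle : T ≤ Subgroup.centralizer {σ} := by
      rw [hTd, Subgroup.closure_le]
      rintro _ (rfl | rfl | rfl)
      · exact Subgroup.mem_centralizer_singleton_iff.2 hσA.symm.eq
      · exact Subgroup.mem_centralizer_singleton_iff.2 hσB.symm.eq
      · exact Subgroup.mem_centralizer_singleton_iff.2 rfl
    intro t ht
    exact (Subgroup.mem_centralizer_singleton_iff.1 (hle ht)).symm
  have hG0T : ∀ q : S × SpecialLinearGroup (Fin 2) (ZMod M), q ∈ G0 M A B → q.1 ∈ T := by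
    intro q hq
    have h1 := G0_fst hq
    rw [hTd]
    refine Subgroup.closure_mono ?_ h1
    intro z hz
    rcases hz with rfl | rfl
    · simp
    · simp
  let c : Multiplicative ℤ := Multiplicative.ofAdd 1
  obtain ⟨κ, hκ⟩ : ∃ κ : T × Multiplicative ℤ, κ = (⟨σ, hσT⟩, c ^ 8) := ⟨_, rfl⟩
  have hκc : ∀ q, q * κ = κ * q := by
    intro q
    rw [hκ]
    refine Prod.ext ?_ (mul_comm _ _)
    apply Subtype.ext
    exact (hcT _ q.1.2).symm.eq
  let K : Subgroup (T × Multiplicative ℤ) := Subgroup.zpowers κ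
  have hKn : K.Normal := by
    refine ⟨fun q hq g => ?_⟩
    obtain ⟨m, rfl⟩ := Subgroup.mem_zpowers_iff.1 hq
    have h1 : Commute g (κ ^ m) := Commute.zpow_right (hκc g) m
    rw [h1.eq, mul_inv_cancel_right]
    exact hq
  let π : T × Multiplicative ℤ →* (T × Multiplicative ℤ) ⧸ K := QuotientGroup.mk' K
  have hπκ : π κ = 1 := (QuotientGroup.eq_one_iff κ).2 (Subgroup.mem_zpowers κ)
  obtain ⟨A', hA'⟩ : ∃ A' : (T × Multiplicative ℤ) ⧸ K, A' = π (⟨A, hAT⟩, c) := ⟨_, rfl⟩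
  obtain ⟨B', hB'⟩ : ∃ B' : (T × Multiplicative ℤ) ⧸ K, B' = π (⟨B, hBT⟩, c) := ⟨_, rfl⟩
  -- lifting
  have hlift : ∀ q ∈ G0 M A' B', ∃ (g : T) (j : Multiplicative ℤ), q.1 = π (g, j) ∧
      ((g : S), q.2) ∈ G0 M A B := by
    intro q hq
    induction hq using Subgroup.closure_induction with
    | mem q hq =>
      rcases hq with rfl | rfl
      · exact ⟨⟨A, hAT⟩, c, hA', Subgroup.subset_closure (Or.inl rfl)⟩
      · exact ⟨⟨B, hBT⟩, c, hB', Subgroup.subset_closure (Or.inr rfl)⟩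
    | one => exact ⟨1, 1, (map_one π).symm, Subgroup.one_mem _⟩
    | mul q r _ _ hq hr =>
      obtain ⟨g, j, h1, h2⟩ := hq
      obtain ⟨g', j', h1', h2'⟩ := hr
      refine ⟨g * g', j * j', ?_, Subgroup.mul_mem _ h2 h2'⟩
      rw [Prod.fst_mul, h1, h1', ← map_mul]
      rfl
    | inv q _ hq =>
      obtain ⟨g, j, h1, h2⟩ := hq
      refine ⟨g⁻¹, j⁻¹, ?_, Subgroup.inv_mem _ h2⟩
      rw [Prod.fst_inv, h1, ← map_inv]
      rfl
  have hcomm' : ∀ (g : T) (j : Multiplicative ℤ), Commute (g : S) A → Commute (g : S) B →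
      Commute (π (g, j)) A' ∧ Commute (π (g, j)) B' := by
    intro g j h1 h2
    constructor
    · change _ * _ = _ * _
      rw [hA', ← map_mul, ← map_mul]
      congr 1
      exact Prod.ext (Subtype.ext h1.eq) (mul_comm _ _)
    · change _ * _ = _ * _
      rw [hB', ← map_mul, ← map_mul]
      congr 1
      exact Prod.ext (Subtype.ext h2.eq) (mul_comm _ _)
  let Z' : Subgroup ((T × Multiplicative ℤ) ⧸ K) := (G0 M A' B').comap (MonoidHom.inl _ _)
  have H : Gd Z' (G0 M A' B') A' B' := by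
    refine ⟨fun s hs => hs, fun z hz => hz, ?_, Subgroup.subset_closure (Or.inl rfl),
      Subgroup.subset_closure (Or.inr rfl), ?_⟩
    · intro z hz g hg
      obtain ⟨s, j, h1, h2⟩ := hlift _ hz
      have h3 := hW _ h2
      have h4 := hcomm' s j h3.1 h3.2
      have h5 : z = π (s, j) := h1
      rw [h5]
      exact comm_closure h4.1 h4.2 (G0_fst hg)
    · rw [hA', hB', ← map_mul, ← map_mul, ← map_mul, ← map_mul]
      congr 1
      exact Prod.ext (Subtype.ext hbr) rfl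
  have hAM' : A' ^ M = 1 := by
    obtain ⟨m, hm⟩ := h8
    have h1 : ((⟨A, hAT⟩ : T), c) ^ M = κ ^ m := by
      rw [hκ]
      refine Prod.ext (Subtype.ext ?_) ?_
      · change A ^ M = σ ^ m
        rw [hAM, hm]
        congr 1
        omega
      · change c ^ M = (c ^ 8) ^ m
        rw [← pow_mul, ← hm]
    rw [hA', ← map_pow, h1, map_pow, hπκ, one_pow]
  have hT' : ∀ (g : (T × Multiplicative ℤ) ⧸ K) (u : (ZMod M)ˣ) (k : ℕ),
      (g, Dg u) ∈ G0 M A' B' → (k : ZMod M) = (u : ZMod M) ^ 2 → g * A' * g⁻¹ = A' ^ k := by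
    intro g u k hg hk
    obtain ⟨s, j, h1, h2⟩ := hlift _ hg
    obtain ⟨g0, hg0, k0, hk01, hk0, hg0A⟩ := hT u
    have h3 : ((s : S) * g0⁻¹, (1 : SpecialLinearGroup (Fin 2) (ZMod M))) ∈ G0 M A B := by
      have h4 := (G0 M A B).mul_mem h2 ((G0 M A B).inv_mem hg0)
      have h5 : ((s : S) * g0⁻¹, Dg u * (Dg u)⁻¹) ∈ G0 M A B := h4
      rwa [mul_inv_cancel] at h5
    obtain ⟨h4, h5⟩ := hW _ h3
    have h6 : Commute ((s : S) * g0⁻¹) σ := (hcT _ (hG0T _ h3)).symm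
    have h7 : (s : S) * A * (s : S)⁻¹ = A ^ k0 * (σ ^ ((k0 - 1) / 8))⁻¹ := by
      have h8 : Commute ((s : S) * g0⁻¹) (A ^ k0 * (σ ^ ((k0 - 1) / 8))⁻¹) :=
        (h4.pow_right _).mul_right (h6.pow_right _).inv_right
      calc (s : S) * A * (s : S)⁻¹ =
          ((s : S) * g0⁻¹) * (g0 * A * g0⁻¹) * ((s : S) * g0⁻¹)⁻¹ := by group
        _ = _ := by rw [hg0A, h8.eq, mul_inv_cancel_right]
    have h8 := hmod8 u k0 hk0 hk01
    obtain ⟨m, hm⟩ : ∃ m, m = (k0 - 1) / 8 := ⟨_, rfl⟩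
    rw [← hm] at h7 h8
    have h9 : g = π (s, j) := h1
    have h10 : (s, j) * ((⟨A, hAT⟩ : T), c) * (s, j)⁻¹ =
        ((⟨A, hAT⟩ : T), c) ^ k0 * (κ ^ m)⁻¹ := by
      rw [hκ]
      refine Prod.ext (Subtype.ext ?_) ?_
      · exact h7
      · change j * c * j⁻¹ = c ^ k0 * ((c ^ 8) ^ m)⁻¹
        rw [mul_comm j c, mul_inv_cancel_right, ← pow_mul, h8, pow_add, pow_one,
          mul_comm (c ^ (8 * m)) c, mul_inv_cancel_right]
    rw [h9, hA', ← map_mul, ← map_inv, ← map_mul, h10, map_mul, map_inv, map_pow, map_pow, hπκ,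
      one_pow, inv_one, mul_one, ← hA', ← Gd.pow_val hAM' k0, ← Gd.pow_val hAM' k, hk0, hk]
  have D := H.dat hM hAM' hT'
  have h := Dat.ww_eight M hM _ _ D
  rw [Gd.ww_one hAM' (H.powB_exact hAM')] at h
  have h1 : (⟨A, hAT⟩ * ⟨B, hBT⟩ * ⟨A, hAT⟩ : T) ^ 8 = 1 := by
    apply Subtype.ext
    change (A * B * A) ^ 8 = 1
    have e : (A * B * A) ^ 8 = ((A * B * A) ^ 4) ^ 2 := by rw [← pow_mul]
    rw [e, braid_four hbr, h6, one_pow]
  have h2 : (A' * B' * A') ^ 8 = π (1, c ^ 24) := by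
    rw [hA', hB', ← map_mul, ← map_mul, ← map_pow]
    congr 1
    refine Prod.ext h1 ?_
    change (c * c * c) ^ 8 = c ^ 24
    have e : c * c * c = c ^ 3 := by rw [pow_succ, pow_succ, pow_one]
    rw [e, ← pow_mul]
  rw [h2] at h
  have h3 : ((1 : T), c ^ 24) ∈ K := (QuotientGroup.eq_one_iff _).1 h
  obtain ⟨m, hm⟩ := Subgroup.mem_zpowers_iff.1 h3
  rw [hκ] at hm
  have h4 : (c ^ 8) ^ m = c ^ 24 := congrArg Prod.snd hm
  have h5 : (σ : S) ^ m = 1 := by
    have := congrArg (fun q : T × Multiplicative ℤ => (q.1 : S)) hm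
    exact this
  have h6 : m = 3 := by
    have h7 : Multiplicative.toAdd ((c ^ 8) ^ m) = Multiplicative.toAdd (c ^ 24) := by rw [h4]
    have h8 : m * 8 = 24 := by
      have e1 : Multiplicative.toAdd ((c ^ 8) ^ m) = m * 8 := by
        change m • ((8 : ℕ) • (1 : ℤ)) = m * 8
        simp
      have e2 : Multiplicative.toAdd (c ^ 24) = 24 := by
        change (24 : ℕ) • (1 : ℤ) = 24
        simp
      rw [e1, e2] at h7
      exact h7
    omega
  rw [h6] at h5
  exact_mod_cast h5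

end

end Pool.Agent.H.MP_59b15d_al.R1
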