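/-
A 5-chain `A`, `B`, `C`, `v`, `x` in a group of finite exponent: the action of the torus of
`⟨A, B⟩` on `A`, and `s ^ 3 = 1` for the boundary element `s = (x₁ v x) ^ 4`.
-/
import Pool.Agent.H.MP_59b15d_al.h11r.Push
import Pool.Agent.H.MP_59b15d_al.h11r.Sig

set_option autoImplicit false

namespace Pool.Agent.H.MP_59b15d_al.R1

open Matrix (SpecialLinearGroup)

variable {Q : Type*} [Group Q]

/-- The relations used: `A`, `B`, `C`, `v`, `x` is a chain, `x * x1` and `A * A * y` are the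
boundary elements of `A`, `B`, `C` and of `x`, `v`, `C`. -/
structure Ch5 (A B C v x x1 y : Q) : Prop where
  AB : A * B * A = B * A * B
  CB : C * B * C = B * C * B
  Cv : C * v * C = v * C * v
  xv : x * v * x = v * x * v
  AC : Commute A C
  Av : Commute A v
  Ax : Commute A x
  Bv : Commute B v
  Bx : Commute B x
  Cx : Commute C x
  s1 : (A * B * A) ^ 4 = 1
  s2 : (x * v * x) ^ 4 = 1
  hx1 : x * x1 = pt A B C
  hy : A * A * y = pt x v C
  br : x1 * v * x1 = v * x1 * v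
  sC : Commute (pt x v x1) C
  ln : (A * (pD' x v C)⁻¹) * (x1 * x⁻¹) * (A * (pD' x v C)⁻¹)⁻¹ = (x1 * x⁻¹) * y

namespace Ch5

variable {A B C v x x1 y : Q} (H : Ch5 A B C v x x1 y)
include H

lemma B1 : Br3 A B C := ⟨H.AB, H.CB, H.AC, H.s1⟩

lemma B2 : Br3 x v C := ⟨H.xv, H.Cv, H.Cx.symm, H.s2⟩

lemma x1_eq : x1 = x⁻¹ * pt A B C := by rw [← H.hx1, inv_mul_cancel_left]

lemma y_eq : y = (A * A)⁻¹ * pt x v C := by rw [← H.hy, inv_mul_cancel_left]

omit H in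
lemma comm_pt {g a b c : Q} (ha : Commute g a) (hb : Commute g b) (hc : Commute g c) :
    Commute g (pt a b c) := ((hc.mul_right hb).mul_right ha).pow_right 4

omit H in
lemma comm_pD' {g a b c : Q} (ha : Commute g a) (hb : Commute g b) (hc : Commute g c) :
    Commute g (pD' a b c) := by
  have h : Commute g (a * b * a) := (ha.mul_right hb).mul_right ha
  exact (h.inv_right.mul_right (hc.mul_right ha.inv_right)).mul_right h

lemma x_x1 : Commute x x1 := by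
  rw [H.x1_eq]
  exact (Commute.refl x).inv_right.mul_right (comm_pt H.Ax.symm H.Bx.symm H.Cx.symm)

lemma A_x1 : Commute A x1 := by
  rw [H.x1_eq]
  exact H.Ax.inv_right.mul_right H.B1.t_a.symm

lemma B_x1 : Commute B x1 := by
  rw [H.x1_eq]
  exact H.Bx.inv_right.mul_right H.B1.t_b.symm

lemma C_x1 : Commute C x1 := by
  rw [H.x1_eq]
  exact H.Cx.inv_right.mul_right H.B1.t_c.symm

lemma B3 : Br3 x v x1 := ⟨H.xv, H.br, H.x_x1, H.s2⟩

lemma s_A : Commute (pt x v x1) A := (comm_pt H.Ax H.Av H.A_x1).symm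

lemma s_B : Commute (pt x v x1) B := (comm_pt H.Bx H.Bv H.B_x1).symm

lemma y_A : Commute y A := by
  rw [H.y_eq]
  exact (((Commute.refl A).mul_left (Commute.refl A)).inv_left).mul_left
    (comm_pt H.Ax H.Av H.AC).symm

lemma y_x : Commute y x := by
  rw [H.y_eq]
  exact ((H.Ax.mul_left H.Ax).inv_left).mul_left H.B2.t_a

lemma y_v : Commute y v := by
  rw [H.y_eq]
  exact ((H.Av.mul_left H.Av).inv_left).mul_left H.B2.t_b

lemma y_C : Commute y C := by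
  rw [H.y_eq]
  exact ((H.AC.mul_left H.AC).inv_left).mul_left H.B2.t_c

lemma y_w : Commute y (x * v * x) := (H.y_x.mul_right H.y_v).mul_right H.y_x

lemma y_D' : Commute y (pD' x v C) := comm_pD' H.y_x H.y_v H.y_C

lemma A_D' : Commute A (pD' x v C) := comm_pD' H.Ax H.Av H.AC

lemma A_Y : Commute A (pD x x1) := H.A_x1.mul_right H.Ax.inv_right

/-- `P` commutes with `v`. -/
lemma P_v : Commute (A * (pD' x v C)⁻¹) v := by
  have h1 : Commute v (pD' x v C) := by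
    have h2 := H.B2.conj_b_D'
    exact mul_inv_eq_iff_eq_mul.1 h2
  exact H.Av.mul_left h1.symm.inv_left

lemma ln' : (A * (pD' x v C)⁻¹) * pD x x1 * (A * (pD' x v C)⁻¹)⁻¹ = pD x x1 * y := H.ln

/-- `P` commutes with `Y_v`. -/
lemma P_Yv : Commute (A * (pD' x v C)⁻¹) (pD' x v x1) := by
  obtain ⟨P, hP⟩ : ∃ P, P = A * (pD' x v C)⁻¹ := ⟨_, rfl⟩
  have h1 := H.ln'
  rw [← hP] at h1
  have hv : P * v = v * P := by rw [hP]; exact H.P_v
  have h2 : v * pD x x1 * v⁻¹ = (pD' x v x1)⁻¹ * pD x x1 := H.B3.conj_b_D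
  have h3 : P * (v * pD x x1 * v⁻¹) * P⁻¹ = (v * pD x x1 * v⁻¹) * y := by
    calc P * (v * pD x x1 * v⁻¹) * P⁻¹ = (P * v) * pD x x1 * (P * v)⁻¹ := by group
      _ = v * (P * pD x x1 * P⁻¹) * v⁻¹ := by
        rw [hv]
        group
      _ = v * pD x x1 * (y * v⁻¹) := by
        rw [h1]
        simp only [mul_assoc]
      _ = _ := by
        rw [H.y_v.inv_right.eq]
        simp only [mul_assoc]
  rw [h2] at h3
  have h4 : P * ((pD' x v x1)⁻¹ * pD x x1) * P⁻¹ =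
      (P * (pD' x v x1)⁻¹ * P⁻¹) * (P * pD x x1 * P⁻¹) := by group
  rw [h4, h1, ← mul_assoc] at h3
  have h5 := mul_right_cancel (mul_right_cancel h3)
  have h6 : Commute P (pD' x v x1)⁻¹ := mul_inv_eq_iff_eq_mul.1 h5
  rw [← hP]
  exact (Commute.inv_right_iff).1 h6

/-- `R` commutes with `Y_x`. -/
lemma R_Y : Commute (pD x C) (pD x x1) :=
  (H.C_x1.mul_right H.Cx.inv_right).mul_left
    ((H.x_x1.mul_right (Commute.refl x).inv_right).inv_left)

/-- `y` commutes with `Y_x`. -/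
lemma y_Y : Commute y (pD x x1) := by
  obtain ⟨P, hP⟩ : ∃ P, P = A * (pD' x v C)⁻¹ := ⟨_, rfl⟩
  obtain ⟨w, hw⟩ : ∃ w, w = x * v * x := ⟨_, rfl⟩
  obtain ⟨R, hR⟩ : ∃ R, R = pD x C := ⟨_, rfl⟩
  obtain ⟨Yx, hYx⟩ : ∃ Yx, Yx = pD x x1 := ⟨_, rfl⟩
  obtain ⟨Yv, hYv⟩ : ∃ Yv, Yv = pD' x v x1 := ⟨_, rfl⟩
  have h1 := H.ln'
  rw [← hP, ← hYx] at h1
  have hRY : Commute R Yx := by rw [hR, hYx]; exact H.R_Y
  have hAY : Commute A Yx := by rw [hYx]; exact H.A_Y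
  have hAw : Commute A w := by rw [hw]; exact (H.Ax.mul_right H.Av).mul_right H.Ax
  have hyw : Commute y w := by rw [hw]; exact H.y_w
  have hyR : Commute y R := by rw [hR]; exact H.y_C.mul_right H.y_x.inv_right
  have hAYv : Commute A Yv := by rw [hYv]; exact comm_pD' H.Ax H.Av H.A_x1
  -- conjugation by `x`
  have hRA : Commute R A := by rw [hR]; exact (H.AC.mul_right H.Ax.inv_right).symm
  have e1 : x * P * x⁻¹ = R⁻¹ * P := by
    have h2 : x * pD' x v C * x⁻¹ = pD' x v C * R := by rw [hR]; exact H.B2.conj_a_D'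
    calc x * P * x⁻¹ = (x * A) * (pD' x v C)⁻¹ * x⁻¹ := by
          rw [hP]
          simp only [mul_assoc]
      _ = A * (x * pD' x v C * x⁻¹)⁻¹ := by
          rw [← H.Ax.eq]
          group
      _ = (A * R⁻¹) * (pD' x v C)⁻¹ := by
          rw [h2]
          group
      _ = _ := by
          rw [← (hRA.inv_left).eq, hP, mul_assoc]
  have e2 : x * Yv * x⁻¹ = Yv * Yx := by rw [hYv, hYx]; exact H.B3.conj_a_D'
  have hPYv : Commute P Yv := by rw [hP, hYv]; exact H.P_Yv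
  have h2 : (R⁻¹ * P) * (Yv * Yx) * (R⁻¹ * P)⁻¹ = Yv * Yx := by
    rw [← e1, ← e2]
    calc x * P * x⁻¹ * (x * Yv * x⁻¹) * (x * P * x⁻¹)⁻¹ = x * (P * Yv * P⁻¹) * x⁻¹ := by group
      _ = _ := by rw [hPYv.eq, mul_inv_cancel_right]
  have h3 : P * (Yv * Yx) * P⁻¹ = Yv * Yx * y := by
    calc P * (Yv * Yx) * P⁻¹ = (P * Yv * P⁻¹) * (P * Yx * P⁻¹) := by group
      _ = _ := by rw [hPYv.eq, mul_inv_cancel_right, h1, mul_assoc]
  have h4 : R⁻¹ * (Yv * Yx * y) * R = Yv * Yx := by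
    rw [← h3]
    calc R⁻¹ * (P * (Yv * Yx) * P⁻¹) * R = (R⁻¹ * P) * (Yv * Yx) * (R⁻¹ * P)⁻¹ := by group
      _ = _ := h2
  -- `R Yv R⁻¹ = Yv Yx y Yx⁻¹`
  have h5 : R * Yv * R⁻¹ = Yv * (Yx * y * Yx⁻¹) := by
    have h6 : Yv * Yx * y = R * (Yv * Yx) * R⁻¹ := by
      calc Yv * Yx * y = R * (R⁻¹ * (Yv * Yx * y) * R) * R⁻¹ := by group
        _ = _ := by rw [h4]
    have h7 : R * (Yv * Yx) * R⁻¹ = R * Yv * R⁻¹ * Yx := by
      calc R * (Yv * Yx) * R⁻¹ = R * Yv * (Yx * R⁻¹) := by simp only [mul_assoc]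
        _ = _ := by
          rw [← hRY.inv_left.eq]
          simp only [mul_assoc]
    rw [h7] at h6
    calc R * Yv * R⁻¹ = R * Yv * R⁻¹ * Yx * Yx⁻¹ := by group
      _ = _ := by
        rw [← h6]
        simp only [mul_assoc]
  -- conjugation by `w`
  have e3 : w * P * w⁻¹ = A * R⁻¹ := by
    have h6 : w * pD' x v C * w⁻¹ = R := by
      rw [hw, hR]
      exact Br3.conj_w_D'
    calc w * P * w⁻¹ = (w * A) * (pD' x v C)⁻¹ * w⁻¹ := by
          rw [hP]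
          simp only [mul_assoc]
      _ = A * (w * pD' x v C * w⁻¹)⁻¹ := by
          rw [← hAw.eq]
          group
      _ = _ := by rw [h6]
  have e4 : w * Yx * w⁻¹ = Yx⁻¹ * Yv⁻¹ * Yx := by
    rw [hw, hYx, hYv]
    exact H.B3.conj_w_D
  have h6 : (A * R⁻¹) * (Yx⁻¹ * Yv⁻¹ * Yx) * (A * R⁻¹)⁻¹ = (Yx⁻¹ * Yv⁻¹ * Yx) * y := by
    rw [← e3, ← e4]
    calc w * P * w⁻¹ * (w * Yx * w⁻¹) * (w * P * w⁻¹)⁻¹ = w * (P * Yx * P⁻¹) * w⁻¹ := by group
      _ = w * Yx * (y * w⁻¹) := by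
        rw [h1]
        simp only [mul_assoc]
      _ = _ := by
        rw [hyw.inv_right.eq]
        simp only [mul_assoc]
  have hARY : Commute (A * R⁻¹) Yx := hAY.mul_left hRY.inv_left
  have h7 : (A * R⁻¹) * Yv⁻¹ * (A * R⁻¹)⁻¹ = Yv⁻¹ * (Yx * y * Yx⁻¹) := by
    have h8 : (A * R⁻¹) * (Yx⁻¹ * Yv⁻¹ * Yx) * (A * R⁻¹)⁻¹ =
        Yx⁻¹ * ((A * R⁻¹) * Yv⁻¹ * (A * R⁻¹)⁻¹) * Yx := by
      calc (A * R⁻¹) * (Yx⁻¹ * Yv⁻¹ * Yx) * (A * R⁻¹)⁻¹ =
          ((A * R⁻¹) * Yx⁻¹) * Yv⁻¹ * (Yx * (A * R⁻¹)⁻¹) := by simp only [mul_assoc]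
        _ = _ := by
          rw [hARY.inv_right.eq, ← hARY.inv_left.eq]
          simp only [mul_assoc]
    rw [h8] at h6
    calc (A * R⁻¹) * Yv⁻¹ * (A * R⁻¹)⁻¹ =
        Yx * (Yx⁻¹ * ((A * R⁻¹) * Yv⁻¹ * (A * R⁻¹)⁻¹) * Yx) * Yx⁻¹ := by group
      _ = _ := by
        rw [h6]
        group
  have h8 : R⁻¹ * Yv⁻¹ * R = Yv⁻¹ * (Yx * y * Yx⁻¹) := by
    rw [← h7]
    calc R⁻¹ * Yv⁻¹ * R = R⁻¹ * (Yv⁻¹ * A) * A⁻¹ * R := by group
      _ = (R⁻¹ * A) * Yv⁻¹ * (A⁻¹ * R) := by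
        rw [← hAYv.inv_right.eq]
        simp only [mul_assoc]
      _ = _ := by
        rw [hRA.inv_left.eq, ← (hRA.inv_right).eq]
        group
  obtain ⟨z, hz⟩ : ∃ z, z = Yx * y * Yx⁻¹ := ⟨_, rfl⟩
  rw [← hz] at h5 h8
  have hRz : Commute R z := by rw [hz]; exact (hRY.mul_right hyR.symm).mul_right hRY.inv_right
  have h9 : Yv * z = z * Yv := by
    -- from h8: `Yv⁻¹ = R (Yv⁻¹ z) R⁻¹ = (R Yv R⁻¹)⁻¹ z`
    have h10 : Yv⁻¹ = (R * Yv * R⁻¹)⁻¹ * z := by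
      calc Yv⁻¹ = R * (R⁻¹ * Yv⁻¹ * R) * R⁻¹ := by group
        _ = R * Yv⁻¹ * (z * R⁻¹) := by
          rw [h8]
          simp only [mul_assoc]
        _ = _ := by
          rw [← hRz.inv_left.eq]
          group
    rw [h5] at h10
    have h11 : Yv * z * Yv⁻¹ = z := by
      conv_lhs => rw [h10]
      group
    exact mul_inv_eq_iff_eq_mul.1 h11
  have h12 : Commute y (w * Yx⁻¹ * w⁻¹) := by
    have h13 : w * Yx⁻¹ * w⁻¹ = Yx⁻¹ * Yv * Yx := by
      calc w * Yx⁻¹ * w⁻¹ = (w * Yx * w⁻¹)⁻¹ := by group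
        _ = _ := by
          rw [e4]
          group
    rw [h13]
    change _ * _ = _ * _
    have h14 : y = Yx⁻¹ * z * Yx := by
      rw [hz]
      group
    rw [h14]
    calc Yx⁻¹ * z * Yx * (Yx⁻¹ * Yv * Yx) = Yx⁻¹ * (z * Yv) * Yx := by group
      _ = _ := by
        rw [← h9]
        group
  have h15 : Commute y (w⁻¹ * (w * Yx⁻¹ * w⁻¹) * w) :=
    (hyw.inv_right.mul_right h12).mul_right hyw
  have h16 : w⁻¹ * (w * Yx⁻¹ * w⁻¹) * w = Yx⁻¹ := by group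
  rw [h16] at h15
  rw [← hYx]
  exact (Commute.inv_right_iff).1 h15

/-- **The action of the torus of `⟨A, B⟩` on `A`.** -/
theorem tor {e : ℕ} (he : ∀ q : Q, q ^ e = 1) {g : Q} {u : (ZMod (8 * e))ˣ}
    (hg : (g, Dg u) ∈ G0 (8 * e) A B) {l m n : ℤ} (hl : (l : ZMod (8 * e)) = u)
    (hm : 2 * m = 1 - l) (hn : 2 * n = m * (m - 1)) :
    g * A * g⁻¹ = A ^ (l * l) * pt x v x1 ^ n := by
  obtain ⟨P, hP⟩ : ∃ P, P = A * (pD' x v C)⁻¹ := ⟨_, rfl⟩
  obtain ⟨w, hw⟩ : ∃ w, w = x * v * x := ⟨_, rfl⟩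
  obtain ⟨E, hE⟩ : ∃ E, E = pD' x v C := ⟨_, rfl⟩
  obtain ⟨T, hT⟩ : ∃ T, T = pt x v C := ⟨_, rfl⟩
  obtain ⟨R, hR⟩ : ∃ R, R = pD x C := ⟨_, rfl⟩
  obtain ⟨Yx, hYx⟩ : ∃ Yx, Yx = pD x x1 := ⟨_, rfl⟩
  obtain ⟨Yv, hYv⟩ : ∃ Yv, Yv = pD' x v x1 := ⟨_, rfl⟩
  obtain ⟨s, hs⟩ : ∃ s, s = pt x v x1 := ⟨_, rfl⟩
  have hgx : Commute g x := (comm_closure H.Ax.symm H.Bx.symm (G0_fst hg)).symm
  have hgv : Commute g v := (comm_closure H.Av.symm H.Bv.symm (G0_fst hg)).symm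
  have hgw : Commute g w := by rw [hw]; exact (hgx.mul_right hgv).mul_right hgx
  -- the action on `C A⁻¹`
  have h1 : g * (C * A⁻¹) * g⁻¹ = (C * A⁻¹) ^ l * (x * x1) ^ m := by
    rw [H.hx1]
    exact H.B1.torus he hg hl hm
  -- the action on `P`
  have hwv : w⁻¹ * x * w = v := by
    rw [hw, mul_assoc, ← H.B2.wb, inv_mul_cancel_left]
  have hAw : Commute A w := by rw [hw]; exact (H.Ax.mul_right H.Av).mul_right H.Ax
  have hPv : Commute P v := by rw [hP]; exact H.P_v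
  have hPYv : Commute P Yv := by rw [hP, hYv]; exact H.P_Yv
  have hvYv : Commute v Yv := by rw [hYv]; exact mul_inv_eq_iff_eq_mul.1 H.B3.conj_b_D'
  have hF : w⁻¹ * (C * A⁻¹) * w = P⁻¹ * v := by
    have h2 : P⁻¹ = (w⁻¹ * C * w) * (w⁻¹ * x * w)⁻¹ * A⁻¹ := by
      rw [hP, pD', ← hw]
      group
    rw [h2, hwv, mul_assoc _ A⁻¹ v, H.Av.inv_left.eq]
    calc w⁻¹ * (C * A⁻¹) * w = w⁻¹ * C * (A⁻¹ * w) := by simp only [mul_assoc]
      _ = w⁻¹ * C * w * v⁻¹ * (v * A⁻¹) := by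
        rw [hAw.inv_left.eq]
        group
  have hv1 : w⁻¹ * (x * x1) * w = v ^ (2 : ℤ) * Yv := by
    have h2 : Yv = (w⁻¹ * x1 * w) * (w⁻¹ * x * w)⁻¹ := by
      rw [hYv, pD', ← hw]
      group
    rw [hwv] at h2
    have h3 : w⁻¹ * (x * x1) * w = (w⁻¹ * x * w) * (w⁻¹ * x1 * w) := by group
    have h4 : w⁻¹ * x1 * w = Yv * v := by rw [h2, inv_mul_cancel_right]
    rw [h3, hwv, h4, ← hvYv.eq, zpow_two, mul_assoc]
  have h2 : g * (P⁻¹ * v) * g⁻¹ = (P⁻¹ * v) ^ l * (v ^ (2 : ℤ) * Yv) ^ m := by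
    rw [← hF, ← hv1]
    calc g * (w⁻¹ * (C * A⁻¹) * w) * g⁻¹ = (g * w⁻¹) * (C * A⁻¹) * (g * w⁻¹)⁻¹ := by group
      _ = w⁻¹ * (g * (C * A⁻¹) * g⁻¹) * w := by
        rw [hgw.inv_right.eq]
        group
      _ = (w⁻¹ * (C * A⁻¹) ^ l * w) * (w⁻¹ * (x * x1) ^ m * w) := by
        rw [h1]
        group
      _ = _ := by
        have e1 := conj_zpow (i := l) (a := w⁻¹) (b := C * A⁻¹)
        have e2 := conj_zpow (i := m) (a := w⁻¹) (b := x * x1)
        rw [inv_inv] at e1 e2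
        rw [← e1, ← e2]
  have h3 : g * P * g⁻¹ = P ^ l * (Yv⁻¹) ^ m := by
    have h4 : g * (P⁻¹ * v) * g⁻¹ = (g * P * g⁻¹)⁻¹ * v := by
      calc g * (P⁻¹ * v) * g⁻¹ = g * P⁻¹ * (v * g⁻¹) := by simp only [mul_assoc]
        _ = _ := by
          rw [← hgv.inv_left.eq]
          group
    have h5 : (P⁻¹ * v) ^ l * (v ^ (2 : ℤ) * Yv) ^ m = (P ^ l * (Yv⁻¹) ^ m)⁻¹ * v := by
      have e1 : (P⁻¹ * v) ^ l = (P ^ l)⁻¹ * v ^ l := by
        rw [hPv.inv_left.mul_zpow, inv_zpow]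
      have e2 : (v ^ (2 : ℤ) * Yv) ^ m = v ^ (2 * m) * Yv ^ m := by
        rw [(hvYv.zpow_left 2).mul_zpow, ← zpow_mul]
      have e3 : v ^ l * v ^ (2 * m) = v := by
        rw [← _root_.zpow_add, hm, add_sub_cancel, zpow_one]
      have e4 : v * Yv ^ m = Yv ^ m * v := (hvYv.zpow_right m).eq
      have e5 : (P ^ l)⁻¹ * Yv ^ m = Yv ^ m * (P ^ l)⁻¹ :=
        ((hPYv.zpow_left l).inv_left.zpow_right m).eq
      rw [e1, e2, _root_.mul_inv_rev, inv_zpow, inv_inv, ← e5]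
      calc (P ^ l)⁻¹ * v ^ l * (v ^ (2 * m) * Yv ^ m) =
          (P ^ l)⁻¹ * (v ^ l * v ^ (2 * m)) * Yv ^ m := by simp only [mul_assoc]
        _ = _ := by
          rw [e3, mul_assoc, e4, mul_assoc]
    rw [h4, h5] at h2
    exact inv_injective (mul_right_cancel h2)
  -- the action on `C`
  have hPx : P * x * P⁻¹ = C := by
    have h4 : x * E = E * C := by rw [hE]; exact H.B2.aD'
    rw [hP, ← hE]
    calc A * E⁻¹ * x * (A * E⁻¹)⁻¹ = A * (E⁻¹ * (x * E)) * A⁻¹ := by group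
      _ = A * C * A⁻¹ := by rw [h4, inv_mul_cancel_left]
      _ = C := by rw [H.AC.eq, mul_inv_cancel_right]
  have hAR : Commute A R := by rw [hR]; exact H.AC.mul_right H.Ax.inv_right
  have hAT : Commute A T := by rw [hT]; exact comm_pt H.Ax H.Av H.AC
  have hTR : Commute T R := by rw [hT, hR]; exact H.B2.t_D
  have hTE : Commute T E := by rw [hT, hE]; exact H.B2.t_D'
  have hTx : Commute T x := by rw [hT]; exact H.B2.t_a
  have hTP : Commute T P := by rw [hP, ← hE]; exact hAT.symm.mul_right hTE.inv_right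
  have hPR : P * R * P⁻¹ = R * T := by
    have h4 : R * E = E * R * T := by rw [hR, hE, hT]; exact H.B2.DD'
    rw [hP, ← hE]
    calc A * E⁻¹ * R * (A * E⁻¹)⁻¹ = A * (E⁻¹ * (R * E)) * A⁻¹ := by group
      _ = A * (R * T) * A⁻¹ := by
        rw [h4]
        group
      _ = R * T := by rw [(hAR.mul_right hAT).eq, mul_inv_cancel_right]
  have hPy : Commute y P := by rw [hP]; exact H.y_A.mul_right H.y_D'.inv_right
  have hyY : Commute y Yx := by rw [hYx]; exact H.y_Y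
  have hPY : P * Yx * P⁻¹ = y * Yx := by
    rw [hyY.eq, hP, hYx]
    exact H.ln'
  have hsv : Commute s v := by rw [hs]; exact H.B3.t_b
  have hsx : Commute s x := by rw [hs]; exact H.B3.t_a
  have hsA : Commute s A := by rw [hs]; exact H.s_A
  have hsC : Commute s C := by rw [hs]; exact H.sC
  have hsYx : Commute s Yx := by rw [hs, hYx]; exact H.B3.t_D
  have hsYv : Commute s Yv := by rw [hs, hYv]; exact H.B3.t_D'
  have hsP : Commute s P := by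
    rw [hP]
    exact hsA.mul_right (comm_pD' hsx hsv hsC).inv_right
  have hxYv : Yv⁻¹ * x * Yv⁻¹⁻¹ = Yx * x := by
    have h4 : x * Yv = Yv * x1 := by rw [hYv]; exact H.B3.aD'
    rw [inv_inv, mul_assoc, h4, inv_mul_cancel_left, hYx, pD, inv_mul_cancel_right]
  have hYxYv : Yv⁻¹ * Yx * Yv⁻¹⁻¹ = Yx * s := by
    have h4 : Yx * Yv = Yv * Yx * s := by rw [hYx, hYv, hs]; exact H.B3.DD'
    rw [inv_inv, mul_assoc, h4, mul_assoc, inv_mul_cancel_left]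
  have h4 : (Yv⁻¹) ^ m * x * ((Yv⁻¹) ^ m)⁻¹ = Yx ^ m * x * s ^ n :=
    conj_zpow_t hxYv hYxYv hsYv.inv_right hsYx hsx m n hn
  have hl' : 2 * (-(l * m)) = l * (l - 1) := by linear_combination (-l) * hm
  have h5 : P ^ l * x * (P ^ l)⁻¹ = R ^ l * x * T ^ (-(l * m)) := by
    refine conj_zpow_t ?_ hPR hTP hTR hTx l _ hl'
    rw [hPx, hR, pD, inv_mul_cancel_right]
  have h6 : P ^ l * Yx * (P ^ l)⁻¹ = y ^ l * Yx := by
    have h7 : P * y * P⁻¹ = y * 1 := by rw [← hPy.eq, mul_inv_cancel_right, mul_one]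
    have h8 := conj_zpow_t hPY h7 (Commute.one_left _) (Commute.one_left _) (Commute.one_left _)
      l _ hl'
    rwa [one_zpow, mul_one] at h8
  have h7 : g * C * g⁻¹ = (y ^ (l * m) * Yx ^ m) * (R ^ l * x * T ^ (-(l * m))) * s ^ n := by
    have e1 : g * C * g⁻¹ = (g * P * g⁻¹) * x * (g * P * g⁻¹)⁻¹ := by
      rw [← hPx]
      calc g * (P * x * P⁻¹) * g⁻¹ = g * P * (x * g⁻¹) * g * P⁻¹ * g⁻¹ := by group
        _ = _ := by
          rw [← hgx.inv_left.eq]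
          group
    have e2 : P ^ l * (Yx ^ m * x * s ^ n) * (P ^ l)⁻¹ =
        (P ^ l * Yx * (P ^ l)⁻¹) ^ m * (P ^ l * x * (P ^ l)⁻¹) * s ^ n := by
      calc P ^ l * (Yx ^ m * x * s ^ n) * (P ^ l)⁻¹ =
          (P ^ l * Yx ^ m * (P ^ l)⁻¹) * (P ^ l * x * (P ^ l)⁻¹) *
            (P ^ l * s ^ n * (P ^ l)⁻¹) := by group
        _ = _ := by
          rw [← conj_zpow (i := m) (a := P ^ l) (b := Yx),
            ← ((hsP.zpow_left n).zpow_right l).eq, mul_inv_cancel_right]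
    calc g * C * g⁻¹ = (g * P * g⁻¹) * x * (g * P * g⁻¹)⁻¹ := e1
      _ = P ^ l * ((Yv⁻¹) ^ m * x * ((Yv⁻¹) ^ m)⁻¹) * (P ^ l)⁻¹ := by
        rw [h3]
        group
      _ = _ := by
        rw [h4, e2, h5, h6, (hyY.zpow_left l).mul_zpow, ← zpow_mul]
  -- the commutative computation
  have hxC : Commute x C := H.Cx.symm
  have hxYx : Commute x Yx := by
    rw [hYx]
    exact H.x_x1.mul_right (Commute.refl x).inv_right
  have hCYx : Commute C Yx := by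
    rw [hYx]
    exact H.C_x1.mul_right H.Cx.inv_right
  have hAYx : Commute A Yx := by
    rw [hYx]
    exact H.A_Y
  have hyx := H.y_x
  have hyC := H.y_C
  have hyA := H.y_A
  have hTy : T ^ (-(l * m)) = A ^ (-(2 * (l * m))) * y ^ (-(l * m)) := by
    have e1 : T = A ^ (2 : ℤ) * y := by
      rw [hT, ← H.hy, zpow_two]
    rw [e1, (hyA.symm.zpow_left 2).mul_zpow, ← zpow_mul]
    congr 2
    ring
  have hRl : R ^ l * x = C ^ l * x ^ (1 - l) := by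
    have e1 : R ^ l = C ^ l * x ^ (-l) := by
      rw [hR, pD, H.Cx.inv_right.mul_zpow, inv_zpow']
    rw [e1, mul_assoc, ← zpow_add_one]
    congr 2
    ring
  have hxx : (x * x1) ^ m = x ^ (2 * m) * Yx ^ m := by
    have e1 : x * x1 = x ^ (2 : ℤ) * Yx := by
      have e2 : x1 = x * Yx := by
        rw [hxYx.eq, hYx, pD, inv_mul_cancel_right]
      rw [e2, zpow_two, mul_assoc]
    rw [e1, (hxYx.zpow_left 2).mul_zpow, ← zpow_mul]
  have hCA : (C * A⁻¹) ^ l = C ^ l * A ^ (-l) := by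
    rw [H.AC.symm.inv_right.mul_zpow, inv_zpow']
  have h8 : (y ^ (l * m) * Yx ^ m) * (R ^ l * x * T ^ (-(l * m))) =
      (C * A⁻¹) ^ l * (x * x1) ^ m * A ^ (l * l) := by
    rw [hRl, hTy, hCA, hxx]
    have c1 : Commute (y ^ (l * m)) (Yx ^ m * (C ^ l * x ^ (1 - l) * A ^ (-(2 * (l * m))))) :=
      ((hyY.zpow_right m).mul_right (((hyC.zpow_right l).mul_right
        (hyx.zpow_right (1 - l))).mul_right (hyA.zpow_right _))).zpow_left (l * m)
    have c2 : Commute (Yx ^ m) (C ^ l * x ^ (1 - l)) :=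
      (((hCYx.symm).zpow_right l).mul_right (hxYx.symm.zpow_right (1 - l))).zpow_left m
    have c3 : Commute (A ^ (-l)) (x ^ (1 - l) * Yx ^ m) :=
      ((H.Ax.zpow_right (1 - l)).mul_right (hAYx.zpow_right m)).zpow_left (-l)
    calc y ^ (l * m) * Yx ^ m * (C ^ l * x ^ (1 - l) * (A ^ (-(2 * (l * m))) * y ^ (-(l * m)))) =
        (y ^ (l * m) * (Yx ^ m * (C ^ l * x ^ (1 - l) * A ^ (-(2 * (l * m)))))) *
          y ^ (-(l * m)) := by simp only [mul_assoc]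
      _ = Yx ^ m * (C ^ l * x ^ (1 - l)) * A ^ (-(2 * (l * m))) := by
        rw [c1.eq, _root_.zpow_neg y, mul_inv_cancel_right]
        simp only [mul_assoc]
      _ = C ^ l * (x ^ (1 - l) * Yx ^ m) * A ^ (-l + l * l) := by
        rw [c2.eq]
        have e1 : -(2 * (l * m)) = -l + l * l := by linear_combination (-l) * hm
        rw [e1]
        simp only [mul_assoc]
      _ = C ^ l * (A ^ (-l) * (x ^ (1 - l) * Yx ^ m)) * A ^ (l * l) := by
        rw [c3.eq, _root_.zpow_add A]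
        simp only [mul_assoc]
      _ = _ := by
        rw [hm]
        simp only [mul_assoc]
  have h9 : g * C * g⁻¹ = (g * (C * A⁻¹) * g⁻¹) * (g * A * g⁻¹) := by group
  rw [h7, h8, h1, mul_assoc _ (A ^ (l * l))] at h9
  rw [← hs]
  exact (mul_left_cancel h9).symm

/-- **`s ^ 3 = 1` for a 5-chain in a group of finite exponent.** -/
theorem s_cube {e : ℕ} (he0 : e ≠ 0) (he : ∀ q : Q, q ^ e = 1)
    (hW : ∀ q : Q, (q, (1 : SpecialLinearGroup (Fin 2) (ZMod (8 * e)))) ∈ G0 (8 * e) A B →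
      Commute q A ∧ Commute q B) :
    pt x v x1 ^ 3 = 1 := by
  have hM : 8 * e ≠ 0 := by omega
  have hne : NeZero (8 * e) := ⟨hM⟩
  have h8 : 8 ∣ 8 * e := ⟨e, rfl⟩
  have hsq8 : ∀ v : (ZMod 8)ˣ, (v : ZMod 8) ^ 2 = 1 := by decide
  have hD : Gd ((G0 (8 * e) A B).comap (MonoidHom.inl _ _)) (G0 (8 * e) A B) A B := by
    refine ⟨fun s hs => hs, fun z hz => hz, ?_, Subgroup.subset_closure (Or.inl rfl),
      Subgroup.subset_closure (Or.inr rfl), H.AB⟩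
    intro z hz g hg
    have h1 := hW _ hz
    exact comm_closure h1.1 h1.2 (G0_fst hg)
  have h3 : (pt x v x1)⁻¹ ^ 3 = 1 := by
    refine sigma_cube (A := A) (B := B) hM h8 H.s_A.inv_left H.s_B.inv_left H.AB ?_ ?_ hW ?_
    · rw [← braid_four H.AB, H.s1]
    · rw [pow_mul', he, Nat.mul_div_cancel_left e (by norm_num), he, one_pow]
    · intro u
      obtain ⟨g, hg⟩ := hD.exists_torus u
      have hl : (((u : ZMod (8 * e)).val : ℕ) : ZMod (8 * e)) = u := ZMod.natCast_zmod_val _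
      obtain ⟨l, hl'⟩ : ∃ l : ℕ, l = (u : ZMod (8 * e)).val := ⟨_, rfl⟩
      rw [← hl'] at hl
      have h1 : (l ^ 2) % 8 = 1 := by
        have h2 := hsq8 (Units.map (ZMod.castHom h8 (ZMod 8)).toMonoidHom u)
        have h4 : ((l ^ 2 : ℕ) : ZMod 8) = ((1 : ℕ) : ZMod 8) := by
          rw [Nat.cast_one, Nat.cast_pow, ← map_natCast (ZMod.castHom h8 (ZMod 8)) l, hl]
          exact h2
        rw [ZMod.natCast_eq_natCast_iff'] at h4
        exact h4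
      refine ⟨g, hg, l ^ 2, by omega, by rw [Nat.cast_pow, hl], ?_⟩
      have h2 : l % 2 = 1 := by
        by_contra h2
        have h4 : 2 ∣ l := by omega
        have h5 : 2 ∣ l ^ 2 := dvd_pow h4 (by norm_num)
        omega
      obtain ⟨m, hm⟩ : ∃ m : ℤ, 2 * m = 1 - (l : ℤ) := ⟨-((l : ℤ) / 2), by omega⟩
      obtain ⟨n, hn⟩ : ∃ n : ℕ, n = (l ^ 2 - 1) / 8 := ⟨_, rfl⟩
      have h4 : l ^ 2 = 8 * n + 1 := by omega
      have h5 : ((l : ℤ)) ^ 2 = 8 * n + 1 := by exact_mod_cast h4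
      have h6 : 2 * (n : ℤ) = m * (m - 1) := by
        have h7 : 8 * (n : ℤ) = 4 * (m * (m - 1)) := by
          linear_combination (-1 : ℤ) * h5 + (-2 * m + 1 + l) * hm
        omega
      have h7 := H.tor he hg (l := (l : ℤ)) (by rw [Int.cast_natCast, hl]) hm h6
      rw [h7, ← hn, inv_pow, inv_inv, zpow_natCast]
      congr 1
      rw [pow_two, ← Nat.cast_mul, zpow_natCast]
  rw [inv_pow, inv_eq_one] at h3
  exact h3

end Ch5

end Pool.Agent.H.MP_59b15d_al.R1
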