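/-
The 5-chain of the local data `Loc`.
-/
import Pool.Agent.H.MP_59b15d_al.h11r.Chain
import Pool.Agent.H.MP_59b15d_al.h73x.Tr

set_option autoImplicit false

namespace Pool.Agent.H.MP_59b15d_al.R1

open Pool.Agent.H.MP_59b15d_al.SP
open Pool.Agent.H.MP_59b15d_al.H93C
open Pool.Agent.H.MP_59b15d_al.H73X
open Pool.Agent.H.MP_59b15d_al.PC (Prim)
open Matrix (SpecialLinearGroup)

variable {m : ℕ}

lemma co_e_left (k : Fin m) (w : V m) : co (e k) w = 0 := by
  rw [co]
  refine Finset.sum_eq_zero fun x _ => ?_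
  by_cases h : x = k
  · subst h; rw [e_self]; simp
  · rw [e_ne h]; simp

lemma co_f_right (k : Fin m) (w : V m) : co w (f k) = 0 := by
  rw [co]
  refine Finset.sum_eq_zero fun x _ => ?_
  by_cases h : x = k
  · subst h; rw [f_self]; simp
  · rw [f_ne h]; simp

lemma co_f_e {i l : Fin m} (hil : i ≠ l) : co (f i : V m) (e l) = 0 := by
  rw [co]
  refine Finset.sum_eq_zero fun x _ => ?_
  by_cases h : x = l
  · subst h; rw [f_ne hil.symm]; simp
  · rw [e_ne h]; simp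

lemma sub_eq_add_neg_one (a b : V m) : a - b = a + (-1 : ℤ) • b := by
  rw [neg_one_zsmul, sub_eq_add_neg]

variable {M0 Q : Type*} [Group M0] [Group Q]
  {q : M0 →* Q} {act : M0 →* (U m ≃ₗ[ℤ] U m)} {T : U m → Q} {s : Q} {M : ℕ}
  {i j l : Fin m}

section

variable (D : Loc q act T s M i j l)
include D

/-- Conjugation of twists. -/
lemma cj {a b b' : V m} {p r r' k : ℤ} (hu : (a, p) ∈ Om act l) (hv : (b, r) ∈ Om act l)
    (hk : om a b = k) (hb : b' = b + k • a) (hr : r' = r + k * (p - 1)) :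
    T (a, p) * T (b, r) * (T (a, p))⁻¹ = T (b', r') ∧ (b', r') ∈ Om act l := by
  obtain ⟨g, g1, g2⟩ := D.tact _ hu
  have h1 : act g (b, r) = (b', r') := by
    rw [g2]
    apply Prod.ext
    · change b + om a b • (a - 0) = b'
      rw [hk, hb, sub_zero]
    · change r + om a b * (p - 1) = r'
      rw [hk, hr]
  refine ⟨?_, h1 ▸ Om_act hv g⟩
  rw [← h1, ← g1]
  exact D.eqv g _ hv

/-- Conjugation of twists. -/
lemma cj' {a b b' : V m} {p r r' k : ℤ} (hu : (a, p) ∈ Om act l) (hv : (b, r) ∈ Om act l)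
    (hk : om a b = k) (hb : b' = b - k • a) (hr : r' = r - k * (p - 1)) :
    (T (a, p))⁻¹ * T (b, r) * T (a, p) = T (b', r') ∧ (b', r') ∈ Om act l := by
  obtain ⟨g, g1, g2⟩ := D.tact _ hu
  have h0 : om a b' = k := by
    rw [hb, om_sub_right, om_smul_right, om_self, mul_zero, sub_zero, hk]
  have h1 : act g (b', r') = (b, r) := by
    rw [g2]
    apply Prod.ext
    · change b' + om a b' • (a - 0) = b
      rw [h0, hb, sub_zero, sub_add_cancel]
    · change r' + om a b' * (p - 1) = r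
      rw [h0, hr, sub_add_cancel]
  have h2 : act g⁻¹ (b, r) = (b', r') := by rw [← h1, act_inv_apply]
  have h3 : (b', r') ∈ Om act l := h2 ▸ Om_act hv g⁻¹
  refine ⟨?_, h3⟩
  have h4 := D.eqv g _ h3
  rw [h1, g1] at h4
  rw [← h4]
  group

/-- Twists of disjoint curves commute. -/
lemma cmT {a b : V m} {p r : ℤ} (hu : (a, p) ∈ Om act l) (hv : (b, r) ∈ Om act l)
    (hk : om a b = 0) : Commute (T (a, p)) (T (b, r)) := by
  have h := (cj D hu hv hk (b' := b) (r' := r) (by rw [zero_smul, add_zero])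
    (by rw [zero_mul, add_zero])).1
  exact mul_inv_eq_iff_eq_mul.1 h

/-- The braid relation. -/
lemma brT {a b : V m} {p r : ℤ} (hu : (a, p) ∈ Om act l) (hv : (b, r) ∈ Om act l)
    (hk : om a b = 1) : T (a, p) * T (b, r) * T (a, p) = T (b, r) * T (a, p) * T (b, r) := by
  have h1 := (cj D hu hv hk (b' := a + b) (r' := r + p - 1)
    (by rw [one_smul, add_comm]) (by ring)).1
  have hk' : om b a = -1 := by rw [om_swap, hk]
  have h2 := (cj' D hv hu hk' (b' := a + b) (r' := r + p - 1)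
    (by rw [neg_one_zsmul, sub_neg_eq_add]) (by ring)).1
  rw [← h2] at h1
  have h3 := mul_inv_eq_iff_eq_mul.1 h1
  calc T (a, p) * T (b, r) * T (a, p) =
      T (b, r) * ((T (b, r))⁻¹ * T (a, p) * T (b, r) * T (a, p)) := by group
    _ = _ := by rw [← h3, mul_assoc]

lemma brT' {a b : V m} {p r : ℤ} (hu : (a, p) ∈ Om act l) (hv : (b, r) ∈ Om act l)
    (hk : om a b = -1) : T (a, p) * T (b, r) * T (a, p) = T (b, r) * T (a, p) * T (b, r) :=
  (brT D hv hu (by rw [om_swap, hk, neg_neg])).symm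

/-- **The 5-chain of the local data.** -/
theorem ch5 (h2 : (e l, 2) ∈ Om act l) (hs : s = 1)
    (hS : T (f i + e l, 2) * (T (f i, 2))⁻¹ * T (f i - e l, 2) * (T (f i, 2))⁻¹ =
      T (e l, 0) * T (e l, 2))
    (hS' : T (e l + f i, 0) * (T (e l, 0))⁻¹ * T (e l - f i, 0) * (T (e l, 0))⁻¹ =
      T (f i, 0) * T (f i, 2))
    (hB : T (e l - f i, 2) * (T (e l - f i, 0))⁻¹ =
      T (e l, 2) * (T (e l, 0))⁻¹ * (T (-f i, 2) * (T (-f i, 0))⁻¹)) :
    Ch5 (T (f i, 2)) (T (e i, 0)) (T (f i - e l, 2)) (T (f l, 2)) (T (e l, 0)) (T (e l, 2))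
      (T (-f i, 2) * (T (-f i, 0))⁻¹) := by
  have hil := D.hil
  have hli := D.hil.symm
  have oA : ((f i, 2) : U m) ∈ Om act l :=
    D.Om_of h2 ⟨-e i, by rw [om_neg_right, om_f_e, neg_neg]⟩ (by rw [co_f_right]; norm_num)
  have oA0 : ((f i, 0) : U m) ∈ Om act l :=
    D.Om_of h2 ⟨-e i, by rw [om_neg_right, om_f_e, neg_neg]⟩ (by rw [co_f_right]; norm_num)
  have oB : ((e i, 0) : U m) ∈ Om act l :=
    D.Om_of h2 ⟨f i, om_e_f i⟩ (by rw [co_e_left]; norm_num)
  have ov : ((f l, 2) : U m) ∈ Om act l :=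
    D.Om_of h2 ⟨-e l, by rw [om_neg_right, om_f_e, neg_neg]⟩ (by rw [co_f_right]; norm_num)
  have ox : ((e l, 0) : U m) ∈ Om act l := Om_base act l
  have oC : ((f i - e l, 2) : U m) ∈ Om act l := by
    refine D.Om_of h2 ⟨-e i, ?_⟩ ?_
    · rw [om_neg_right, om_sub_left, om_f_e, om_e_e]; norm_num
    · rw [sub_eq_add_neg, co_add_left, co_add_right, co_add_right, co_f_right, co_neg_left,
        co_neg_left, co_neg_right, co_f_e hil, co_e_left, co_e_left]
      norm_num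
  have oC0 : ((e l - f i, 0) : U m) ∈ Om act l := by
    refine D.Om_of h2 ⟨f l, ?_⟩ ?_
    · rw [om_sub_left, om_e_f, om_f_f]; norm_num
    · rw [sub_eq_add_neg, co_add_left, co_add_right, co_add_right, co_neg_right, co_neg_right,
        co_neg_left, co_neg_left, co_f_right, co_f_right, co_f_e hil, co_e_left]
      norm_num
  have oC2 : ((e l - f i, 2) : U m) ∈ Om act l := by
    have h := D.Om_add_two h2 oC0
    have e1 : (e l - f i, 0) + (0, 2) = ((e l - f i, 2) : U m) :=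
      Prod.ext (add_zero _) (zero_add _)
    rwa [e1] at h
  have hCC : T (f i - e l, 2) = T (e l - f i, 0) := by
    have h := D.sym _ oC0
    rw [← h]
    congr 1
    apply Prod.ext
    · change f i - e l = 0 - (e l - f i)
      rw [zero_sub, neg_sub]
    · rfl
  have hAA : T (-f i, 0) = T (f i, 2) := by
    have h := D.sym _ oA
    rw [← h]
    congr 1
    apply Prod.ext
    · change -f i = 0 - f i
      rw [zero_sub]
    · rfl
  have hAA0 : T (-f i, 2) = T (f i, 0) := by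
    have h := D.sym _ oA0
    rw [← h]
    congr 1
    apply Prod.ext
    · change -f i = 0 - f i
      rw [zero_sub]
    · rfl
  have bAB : T (f i, 2) * T (e i, 0) * T (f i, 2) = T (e i, 0) * T (f i, 2) * T (e i, 0) :=
    brT' D oA oB (om_f_e i)
  have bCB : T (f i - e l, 2) * T (e i, 0) * T (f i - e l, 2) =
      T (e i, 0) * T (f i - e l, 2) * T (e i, 0) :=
    brT' D oC oB (by rw [om_sub_left, om_f_e, om_e_e, sub_zero])
  have bCv : T (f i - e l, 2) * T (f l, 2) * T (f i - e l, 2) =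
      T (f l, 2) * T (f i - e l, 2) * T (f l, 2) :=
    brT' D oC ov (by rw [om_sub_left, om_f_f, om_e_f, zero_sub])
  have bxv : T (e l, 0) * T (f l, 2) * T (e l, 0) = T (f l, 2) * T (e l, 0) * T (f l, 2) :=
    brT D ox ov (om_e_f l)
  have bx1 : T (e l, 2) * T (f l, 2) * T (e l, 2) = T (f l, 2) * T (e l, 2) * T (f l, 2) :=
    brT D h2 ov (om_e_f l)
  have cAC : Commute (T (f i, 2)) (T (f i - e l, 2)) :=
    cmT D oA oC (by rw [om_sub_right, om_f_f, om_f_e_ne hil, sub_zero])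
  have cAv : Commute (T (f i, 2)) (T (f l, 2)) := cmT D oA ov (om_f_f i l)
  have cAx : Commute (T (f i, 2)) (T (e l, 0)) := cmT D oA ox (om_f_e_ne hil)
  have cBv : Commute (T (e i, 0)) (T (f l, 2)) := cmT D oB ov (om_e_f_ne hil)
  have cBx : Commute (T (e i, 0)) (T (e l, 0)) := cmT D oB ox (om_e_e i l)
  have cCx : Commute (T (f i - e l, 2)) (T (e l, 0)) :=
    cmT D oC ox (by rw [om_sub_left, om_f_e_ne hil, om_e_e, sub_zero])
  have cCx1 : Commute (T (f i - e l, 2)) (T (e l, 2)) :=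
    cmT D oC h2 (by rw [om_sub_left, om_f_e_ne hil, om_e_e, sub_zero])
  have cxx1 : Commute (T (e l, 0)) (T (e l, 2)) := cmT D ox h2 (om_e_e l l)
  have s2 : (T (e l, 0) * T (f l, 2) * T (e l, 0)) ^ 4 = 1 := by
    rw [braid_four bxv, D.s6, hs]
  -- the first pair, by conjugation
  have s1 : (T (f i, 2) * T (e i, 0) * T (f i, 2)) ^ 4 = 1 := by
    obtain ⟨A, hA⟩ : ∃ A, A = T (f i, 2) := ⟨_, rfl⟩
    obtain ⟨B, hB⟩ : ∃ B, B = T (e i, 0) := ⟨_, rfl⟩
    obtain ⟨C, hC⟩ : ∃ C, C = T (f i - e l, 2) := ⟨_, rfl⟩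
    obtain ⟨v, hv⟩ : ∃ v, v = T (f l, 2) := ⟨_, rfl⟩
    obtain ⟨x, hx⟩ : ∃ x, x = T (e l, 0) := ⟨_, rfl⟩
    rw [← hA, ← hB] at bAB
    rw [← hC, ← hB] at bCB
    rw [← hC, ← hv] at bCv
    rw [← hx, ← hv] at bxv
    rw [← hA, ← hC] at cAC
    rw [← hB, ← hv] at cBv
    rw [← hC, ← hx] at cCx
    rw [← hx, ← hv] at s2
    rw [← hA, ← hB]
    -- conjugation by a product of three
    have key : ∀ a b c : Q, a * b * a = b * a * b → c * b * c = b * c * b → Commute a c →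
        (a * b * c) * a * (a * b * c)⁻¹ = b ∧ (a * b * c) * b * (a * b * c)⁻¹ = c := by
      intro a b c h1 h2 h3
      constructor
      · rw [mul_inv_eq_iff_eq_mul]
        calc a * b * c * a = a * b * (c * a) := by simp only [mul_assoc]
          _ = (a * b * a) * c := by
            rw [← h3.eq]
            simp only [mul_assoc]
          _ = _ := by
            rw [h1]
            simp only [mul_assoc]
      · rw [mul_inv_eq_iff_eq_mul]
        calc a * b * c * b = a * (b * c * b) := by simp only [mul_assoc]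
          _ = (a * c) * b * c := by
            rw [← h2]
            simp only [mul_assoc]
          _ = _ := by
            rw [h3.eq]
            simp only [mul_assoc]
    have cj4 : ∀ g a b a' b' : Q, g * a * g⁻¹ = a' → g * b * g⁻¹ = b' →
        g * (a * b * a) ^ 4 * g⁻¹ = (a' * b' * a') ^ 4 := by
      intro g a b a' b' h1 h2
      rw [← conj_pow, ← h1, ← h2]
      congr 1
      group
    obtain ⟨k1, k2⟩ := key A B C bAB bCB cAC
    obtain ⟨k3, k4⟩ := key B C v bCB.symm bCv.symm cBv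
    obtain ⟨k5, k6⟩ := key C v x bCv bxv cCx
    have e1 := cj4 _ _ _ _ _ k1 k2
    have e2 := cj4 _ _ _ _ _ k3 k4
    have e3 := cj4 _ _ _ _ _ k5 k6
    rw [← bxv, s2, mul_inv_eq_iff_eq_mul, one_mul] at e3
    have e4 : (C * v * C) ^ 4 = 1 := mul_left_cancel (e3.trans (mul_one _).symm)
    rw [e4, mul_inv_eq_iff_eq_mul, one_mul] at e2
    have e5 : (B * C * B) ^ 4 = 1 := mul_left_cancel (e2.trans (mul_one _).symm)
    rw [e5, mul_inv_eq_iff_eq_mul, one_mul] at e1
    exact mul_left_cancel (e1.trans (mul_one _).symm)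
  have H1 : Br3 (T (f i, 2)) (T (e i, 0)) (T (f i - e l, 2)) := ⟨bAB, bCB, cAC, s1⟩
  have H2 : Br3 (T (e l, 0)) (T (f l, 2)) (T (f i - e l, 2)) := ⟨bxv, bCv, cCx.symm, s2⟩
  have H3 : Br3 (T (e l, 0)) (T (f l, 2)) (T (e l, 2)) := ⟨bxv, bx1, cxx1, s2⟩
  -- general identities
  have tw : ∀ a b c p z : Q, Br3 a b c → (a * b * a)⁻¹ * c * (a * b * a) = z →
      pD' a b c = z * b⁻¹ := by
    intro a b c _ z H h
    have h1 : (a * b * a)⁻¹ * a * (a * b * a) = b := by
      rw [mul_assoc, ← H.wb, inv_mul_cancel_left]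
    calc pD' a b c = ((a * b * a)⁻¹ * c * (a * b * a)) *
        ((a * b * a)⁻¹ * a * (a * b * a))⁻¹ := by
          rw [pD']
          group
      _ = _ := by rw [h, h1]
  have tp : ∀ a b c z : Q, Br3 a b c → pD' a b c * a * (pD' a b c)⁻¹ = z →
      pt a b c = z * a⁻¹ * c * a⁻¹ := by
    intro a b c z H h
    have h1 : a * pD' a b c = pD' a b c * c := H.aD'
    have h2 : pD' a b c * c * (pD' a b c)⁻¹ = a := by rw [← h1, mul_inv_cancel_right]
    rw [H.t_eq]
    calc pD' a b c * (pD a c)⁻¹ * (pD' a b c)⁻¹ * pD a c =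
        (pD' a b c * a * (pD' a b c)⁻¹) * (pD' a b c * c * (pD' a b c)⁻¹)⁻¹ * (c * a⁻¹) := by
          rw [pD]
          group
      _ = _ := by
        rw [h, h2]
        simp only [mul_assoc]
  have cj2 : ∀ a b c x y z t : Q, a⁻¹ * c * a = x → b⁻¹ * x * b = y → a⁻¹ * y * a = z → t = z →
      (a * b * a)⁻¹ * c * (a * b * a) = t := by
    intro a b c x y z t h1 h2 h3 h4
    rw [h4, ← h3, ← h2, ← h1]
    group
  have cm' : ∀ a c : Q, Commute a c → a⁻¹ * c * a = c := by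
    intro a c h
    rw [mul_assoc, ← h.eq, inv_mul_cancel_left]
  have cm : ∀ a c : Q, Commute a c → a * c * a⁻¹ = c := by
    intro a c h
    rw [h.eq, mul_inv_cancel_right]
  -- the first chain relation
  have hx1 : T (e l, 0) * T (e l, 2) = pt (T (f i, 2)) (T (e i, 0)) (T (f i - e l, 2)) := by
    obtain ⟨k1, o1⟩ := cj' D oB oC (b' := f i - e l - e i) (r' := 3) (k := 1)
      (by rw [om_sub_right, om_e_f, om_e_e, sub_zero]) (by module) (by norm_num)
    obtain ⟨k2, o2⟩ := cj' D oA o1 (b' := -e l - e i) (r' := 2) (k := 1)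
      (by rw [om_sub_right, om_sub_right, om_f_f, om_f_e_ne hil, om_f_e]; norm_num)
      (by module) (by norm_num)
    have h1 := tw _ _ _ 1 _ H1 (cj2 _ _ _ _ _ _ _ (cm' _ _ cAC) k1 k2 rfl)
    obtain ⟨k3, o3⟩ := cj' D oB oA (b' := f i - e i) (r' := 3) (k := 1)
      (om_e_f i) (by module) (by norm_num)
    obtain ⟨k4, o4⟩ := cj D o2 o3 (b' := f i + e l) (r' := 2) (k := -1)
      (by rw [om_sub_left, om_neg_left, om_sub_right, om_sub_right, om_e_f_ne hli, om_e_e,
        om_e_f, om_e_e]; norm_num) (by module) (by norm_num)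
    rw [← hS]
    refine (tp _ _ _ _ H1 ?_).symm
    rw [h1, ← k4, ← k3]
    group
  have hE : pD' (T (e l, 0)) (T (f l, 2)) (T (f i - e l, 2)) =
      T (f i - f l, 0) * (T (f l, 2))⁻¹ ∧ (f i - f l, 0) ∈ Om act l := by
    obtain ⟨k1, o1⟩ := cj' D ov oC (b' := f i - e l - f l) (r' := 1) (k := 1)
      (by rw [om_sub_right, om_f_f, om_f_e]; norm_num) (by module) (by norm_num)
    obtain ⟨k2, o2⟩ := cj' D ox o1 (b' := f i - f l) (r' := 0) (k := -1)
      (by rw [om_sub_right, om_sub_right, om_e_f_ne hli, om_e_e, om_e_f]; norm_num)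
      (by module) (by norm_num)
    exact ⟨tw _ _ _ 1 _ H2 (cj2 _ _ _ _ _ _ _ (cm' _ _ cCx.symm) k1 k2 rfl), o2⟩
  obtain ⟨hE, oE⟩ := hE
  have hy : T (f i, 2) * T (f i, 2) * (T (-f i, 2) * (T (-f i, 0))⁻¹) =
      pt (T (e l, 0)) (T (f l, 2)) (T (f i - e l, 2)) := by
    obtain ⟨k3, o3⟩ := cj' D ov ox (b' := e l + f l) (r' := 1) (k := -1)
      (om_f_e l) (by module) (by norm_num)
    obtain ⟨k4, o4⟩ := cj D oE o3 (b' := e l + f i) (r' := 0) (k := 1)
      (by rw [om_sub_left, om_add_right, om_add_right, om_f_e_ne hil, om_f_f, om_f_e, om_f_f]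
          norm_num) (by module) (by norm_num)
    have h1 : pt (T (e l, 0)) (T (f l, 2)) (T (f i - e l, 2)) = T (f i, 0) * T (f i, 2) := by
      rw [← hS', ← hCC]
      refine tp _ _ _ _ H2 ?_
      rw [hE, ← k4, ← k3]
      group
    have h2 : Commute (T (f i, 2)) (T (f i, 0)) := cmT D oA oA0 (om_f_f i i)
    rw [h1, hAA, hAA0]
    calc T (f i, 2) * T (f i, 2) * (T (f i, 0) * (T (f i, 2))⁻¹) =
        T (f i, 2) * (T (f i, 2) * T (f i, 0)) * (T (f i, 2))⁻¹ := by simp only [mul_assoc]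
      _ = T (f i, 0) * T (f i, 2) := by
        rw [h2.eq, ← mul_assoc, h2.eq]
        group
  refine ⟨bAB, bCB, bCv, bxv, cAC, cAv, cAx, cBv, cBx, cCx, s1, s2, hx1, hy, bx1, ?_, ?_⟩
  · -- the boundary element commutes with `C`
    obtain ⟨k1, o1⟩ := cj' D ov h2 (b' := e l + f l) (r' := 3) (k := -1)
      (om_f_e l) (by module) (by norm_num)
    obtain ⟨k2, o2⟩ := cj' D ox o1 (b' := f l) (r' := 4) (k := 1)
      (by rw [om_add_right, om_e_e, om_e_f]; norm_num) (by module) (by norm_num)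
    have h1 := tw _ _ _ 1 _ H3 (cj2 _ _ _ _ _ _ _ (cm' _ _ cxx1) k1 k2 rfl)
    obtain ⟨k3, o3⟩ := cj' D o2 oC (b' := f i - e l - f l) (r' := -1) (k := 1)
      (by rw [om_sub_right, om_f_f, om_f_e]; norm_num) (by module) (by norm_num)
    obtain ⟨k4, o4⟩ := cj D ov o3 (b' := f i - e l) (r' := 0) (k := 1)
      (by rw [om_sub_right, om_sub_right, om_f_f, om_f_e, om_f_f]; norm_num)
      (by module) (by norm_num)
    have h3 : (pD' (T (e l, 0)) (T (f l, 2)) (T (e l, 2)))⁻¹ * T (f i - e l, 2) *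
        pD' (T (e l, 0)) (T (f l, 2)) (T (e l, 2)) = T (f i - e l, 0) := by
      rw [h1, ← k4, ← k3]
      group
    have h4 : Commute (T (f i - e l, 0)) (pD (T (e l, 0)) (T (e l, 2))) :=
      (cmT D o4 h2 (by rw [om_sub_left, om_f_e_ne hil, om_e_e, sub_zero])).mul_right
        (cmT D o4 ox (by rw [om_sub_left, om_f_e_ne hil, om_e_e, sub_zero])).inv_right
    have h5 : Commute (T (f i - e l, 2)) (pD (T (e l, 0)) (T (e l, 2))) :=
      cCx1.mul_right cCx.inv_right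
    obtain ⟨Yx, hYx⟩ : ∃ Yx, Yx = pD (T (e l, 0)) (T (e l, 2)) := ⟨_, rfl⟩
    obtain ⟨Yv, hYv⟩ : ∃ Yv, Yv = pD' (T (e l, 0)) (T (f l, 2)) (T (e l, 2)) := ⟨_, rfl⟩
    obtain ⟨C, hC⟩ : ∃ C, C = T (f i - e l, 2) := ⟨_, rfl⟩
    rw [H3.t_eq, ← hYx, ← hYv, ← hC]
    rw [← hYx] at h4 h5
    rw [← hYv, ← hC] at h3
    rw [← hC] at h5
    rw [← h3] at h4
    have h6 : Yv * Yx⁻¹ * Yv⁻¹ * Yx * C = C * (Yv * Yx⁻¹ * Yv⁻¹ * Yx) := by
      calc Yv * Yx⁻¹ * Yv⁻¹ * Yx * C = Yv * Yx⁻¹ * Yv⁻¹ * (Yx * C) := by simp only [mul_assoc]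
        _ = Yv * (Yx⁻¹ * (Yv⁻¹ * C * Yv)) * Yv⁻¹ * Yx := by
          rw [← h5.eq]
          group
        _ = _ := by
          rw [← h4.inv_right.eq]
          group
    exact h6
  · -- the additivity relation
    obtain ⟨k1, o1⟩ := cj' D oE ox (b' := e l - f i + f l) (r' := 1) (k := 1)
      (by rw [om_sub_left, om_f_e_ne hil, om_f_e]; norm_num) (by module) (by norm_num)
    obtain ⟨k2, o2⟩ := cj D ov o1 (b' := e l - f i) (r' := 0) (k := -1)
      (by rw [om_add_right, om_sub_right, om_f_e, om_f_f, om_f_f]; norm_num)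
      (by module) (by norm_num)
    obtain ⟨k3, o3⟩ := cj' D oE h2 (b' := e l - f i + f l) (r' := 3) (k := 1)
      (by rw [om_sub_left, om_f_e_ne hil, om_f_e]; norm_num) (by module) (by norm_num)
    obtain ⟨k4, o4⟩ := cj D ov o3 (b' := e l - f i) (r' := 2) (k := -1)
      (by rw [om_add_right, om_sub_right, om_f_e, om_f_f, om_f_f]; norm_num)
      (by module) (by norm_num)
    have c1 := cm _ _ (cmT D oA oC0 (by rw [om_sub_right, om_f_e_ne hil, om_f_f, sub_zero]))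
    have c2 := cm _ _ (cmT D oA oC2 (by rw [om_sub_right, om_f_e_ne hil, om_f_f, sub_zero]))
    rw [← hB, hE]
    calc T (f i, 2) * (T (f i - f l, 0) * (T (f l, 2))⁻¹)⁻¹ * (T (e l, 2) * (T (e l, 0))⁻¹) *
        (T (f i, 2) * (T (f i - f l, 0) * (T (f l, 2))⁻¹)⁻¹)⁻¹ =
        (T (f i, 2) * (T (f l, 2) * ((T (f i - f l, 0))⁻¹ * T (e l, 2) * T (f i - f l, 0)) *
          (T (f l, 2))⁻¹) * (T (f i, 2))⁻¹) *
        (T (f i, 2) * (T (f l, 2) * ((T (f i - f l, 0))⁻¹ * T (e l, 0) * T (f i - f l, 0)) *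
          (T (f l, 2))⁻¹) * (T (f i, 2))⁻¹)⁻¹ := by group
      _ = _ := by rw [k1, k2, k3, k4, c1, c2]

/-- The action of the words in the two twists of a handle. -/
lemma word_act (h2 : (e l, 2) ∈ Om act l) {N : ℕ} {w : Q × SpecialLinearGroup (Fin 2) (ZMod N)}
    (hw : w ∈ G0 N (T (f i, 2)) (T (e i, 0))) :
    ∃ g : M0, q g = w.1 ∧ ∀ x : U m, ∃ p r : ℤ, act g x = x + p • (f i, 1) + r • (e i, -1) ∧
      ((om (e i) x.1 + p : ℤ) : ZMod N) = w.2.1 0 0 * (om (e i) x.1 : ℤ) +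
        w.2.1 0 1 * (om (f i) x.1 : ℤ) ∧
      ((om (f i) x.1 - r : ℤ) : ZMod N) = w.2.1 1 0 * (om (e i) x.1 : ℤ) +
        w.2.1 1 1 * (om (f i) x.1 : ℤ) := by
  have oA : ((f i, 2) : U m) ∈ Om act l :=
    D.Om_of h2 ⟨-e i, by rw [om_neg_right, om_f_e, neg_neg]⟩ (by rw [co_f_right]; norm_num)
  have oB : ((e i, 0) : U m) ∈ Om act l :=
    D.Om_of h2 ⟨f i, om_e_f i⟩ (by rw [co_e_left]; norm_num)
  obtain ⟨gA, a1, a2⟩ := D.tact _ oA
  obtain ⟨gB, b1, b2⟩ := D.tact _ oB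
  have hA : ∀ x : U m, act gA x = x + om (f i) x.1 • ((f i, 1) : U m) := by
    intro x
    rw [a2]
    apply Prod.ext
    · change x.1 + om (f i) x.1 • (f i - 0) = x.1 + om (f i) x.1 • f i
      rw [sub_zero]
    · rfl
  have hB : ∀ x : U m, act gB x = x + om (e i) x.1 • ((e i, -1) : U m) := by
    intro x
    rw [b2]
    apply Prod.ext
    · change x.1 + om (e i) x.1 • (e i - 0) = x.1 + om (e i) x.1 • e i
      rw [sub_zero]
    · rfl
  have hA' : ∀ x : U m, act gA⁻¹ x = x - om (f i) x.1 • ((f i, 1) : U m) := by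
    intro x
    have h3 := hA (x - om (f i) x.1 • ((f i, 1) : U m))
    have h4 : om (f i) (x - om (f i) x.1 • ((f i, 1) : U m)).1 = om (f i) x.1 := by
      change om (f i) (x.1 - om (f i) x.1 • f i) = _
      rw [om_sub_right, om_smul_right, om_self, mul_zero, sub_zero]
    rw [h4, sub_add_cancel] at h3
    rw [← h3, act_inv_apply, h3]
  have hB' : ∀ x : U m, act gB⁻¹ x = x - om (e i) x.1 • ((e i, -1) : U m) := by
    intro x
    have h3 := hB (x - om (e i) x.1 • ((e i, -1) : U m))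
    have h4 : om (e i) (x - om (e i) x.1 • ((e i, -1) : U m)).1 = om (e i) x.1 := by
      change om (e i) (x.1 - om (e i) x.1 • e i) = _
      rw [om_sub_right, om_smul_right, om_self, mul_zero, sub_zero]
    rw [h4, sub_add_cancel] at h3
    rw [← h3, act_inv_apply, h3]
  unfold G0 at hw
  induction hw using Subgroup.closure_induction_left with
  | one =>
    refine ⟨1, map_one q, fun x => ⟨0, 0, ?_, ?_, ?_⟩⟩
    · rw [act_one, zero_smul, zero_smul, add_zero, add_zero]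
    · rw [add_zero]
      simp
    · rw [sub_zero]
      simp
  | mul_left p hp y _ ih =>
    obtain ⟨g, hg, ih⟩ := ih
    rcases hp with rfl | rfl
    · refine ⟨gA * g, ?_, fun x => ?_⟩
      · rw [map_mul, hg, a1]
        rfl
      · obtain ⟨p, r, h1, h3, h4⟩ := ih x
        have h5 : om (f i) (act g x).1 = om (f i) x.1 - r := by
          rw [h1]
          change om (f i) (x.1 + p • f i + r • e i) = _
          rw [om_add_right, om_add_right, om_smul_right, om_smul_right, om_self, om_f_e]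
          ring
        refine ⟨p + (om (f i) x.1 - r), r, ?_, ?_, ?_⟩
        · rw [act_mul, hA, h5, h1]
          module
        · have e1 : ((om (e i) x.1 + (p + (om (f i) x.1 - r)) : ℤ) : ZMod N) =
              ((om (e i) x.1 + p : ℤ) : ZMod N) + ((om (f i) x.1 - r : ℤ) : ZMod N) := by
            push_cast
            ring
          rw [e1, h3, h4]
          change _ = (X 1 * y.2).1 0 0 * _ + (X 1 * y.2).1 0 1 * _
          rw [mul00, mul01, X00, X01]
          ring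
        · rw [h4]
          change _ = (X 1 * y.2).1 1 0 * _ + (X 1 * y.2).1 1 1 * _
          rw [mul10, mul11, X10, X11]
          ring
    · refine ⟨gB * g, ?_, fun x => ?_⟩
      · rw [map_mul, hg, b1]
        rfl
      · obtain ⟨p, r, h1, h3, h4⟩ := ih x
        have h5 : om (e i) (act g x).1 = om (e i) x.1 + p := by
          rw [h1]
          change om (e i) (x.1 + p • f i + r • e i) = _
          rw [om_add_right, om_add_right, om_smul_right, om_smul_right, om_self, om_e_f]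
          ring
        refine ⟨p, r + (om (e i) x.1 + p), ?_, ?_, ?_⟩
        · rw [act_mul, hB, h5, h1]
          module
        · rw [h3]
          change _ = (Y (-1) * y.2).1 0 0 * _ + (Y (-1) * y.2).1 0 1 * _
          rw [mul00, mul01, Y00, Y01]
          ring
        · have e1 : ((om (f i) x.1 - (r + (om (e i) x.1 + p)) : ℤ) : ZMod N) =
              ((om (f i) x.1 - r : ℤ) : ZMod N) - ((om (e i) x.1 + p : ℤ) : ZMod N) := by
            push_cast
            ring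
          rw [e1, h3, h4]
          change _ = (Y (-1) * y.2).1 1 0 * _ + (Y (-1) * y.2).1 1 1 * _
          rw [mul10, mul11, Y10, Y11]
          ring
  | inv_mul_cancel p hp y _ ih =>
    obtain ⟨g, hg, ih⟩ := ih
    rcases hp with rfl | rfl
    · refine ⟨gA⁻¹ * g, ?_, fun x => ?_⟩
      · rw [map_mul, hg, map_inv, a1]
        rfl
      · obtain ⟨p, r, h1, h3, h4⟩ := ih x
        have h5 : om (f i) (act g x).1 = om (f i) x.1 - r := by
          rw [h1]
          change om (f i) (x.1 + p • f i + r • e i) = _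
          rw [om_add_right, om_add_right, om_smul_right, om_smul_right, om_self, om_f_e]
          ring
        refine ⟨p - (om (f i) x.1 - r), r, ?_, ?_, ?_⟩
        · rw [act_mul, hA', h5, h1]
          module
        · have e1 : ((om (e i) x.1 + (p - (om (f i) x.1 - r)) : ℤ) : ZMod N) =
              ((om (e i) x.1 + p : ℤ) : ZMod N) - ((om (f i) x.1 - r : ℤ) : ZMod N) := by
            push_cast
            ring
          rw [e1, h3, h4]
          change _ = ((X 1)⁻¹ * y.2).1 0 0 * _ + ((X 1)⁻¹ * y.2).1 0 1 * _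
          rw [Br3.X_inv', mul00, mul01, X00, X01]
          ring
        · rw [h4]
          change _ = ((X 1)⁻¹ * y.2).1 1 0 * _ + ((X 1)⁻¹ * y.2).1 1 1 * _
          rw [Br3.X_inv', mul10, mul11, X10, X11]
          ring
    · refine ⟨gB⁻¹ * g, ?_, fun x => ?_⟩
      · rw [map_mul, hg, map_inv, b1]
        rfl
      · obtain ⟨p, r, h1, h3, h4⟩ := ih x
        have h5 : om (e i) (act g x).1 = om (e i) x.1 + p := by
          rw [h1]
          change om (e i) (x.1 + p • f i + r • e i) = _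
          rw [om_add_right, om_add_right, om_smul_right, om_smul_right, om_self, om_e_f]
          ring
        refine ⟨p, r - (om (e i) x.1 + p), ?_, ?_, ?_⟩
        · rw [act_mul, hB', h5, h1]
          module
        · rw [h3]
          change _ = ((Y (-1))⁻¹ * y.2).1 0 0 * _ + ((Y (-1))⁻¹ * y.2).1 0 1 * _
          rw [Br3.Y_inv', mul00, mul01, Y00, Y01]
          ring
        · have e1 : ((om (f i) x.1 - (r - (om (e i) x.1 + p)) : ℤ) : ZMod N) =
              ((om (f i) x.1 - r : ℤ) : ZMod N) + ((om (e i) x.1 + p : ℤ) : ZMod N) := by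
            push_cast
            ring
          rw [e1, h3, h4]
          change _ = ((Y (-1))⁻¹ * y.2).1 1 0 * _ + ((Y (-1))⁻¹ * y.2).1 1 1 * _
          rw [Br3.Y_inv', mul10, mul11, Y10, Y11]
          ring

/-- The words of a handle which are trivial modulo `8 * e`, `M ∣ 8 * e`, are central. -/
lemma word_cen (h2 : (e l, 2) ∈ Om act l) {N : ℕ} (hN : M ∣ N) {y : Q}
    (hy : (y, (1 : SpecialLinearGroup (Fin 2) (ZMod N))) ∈ G0 N (T (f i, 2)) (T (e i, 0)))
    (z : Q) : Commute y z := by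
  obtain ⟨g, hg, h⟩ := word_act D h2 hy
  have hg' : q g = y := hg
  rw [← hg']
  refine D.cen g (fun x => ?_) z
  obtain ⟨p, r, h1, h3, h4⟩ := h x
  have e00 : (1 : SpecialLinearGroup (Fin 2) (ZMod N)).1 0 0 = 1 := rfl
  have e01 : (1 : SpecialLinearGroup (Fin 2) (ZMod N)).1 0 1 = 0 := rfl
  have e10 : (1 : SpecialLinearGroup (Fin 2) (ZMod N)).1 1 0 = 0 := rfl
  have e11 : (1 : SpecialLinearGroup (Fin 2) (ZMod N)).1 1 1 = 1 := rfl
  change ((om (e i) x.1 + p : ℤ) : ZMod N) =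
    (1 : SpecialLinearGroup (Fin 2) (ZMod N)).1 0 0 * _ +
      (1 : SpecialLinearGroup (Fin 2) (ZMod N)).1 0 1 * _ at h3
  change ((om (f i) x.1 - r : ℤ) : ZMod N) =
    (1 : SpecialLinearGroup (Fin 2) (ZMod N)).1 1 0 * _ +
      (1 : SpecialLinearGroup (Fin 2) (ZMod N)).1 1 1 * _ at h4
  rw [e00, e01, one_mul, zero_mul, add_zero, Int.cast_add, add_eq_left] at h3
  rw [e10, e11, one_mul, zero_mul, zero_add, Int.cast_sub, sub_eq_self] at h4
  have h5 : ((M : ℕ) : ℤ) ∣ p :=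
    (Int.natCast_dvd_natCast.2 hN).trans ((ZMod.intCast_zmod_eq_zero_iff_dvd p N).1 h3)
  have h6 : ((M : ℕ) : ℤ) ∣ r :=
    (Int.natCast_dvd_natCast.2 hN).trans ((ZMod.intCast_zmod_eq_zero_iff_dvd r N).1 h4)
  obtain ⟨p', rfl⟩ := h5
  obtain ⟨r', rfl⟩ := h6
  exact ⟨p' • (f i, 1) + r' • (e i, -1), by rw [h1]; module⟩

/-- **`σ ^ 3 = 1` for the local data.** -/
theorem loc_cube [Finite Q] (h2 : (e l, 2) ∈ Om act l) (hs : s = 1)
    (hS : T (f i + e l, 2) * (T (f i, 2))⁻¹ * T (f i - e l, 2) * (T (f i, 2))⁻¹ =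
      T (e l, 0) * T (e l, 2))
    (hS' : T (e l + f i, 0) * (T (e l, 0))⁻¹ * T (e l - f i, 0) * (T (e l, 0))⁻¹ =
      T (f i, 0) * T (f i, 2))
    (hB : T (e l - f i, 2) * (T (e l - f i, 0))⁻¹ =
      T (e l, 2) * (T (e l, 0))⁻¹ * (T (-f i, 2) * (T (-f i, 0))⁻¹)) :
    pt (T (e l, 0)) (T (f l, 2)) (T (e l, 2)) ^ 3 = 1 := by
  have H := ch5 D h2 hs hS hS' hB
  have hM := D.hM
  have hc : Nat.card Q ≠ 0 := Nat.card_pos.ne'
  refine H.s_cube (e := Nat.card Q * M) (mul_ne_zero hc hM) ?_ ?_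
  · intro y
    rw [pow_mul, pow_card_eq_one', one_pow]
  · intro y hy
    have h := word_cen D h2 (Dvd.intro_left (8 * Nat.card Q) (by ring)) hy
    exact ⟨h _, h _⟩

/-- The boundary element in terms of the bounding pairs. -/
lemma pt_eq (h2 : (e l, 2) ∈ Om act l) (hs : s = 1) :
    pt (T (e l, 0)) (T (f l, 2)) (T (e l, 2)) =
      (T (e l, 0) * (T (e l, -2))⁻¹)⁻¹ * (T (e l, 2) * (T (e l, 0))⁻¹) := by
  have ov : ((f l, 2) : U m) ∈ Om act l :=
    D.Om_of h2 ⟨-e l, by rw [om_neg_right, om_f_e, neg_neg]⟩ (by rw [co_f_right]; norm_num)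
  have ox : ((e l, 0) : U m) ∈ Om act l := Om_base act l
  have bxv : T (e l, 0) * T (f l, 2) * T (e l, 0) = T (f l, 2) * T (e l, 0) * T (f l, 2) :=
    brT D ox ov (om_e_f l)
  have bx1 : T (e l, 2) * T (f l, 2) * T (e l, 2) = T (f l, 2) * T (e l, 2) * T (f l, 2) :=
    brT D h2 ov (om_e_f l)
  have cxx1 : Commute (T (e l, 0)) (T (e l, 2)) := cmT D ox h2 (om_e_e l l)
  have s2 : (T (e l, 0) * T (f l, 2) * T (e l, 0)) ^ 4 = 1 := by
    rw [braid_four bxv, D.s6, hs]
  have H3 : Br3 (T (e l, 0)) (T (f l, 2)) (T (e l, 2)) := ⟨bxv, bx1, cxx1, s2⟩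
  obtain ⟨k1, o1⟩ := cj' D ov h2 (b' := e l + f l) (r' := 3) (k := -1)
    (om_f_e l) (by module) (by norm_num)
  obtain ⟨k2, o2⟩ := cj' D ox o1 (b' := f l) (r' := 4) (k := 1)
    (by rw [om_add_right, om_e_e, om_e_f]; norm_num) (by module) (by norm_num)
  have h1 : pD' (T (e l, 0)) (T (f l, 2)) (T (e l, 2)) = T (f l, 4) * (T (f l, 2))⁻¹ := by
    have e1 : (T (e l, 0) * T (f l, 2) * T (e l, 0))⁻¹ * T (e l, 0) *
        (T (e l, 0) * T (f l, 2) * T (e l, 0)) = T (f l, 2) := by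
      rw [mul_assoc, ← H3.wb, inv_mul_cancel_left]
    calc pD' (T (e l, 0)) (T (f l, 2)) (T (e l, 2)) =
        ((T (e l, 0))⁻¹ * ((T (f l, 2))⁻¹ * ((T (e l, 0))⁻¹ * T (e l, 2) * T (e l, 0)) *
          T (f l, 2)) * T (e l, 0)) * ((T (e l, 0) * T (f l, 2) * T (e l, 0))⁻¹ * T (e l, 0) *
        (T (e l, 0) * T (f l, 2) * T (e l, 0)))⁻¹ := by
          rw [pD']
          group
      _ = _ := by
        rw [e1, mul_assoc (T (e l, 0))⁻¹ (T (e l, 2)), ← cxx1.eq, inv_mul_cancel_left, k1, k2]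
  obtain ⟨k3, o3⟩ := cj' D ov ox (b' := e l + f l) (r' := 1) (k := -1)
    (om_f_e l) (by module) (by norm_num)
  obtain ⟨k4, o4⟩ := cj D o2 o3 (b' := e l) (r' := -2) (k := -1)
    (by rw [om_add_right, om_f_e, om_f_f]; norm_num) (by module) (by norm_num)
  obtain ⟨k5, o5⟩ := cj D o2 o1 (b' := e l) (r' := 0) (k := -1)
    (by rw [om_add_right, om_f_e, om_f_f]; norm_num) (by module) (by norm_num)
  rw [H3.t_eq, h1, pD]
  calc T (f l, 4) * (T (f l, 2))⁻¹ * (T (e l, 2) * (T (e l, 0))⁻¹)⁻¹ *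
      (T (f l, 4) * (T (f l, 2))⁻¹)⁻¹ * (T (e l, 2) * (T (e l, 0))⁻¹) =
      ((T (f l, 4) * ((T (f l, 2))⁻¹ * T (e l, 2) * T (f l, 2)) * (T (f l, 4))⁻¹) *
        (T (f l, 4) * ((T (f l, 2))⁻¹ * T (e l, 0) * T (f l, 2)) * (T (f l, 4))⁻¹)⁻¹)⁻¹ *
      (T (e l, 2) * (T (e l, 0))⁻¹) := by group
    _ = _ := by rw [k1, k3, k4, k5]

/-- **`σ ^ 3 = 1` for the local data**, in terms of the bounding pairs. -/
theorem loc_sigma [Finite Q] (h2 : (e l, 2) ∈ Om act l) (hs : s = 1)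
    (hS : T (f i + e l, 2) * (T (f i, 2))⁻¹ * T (f i - e l, 2) * (T (f i, 2))⁻¹ =
      T (e l, 0) * T (e l, 2))
    (hS' : T (e l + f i, 0) * (T (e l, 0))⁻¹ * T (e l - f i, 0) * (T (e l, 0))⁻¹ =
      T (f i, 0) * T (f i, 2))
    (hB : T (e l - f i, 2) * (T (e l - f i, 0))⁻¹ =
      T (e l, 2) * (T (e l, 0))⁻¹ * (T (-f i, 2) * (T (-f i, 0))⁻¹))
    {u : U m} (hu : u ∈ Om act l) :
    ((T (u + (0, 2)) * (T u)⁻¹)⁻¹ * (T (u + (0, 2) + (0, 2)) * (T (u + (0, 2)))⁻¹)) ^ 3 = 1 := by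
  have h3 := loc_cube D h2 hs hS hS' hB
  rw [pt_eq D h2 hs] at h3
  have hu' := D.Om_sub_two h2 (Om_base act l)
  obtain ⟨g, hg⟩ := hu
  have e0 : ((e l, -2) : U m) + (0, 2) = (e l, 0) := Prod.ext (add_zero _) rfl
  have e1 : ((e l, 0) : U m) + (0, 2) = (e l, 2) := Prod.ext (add_zero _) rfl
  have o0 : ((e l, -2) : U m) ∈ Om act l := by
    have e2 : ((e l, 0) : U m) + (0, -2) = (e l, -2) := Prod.ext (add_zero _) rfl
    rwa [e2] at hu'
  -- an element moving `(e l, -2)` to `u`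
  obtain ⟨k, hk⟩ : ∃ k, act k (e l, -2) = u := by
    obtain ⟨k, hk⟩ := o0
    exact ⟨g * k⁻¹, by rw [act_mul, ← hk, act_inv_apply, hg]⟩
  have k0 := D.eqv k _ o0
  have k1 := D.eqv k _ (Om_base act l)
  have k2 := D.eqv k _ h2
  rw [← e0, D.act_add, hk] at k1
  rw [← e1, ← e0, D.act_add, D.act_add, hk] at k2
  rw [hk] at k0
  rw [← k0, ← k1, ← k2, e0, e1]
  have h4 : (q k * ((T (e l, 0) * (T (e l, -2))⁻¹)⁻¹ * (T (e l, 2) * (T (e l, 0))⁻¹)) *
      (q k)⁻¹) ^ 3 = 1 := by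
    rw [conj_pow, h3, mul_one, mul_inv_cancel]
  rw [← h4]
  congr 1
  group

end

end Pool.Agent.H.MP_59b15d_al.R1
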