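/-
`σ ^ 3 = 1` for the local data.
-/
import Pool.Agent.H.MP_59b15d_al.h11r.Cho
import Pool.Agent.H.MP_59b15d_al.h73x.Lo

set_option autoImplicit false

namespace Pool.Agent.H.MP_59b15d_al.R1

open Pool.Agent.H.MP_59b15d_al.SP
open Pool.Agent.H.MP_59b15d_al.H93C
open Pool.Agent.H.MP_59b15d_al.H73X
open Pool.Agent.H.MP_59b15d_al.PC (Prim AdjA)

variable {m : ℕ} {M0 Q : Type*} [Group M0] [Group Q]
  {q : M0 →* Q} {act : M0 →* (U m ≃ₗ[ℤ] U m)} {T : U m → Q} {s : Q} {M : ℕ}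
  {i j l : Fin m}

/-- Rearrangement. -/
lemma rearr {Q : Type*} [Group Q] {p a n x x1 : Q} (h1 : Commute p a) (h2 : Commute n a)
    (h3 : Commute p n) (h4 : Commute a x) (h5 : Commute a x1) (h6 : Commute x x1)
    (h : n * p = a * a * x1 * x) : p * a⁻¹ * n * a⁻¹ = x * x1 := by
  calc p * a⁻¹ * n * a⁻¹ = p * (a⁻¹ * n) * a⁻¹ := by simp only [mul_assoc]
    _ = (n * p) * a⁻¹ * a⁻¹ := by
      rw [← h2.inv_right.eq, ← mul_assoc, h3.eq]
    _ = a * (a * (x1 * x * a⁻¹)) * a⁻¹ := by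
      rw [h]
      simp only [mul_assoc]
    _ = _ := by
      rw [← (h5.mul_right h4).inv_left.eq, mul_inv_cancel_left, (h5.mul_right h4).eq,
        mul_inv_cancel_right, h6.eq]

/-- **The element `σ` has order dividing three**, for every finite quotient. -/
theorem sg_cube (D : Loc q act T s M i j l) [Finite Q] : sg T l ^ 3 = 1 := by
  have hil := D.hil
  have hli := D.hil.symm
  have adj1 : AdjA (f i : V m) (e l) := by
    refine ⟨om_f_e_ne hil, ⟨-e i, ?_, ?_⟩, f l, ?_, ?_⟩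
    · rw [om_neg_right, om_f_e, neg_neg]
    · rw [om_neg_right, om_e_e, neg_zero]
    · exact om_f_f i l
    · exact om_e_f l
  have adj2 : AdjA (e l : V m) (f i) := by
    refine ⟨om_e_f_ne hli, ⟨f l, ?_, ?_⟩, -e i, ?_, ?_⟩
    · exact om_e_f l
    · exact om_f_f i l
    · rw [om_neg_right, om_e_e, neg_zero]
    · rw [om_neg_right, om_f_e, neg_neg]
  have pA : Par ((f i, 2) : U m) := by
    change (2 : ℤ) ∣ 2 + co (f i) (f i)
    rw [co_f_right]
    norm_num
  have pA0 : Par ((f i, 0) : U m) := by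
    change (2 : ℤ) ∣ 0 + co (f i) (f i)
    rw [co_f_right]
    norm_num
  have px : Par ((e l, 0) : U m) := by
    change (2 : ℤ) ∣ 0 + co (e l) (e l)
    rw [co_e_left]
    norm_num
  have oA : ((f i, 2) : U m) ∈ Om act l :=
    D.Om_of D.two ⟨-e i, by rw [om_neg_right, om_f_e, neg_neg]⟩ pA
  have oA0 : ((f i, 0) : U m) ∈ Om act l :=
    D.Om_of D.two ⟨-e i, by rw [om_neg_right, om_f_e, neg_neg]⟩ pA0
  have ox : ((e l, 0) : U m) ∈ Om act l := Om_base act l
  have ox2 : ((e l, 2) : U m) ∈ Om act l := D.two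
  have m1 : ∀ (a b : V m) (c d k : ℤ), k = c + d → ((a, c) : U m) + (b, d) = (a + b, k) := by
    rintro a b c d k rfl
    rfl
  have m2 : ∀ (a b : V m) (c d k : ℤ), k = c - d → ((a, c) : U m) - (b, d) = (a - b, k) := by
    rintro a b c d k rfl
    rfl
  have m3 : ∀ (a : V m) (c d k : ℤ), k = c + d → ((a, c) : U m) + (0, d) = (a, k) := by
    rintro a c d k rfl
    exact Prod.ext (add_zero _) rfl
  have oC : ((f i - e l, 2) : U m) ∈ Om act l := by
    rw [← m2 (f i) (e l) 2 0 2 (by norm_num)]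
    refine D.Om_of D.two ⟨-e i, ?_⟩ (pA.sub px (om_f_e_ne hil))
    change om (f i - e l) (-e i) = 1
    rw [om_neg_right, om_sub_left, om_f_e, om_e_e]
    norm_num
  have oP : ((f i + e l, 2) : U m) ∈ Om act l := by
    rw [← m1 (f i) (e l) 2 0 2 (by norm_num)]
    refine D.Om_of D.two ⟨-e i, ?_⟩ (pA.add px (om_f_e_ne hil))
    change om (f i + e l) (-e i) = 1
    rw [om_neg_right, om_add_left, om_f_e, om_e_e]
    norm_num
  have oC0 : ((e l - f i, 0) : U m) ∈ Om act l := by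
    rw [← m2 (e l) (f i) 0 0 0 (by norm_num)]
    refine D.Om_of D.two ⟨f l, ?_⟩ (px.sub pA0 (om_e_f_ne hli))
    change om (e l - f i) (f l) = 1
    rw [om_sub_left, om_e_f, om_f_f]
    norm_num
  have oP0 : ((e l + f i, 0) : U m) ∈ Om act l := by
    rw [← m1 (e l) (f i) 0 0 0 (by norm_num)]
    refine D.Om_of D.two ⟨f l, ?_⟩ (px.add pA0 (om_e_f_ne hli))
    change om (e l + f i) (f l) = 1
    rw [om_add_left, om_e_f, om_f_f]
    norm_num
  have t1 : T (-(e l, 0)) = T (e l, 2) := by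
    rw [D.T_neg ox, m3 (e l) 0 2 2 (by norm_num)]
  have t2 : T (-(f i, 0)) = T (f i, 2) := by
    rw [D.T_neg oA0, m3 (f i) 0 2 2 (by norm_num)]
  have hS : T (f i + e l, 2) * (T (f i, 2))⁻¹ * T (f i - e l, 2) * (T (f i, 2))⁻¹ =
      T (e l, 0) * T (e l, 2) := by
    have L := D.star adj1 pA px
    rw [m2 (f i) (e l) 2 0 2 (by norm_num), m1 (f i) (e l) 2 0 2 (by norm_num), t1] at L
    refine rearr (cmT D oP oA ?_) (cmT D oC oA ?_) (cmT D oP oC ?_) (cmT D oA ox ?_)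
      (cmT D oA ox2 ?_) (cmT D ox ox2 ?_) L
    · rw [om_add_left, om_f_f, om_e_f_ne hli, add_zero]
    · rw [om_sub_left, om_f_f, om_e_f_ne hli, sub_zero]
    · rw [om_add_left, om_sub_right, om_sub_right, om_f_f, om_f_e_ne hil, om_e_f_ne hli, om_e_e]
      norm_num
    · exact om_f_e_ne hil
    · exact om_f_e_ne hil
    · exact om_e_e l l
  have hS' : T (e l + f i, 0) * (T (e l, 0))⁻¹ * T (e l - f i, 0) * (T (e l, 0))⁻¹ =
      T (f i, 0) * T (f i, 2) := by
    have L := D.star adj2 px pA0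
    rw [m2 (e l) (f i) 0 0 0 (by norm_num), m1 (e l) (f i) 0 0 0 (by norm_num), t2] at L
    refine rearr (cmT D oP0 ox ?_) (cmT D oC0 ox ?_) (cmT D oP0 oC0 ?_) (cmT D ox oA0 ?_)
      (cmT D ox oA ?_) (cmT D oA0 oA ?_) L
    · rw [om_add_left, om_e_e, om_f_e_ne hil, add_zero]
    · rw [om_sub_left, om_e_e, om_f_e_ne hil, sub_zero]
    · rw [om_add_left, om_sub_right, om_sub_right, om_f_f, om_f_e_ne hil, om_e_f_ne hli, om_e_e]
      norm_num
    · exact om_e_f_ne hli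
    · exact om_e_f_ne hli
    · exact om_f_f i i
  have hB : T (e l - f i, 2) * (T (e l - f i, 0))⁻¹ =
      T (e l, 2) * (T (e l, 0))⁻¹ * (T (-f i, 2) * (T (-f i, 0))⁻¹) := by
    have L := D.B_sub adj2 px pA0
    rw [← D.B_neg oA0] at L
    rw [m2 (e l) (f i) 0 0 0 (by norm_num), B, B, B, m3 _ 0 2 2 (by norm_num),
      m3 _ 0 2 2 (by norm_num)] at L
    have e1 : (-(f i, 0) : U m) = (-f i, 0) := Prod.ext rfl neg_zero
    rw [e1, m3 _ 0 2 2 (by norm_num)] at L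
    exact L
  have h := loc_sigma D D.two D.s_one hS hS' hB ox
  have h3 : T ((e l, 0) + (0, 2) + (0, 2)) * (T ((e l, 0) + (0, 2)))⁻¹ =
      B T ((e l, 0) + (0, 2)) := rfl
  have h4 : T ((e l, 0) + (0, 2)) * (T (e l, 0))⁻¹ = B T (e l, 0) := rfl
  rw [h3, h4] at h
  have h5 : B T ((e l, 0) + (0, 2)) = sg T l * B T (e l, 0) := by
    rw [← D.sg_eq ox, inv_mul_cancel_right]
  rw [h5, (D.sg_B ox).eq.symm, inv_mul_cancel_left] at h
  exact h

end Pool.Agent.H.MP_59b15d_al.R1
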